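import Pool.Agent.Lib.MP_269084_lc.Defs

/-!
# MP_269084 / Defs3: what is seen within distance r
-/

set_option autoImplicit false

namespace Pool.Agent.Lib.MP_269084_lc

/-- The set of the vertices at distance at most `r` from `v` in `G` (edges may be used in both directions). -/
def near {V : Type} (G : V → V → Prop) : ℕ → V → Set V
  | 0, v => {v}
  | r + 1, v => {x | x ∈ near G r v ∨ ∃ y ∈ near G r v, G x y ∨ G y x}

/-- What is seen from `v` with sight `r`: the vertex `v` and all edges of `G` with an endpoint at distance at most `r` from `v`. -/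
def ball {V : Type} (G : V → V → Prop) (r : ℕ) (v : V) : V × Set (V × V) :=
  (v, {e | G e.1 e.2 ∧ (e.1 ∈ near G r v ∨ e.2 ∈ near G r v)})

end Pool.Agent.Lib.MP_269084_lc
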