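import Pool.Agent.Lib.MP_269084_lc.Defs2
import Pool.Agent.Lib.MP_269084_lc.Defs3

/-!
# MP_269084 / Ball: locality of the balls, transport along an injection
-/

set_option autoImplicit false

namespace Pool.Agent.Lib.MP_269084_lc

section

variable {V : Type} {G G' : V → V → Prop}

theorem near_succ_iff {r : ℕ} {v x : V} : x ∈ near G (r + 1) v ↔ x ∈ near G r v ∨ ∃ y ∈ near G r v, G x y ∨ G y x := Iff.rfl

theorem near_zero_iff {v x : V} : x ∈ near G 0 v ↔ x = v := Iff.rfl

theorem near_mono {r s : ℕ} (h : r ≤ s) (v : V) : near G r v ⊆ near G s v := by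
  induction s, h using Nat.le_induction with
  | base => exact fun x hx => hx
  | succ s _ ih => exact fun x hx => Or.inl (ih hx)

theorem near_lip (f : V → ℕ) (hf : ∀ u v, G u v → f u ≤ f v + 1 ∧ f v ≤ f u + 1) (r : ℕ) (x y : V) (hy : y ∈ near G r x) :
    f y ≤ f x + r := by
  induction r generalizing y with
  | zero =>
    rw [near_zero_iff] at hy
    rw [hy]
    exact le_rfl
  | succ r ih =>
    rw [near_succ_iff] at hy
    rcases hy with hy | ⟨z, hz, h | h⟩
    · exact (ih y hy).trans (by omega)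
    · have h1 := ih z hz
      have h2 := (hf _ _ h).1
      omega
    · have h1 := ih z hz
      have h2 := (hf _ _ h).2
      omega

theorem ball_congr (r : ℕ) (x : V) (h : ∀ y ∈ near G r x, ∀ z, (G y z ↔ G' y z) ∧ (G z y ↔ G' z y)) : ball G r x = ball G' r x := by
  have hn : ∀ s, s ≤ r → near G s x = near G' s x := by
    intro s
    induction s with
    | zero => exact fun _ => rfl
    | succ s ih =>
      intro hs
      have ih' := ih (by omega)
      ext y
      rw [near_succ_iff, near_succ_iff, ← ih']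
      refine or_congr Iff.rfl ?_
      constructor
      · rintro ⟨z, hz, h1 | h1⟩
        · exact ⟨z, hz, Or.inl ((h z (near_mono (by omega) x hz) y).2.1 h1)⟩
        · exact ⟨z, hz, Or.inr ((h z (near_mono (by omega) x hz) y).1.1 h1)⟩
      · rintro ⟨z, hz, h1 | h1⟩
        · exact ⟨z, hz, Or.inl ((h z (near_mono (by omega) x hz) y).2.2 h1)⟩
        · exact ⟨z, hz, Or.inr ((h z (near_mono (by omega) x hz) y).1.2 h1)⟩
  unfold ball
  refine Prod.ext rfl ?_
  dsimp only
  rw [← hn r le_rfl]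
  ext ⟨a, c⟩
  simp only [Set.mem_setOf_eq]
  constructor
  · rintro ⟨h1, h2 | h2⟩
    · exact ⟨(h a h2 c).1.1 h1, Or.inl h2⟩
    · exact ⟨(h c h2 a).2.1 h1, Or.inr h2⟩
  · rintro ⟨h1, h2 | h2⟩
    · exact ⟨(h a h2 c).1.2 h1, Or.inl h2⟩
    · exact ⟨(h c h2 a).2.2 h1, Or.inr h2⟩

end

section

variable {W V : Type} (ι : W → V)

/-- the image of a graph -/
def tr (G : W → W → Prop) (a c : V) : Prop := ∃ x y, ι x = a ∧ ι y = c ∧ G x y

variable {ι} {U : Set W} (hι : Set.InjOn ι U) {G : W → W → Prop} (hU : ∀ x y, G x y → x ∈ U ∧ y ∈ U)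
include hι hU

theorem tr_iff {x y : W} (hx : x ∈ U) (hy : y ∈ U) : tr ι G (ι x) (ι y) ↔ G x y := by
  constructor
  · rintro ⟨x', y', h1, h2, h3⟩
    rwa [hι (hU _ _ h3).1 hx h1, hι (hU _ _ h3).2 hy h2] at h3
  · intro h
    exact ⟨x, y, rfl, rfl, h⟩

theorem isPath_tr {s t : W} (hs : s ∈ U) (ht : t ∈ U) {L : List V} :
    IsPath (tr ι G) (ι s) (ι t) L ↔ ∃ l, IsPath G s t l ∧ L = l.map ι := by
  constructor
  · rintro ⟨hc, hh, hl⟩
    induction L generalizing s with
    | nil => simp at hh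
    | cons a L ih =>
      rw [List.head?_cons] at hh
      have ha := Option.some.inj hh
      subst ha
      rcases L with _ | ⟨c, L⟩
      · rw [List.getLast?_singleton] at hl
        have hst := hι hs ht (Option.some.inj hl)
        exact ⟨[s], ⟨List.isChain_singleton _, rfl, by rw [List.getLast?_singleton, hst]⟩, rfl⟩
      · rw [List.isChain_cons_cons] at hc
        obtain ⟨x, y, hx, hy, hxy⟩ := hc.1
        have hxs := hι (hU _ _ hxy).1 hs hx
        subst hxs
        subst hy
        rw [List.getLast?_cons_cons] at hl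
        obtain ⟨l, hlp, hlm⟩ := ih (hU _ _ hxy).2 hc.2 rfl hl
        refine ⟨x :: l, ⟨?_, rfl, ?_⟩, by rw [List.map_cons, hlm]⟩
        · rcases l with _ | ⟨z, l⟩
          · exact List.isChain_singleton _
          · rw [List.isChain_cons_cons]
            have hz : z = y := by
              have := hlp.2.1
              rw [List.head?_cons] at this
              exact Option.some.inj this
            rw [hz]
            refine ⟨hxy, ?_⟩
            have := hlp.1
            rwa [hz] at this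
        · rcases l with _ | ⟨z, l⟩
          · have := hlp.2.1
            simp at this
          · rw [List.getLast?_cons_cons]
            exact hlp.2.2
  · rintro ⟨l, ⟨hc, hh, hl⟩, rfl⟩
    refine ⟨?_, ?_, ?_⟩
    · rw [List.isChain_map]
      exact hc.imp fun x y h => (tr_iff hι hU (hU _ _ h).1 (hU _ _ h).2).2 h
    · rw [List.head?_map, hh, Option.map_some]
    · rw [List.getLast?_map, hl, Option.map_some]

theorem near_sub (r : ℕ) (x : W) (hx : x ∈ U) : near G r x ⊆ U := by
  intro y hy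
  rcases r with _ | r
  · rw [near_zero_iff] at hy
    rw [hy]
    exact hx
  · induction r with
    | zero =>
      rw [near_succ_iff] at hy
      rcases hy with hy | ⟨z, -, h | h⟩
      · rw [near_zero_iff] at hy
        rw [hy]
        exact hx
      · exact (hU _ _ h).1
      · exact (hU _ _ h).2
    | succ r ih =>
      rw [near_succ_iff] at hy
      rcases hy with hy | ⟨z, -, h | h⟩
      · exact ih hy
      · exact (hU _ _ h).1
      · exact (hU _ _ h).2

theorem near_tr (r : ℕ) (x : W) (hx : x ∈ U) : near (tr ι G) r (ι x) = ι '' near G r x := by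
  induction r with
  | zero =>
    ext a
    rw [near_zero_iff, Set.mem_image]
    constructor
    · intro h
      exact ⟨x, rfl, h.symm⟩
    · rintro ⟨y, hy, rfl⟩
      rw [near_zero_iff] at hy
      rw [hy]
  | succ r ih =>
    ext a
    rw [near_succ_iff, ih, Set.mem_image, Set.mem_image]
    constructor
    · rintro (⟨y, hy, rfl⟩ | ⟨c, ⟨z, hz, rfl⟩, ⟨u, v, hu, hv, h⟩ | ⟨u, v, hu, hv, h⟩⟩)
      · exact ⟨y, Or.inl hy, rfl⟩
      · have h1 := hι (hU _ _ h).2 (near_sub hι hU r x hx hz) hv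
        subst h1
        exact ⟨u, Or.inr ⟨v, hz, Or.inl h⟩, hu⟩
      · have h1 := hι (hU _ _ h).1 (near_sub hι hU r x hx hz) hu
        subst h1
        exact ⟨v, Or.inr ⟨u, hz, Or.inr h⟩, hv⟩
    · rintro ⟨y, hy, rfl⟩
      rw [near_succ_iff] at hy
      rcases hy with hy | ⟨z, hz, h | h⟩
      · exact Or.inl ⟨y, hy, rfl⟩
      · exact Or.inr ⟨ι z, ⟨z, hz, rfl⟩, Or.inl ⟨y, z, rfl, rfl, h⟩⟩
      · exact Or.inr ⟨ι z, ⟨z, hz, rfl⟩, Or.inr ⟨z, y, rfl, rfl, h⟩⟩

theorem ball_tr (r : ℕ) (x : W) (hx : x ∈ U) :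
    ball (tr ι G) r (ι x) = (ι x, (fun e : W × W => (ι e.1, ι e.2)) '' (ball G r x).2) := by
  unfold ball
  refine Prod.ext rfl ?_
  dsimp only
  rw [near_tr hι hU r x hx]
  ext ⟨a, c⟩
  simp only [Set.mem_setOf_eq, Set.mem_image, Prod.mk.injEq, Prod.exists]
  constructor
  · rintro ⟨⟨u, v, rfl, rfl, h⟩, h2⟩
    refine ⟨u, v, ⟨h, ?_⟩, rfl, rfl⟩
    rcases h2 with ⟨z, hz, h3⟩ | ⟨z, hz, h3⟩
    · rw [← hι (near_sub hι hU r x hx hz) (hU _ _ h).1 h3]
      exact Or.inl hz
    · rw [← hι (near_sub hι hU r x hx hz) (hU _ _ h).2 h3]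
      exact Or.inr hz
  · rintro ⟨u, v, ⟨h, h2⟩, rfl, rfl⟩
    refine ⟨⟨u, v, rfl, rfl, h⟩, ?_⟩
    rcases h2 with h2 | h2
    · exact Or.inl ⟨u, h2, rfl⟩
    · exact Or.inr ⟨v, h2, rfl⟩

end

end Pool.Agent.Lib.MP_269084_lc
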