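import Pool.Agent.Lib.MP_269084_lc.Defs

/-!
# MP_269084 / Defs2: what a walker sees at a vertex
-/

set_option autoImplicit false

namespace Pool.Agent.Lib.MP_269084_lc

/-- The view at a vertex `v` of `G`: the vertex, the set of its in-neighbours and the set of its out-neighbours. -/
def view {V : Type} (G : V → V → Prop) (v : V) : V × Set V × Set V :=
  (v, {u | G u v}, {u | G v u})

end Pool.Agent.Lib.MP_269084_lc
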