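import Pool.Agent.Lib.MP_269084_lc.Paths
import Pool.Agent.Lib.MP_269084_lc.Defs2

/-!
# MP_269084 / Decoys: two routes with decoys

`oc` and `ic` are the codes of the out-class and of the in-class of a vertex. The vertex at position `p` of a route has all vertices of the out-class of the next vertex of the route as out-neighbours; the vertex at position `p + 1` has all vertices of the in-class of the previous vertex as in-neighbours. The paths from the first to the last vertex are the same as without decoys.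
-/

set_option autoImplicit false

namespace Pool.Agent.Lib.MP_269084_lc

variable {V A B : Type}

/-- the graph with decoys -/
def GD (X Y : ℕ → V) (oc : V → A) (ic : V → B) (K : ℕ) (u v : V) : Prop :=
  ∃ p, p < K ∧ ((u = X p ∧ oc v = oc (X (p + 1))) ∨ (u = Y p ∧ oc v = oc (Y (p + 1))) ∨
    (v = X (p + 1) ∧ ic u = ic (X p)) ∨ (v = Y (p + 1) ∧ ic u = ic (Y p)))

/-- the conditions on the two routes -/
structure Cond (X Y : ℕ → V) (oc : V → A) (ic : V → B) (pos : V → ℕ) (K : ℕ) : Prop where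
  hX : ∀ p, p ≤ K → pos (X p) = p
  hY : ∀ p, p ≤ K → pos (Y p) = p
  hoc : ∀ u v, oc u = oc v → pos u = pos v
  hic : ∀ u v, ic u = ic v → pos u = pos v
  hinj : ∀ u v, oc u = oc v → ic u = ic v → u = v
  hmix : ∀ p, p ≤ K → ∀ v, oc v = oc (X p) → ic v = ic (Y p) → v = X p ∨ v = Y p
  hmix' : ∀ p, p ≤ K → ∀ v, oc v = oc (Y p) → ic v = ic (X p) → v = X p ∨ v = Y p
  hcr : ∀ p, p < K → X p ≠ Y p → X (p + 1) ≠ Y (p + 1) → oc (X (p + 1)) ≠ oc (Y (p + 1)) ∧ ic (X p) ≠ ic (Y p)
  hbr : ∀ p, p < K → X p = Y p → oc (X (p + 1)) = oc (Y (p + 1))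
  hmg : ∀ p, p < K → X (p + 1) = Y (p + 1) → ic (X p) = ic (Y p)

variable {X Y : ℕ → V} {oc : V → A} {ic : V → B} {pos : V → ℕ} {K : ℕ}

theorem Cond.symm (h : Cond X Y oc ic pos K) : Cond Y X oc ic pos K where
  hX := h.hY
  hY := h.hX
  hoc := h.hoc
  hic := h.hic
  hinj := h.hinj
  hmix p hp v h1 h2 := (h.hmix' p hp v h1 h2).symm
  hmix' p hp v h1 h2 := (h.hmix p hp v h1 h2).symm
  hcr p hp h1 h2 := ⟨(h.hcr p hp h1.symm h2.symm).1.symm, (h.hcr p hp h1.symm h2.symm).2.symm⟩
  hbr p hp h1 := (h.hbr p hp h1.symm).symm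
  hmg p hp h1 := (h.hmg p hp h1.symm).symm

theorem GD_symm {u v : V} (h : GD X Y oc ic K u v) : GD Y X oc ic K u v := by
  obtain ⟨p, hp, h | h | h | h⟩ := h
  · exact ⟨p, hp, Or.inr (Or.inl h)⟩
  · exact ⟨p, hp, Or.inl h⟩
  · exact ⟨p, hp, Or.inr (Or.inr (Or.inr h))⟩
  · exact ⟨p, hp, Or.inr (Or.inr (Or.inl h))⟩

theorem GD_comm (u v : V) : GD X Y oc ic K u v ↔ GD Y X oc ic K u v := ⟨GD_symm, GD_symm⟩

/-- positions of the endpoints of an edge -/
theorem Cond.edge_pos (h : Cond X Y oc ic pos K) {u v : V} (he : GD X Y oc ic K u v) :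
    ∃ p, p < K ∧ pos u = p ∧ pos v = p + 1 ∧ ((u = X p ∧ oc v = oc (X (p + 1))) ∨ (u = Y p ∧ oc v = oc (Y (p + 1))) ∨
    (v = X (p + 1) ∧ ic u = ic (X p)) ∨ (v = Y (p + 1) ∧ ic u = ic (Y p))) := by
  obtain ⟨p, hp, h1⟩ := he
  refine ⟨p, hp, ?_, ?_, h1⟩
  · rcases h1 with ⟨rfl, -⟩ | ⟨rfl, -⟩ | ⟨-, h2⟩ | ⟨-, h2⟩
    · exact h.hX p hp.le
    · exact h.hY p hp.le
    · rw [h.hic _ _ h2, h.hX p hp.le]
    · rw [h.hic _ _ h2, h.hY p hp.le]
  · rcases h1 with ⟨-, h2⟩ | ⟨-, h2⟩ | ⟨rfl, -⟩ | ⟨rfl, -⟩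
    · rw [h.hoc _ _ h2, h.hX (p + 1) hp]
    · rw [h.hoc _ _ h2, h.hY (p + 1) hp]
    · exact h.hX (p + 1) hp
    · exact h.hY (p + 1) hp

theorem Cond.pos_succ (h : Cond X Y oc ic pos K) {u v : V} (he : GD X Y oc ic K u v) : pos v = pos u + 1 := by
  obtain ⟨p, -, h1, h2, -⟩ := h.edge_pos he
  rw [h1, h2]

theorem GG_GD {u v : V} (he : GG X Y K u v) : GD X Y oc ic K u v := by
  obtain ⟨p, hp, ⟨rfl, rfl⟩ | ⟨rfl, rfl⟩⟩ := he
  · exact ⟨p, hp, Or.inl ⟨rfl, rfl⟩⟩
  · exact ⟨p, hp, Or.inr (Or.inl ⟨rfl, rfl⟩)⟩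

theorem chain_pos {G : V → V → Prop} (hG : ∀ u v, G u v → pos v = pos u + 1) {l : List V} {s : V} (hs : pos s = 0)
    (hc : l.IsChain G) (hh : l.head? = some s) (i : ℕ) (hi : i < l.length) : pos l[i] = i := by
  induction i with
  | zero =>
    have h1 : l[0] = s := by
      rw [List.head?_eq_getElem?, List.getElem?_eq_getElem hi] at hh
      exact Option.some.inj hh
    rw [h1, hs]
  | succ i ih =>
    have h1 := List.isChain_iff_getElem.1 hc i hi
    rw [hG _ _ h1, ih (by omega)]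

/-- the vertices of a path from the first to the last vertex are on the routes -/
theorem Cond.live (h : Cond X Y oc ic pos K) (h0 : X 0 = Y 0) {l : List V} (hl : IsPath (GD X Y oc ic K) (X 0) (X K) l) :
    l.length = K + 1 ∧ ∀ i (hi : i < l.length), l[i] = X i ∨ l[i] = Y i := by
  obtain ⟨hc, hh, hlast⟩ := hl
  have hs : pos (X 0) = 0 := h.hX 0 (Nat.zero_le _)
  have hpos := chain_pos (G := GD X Y oc ic K) (fun u v he => h.pos_succ he) hs hc hh
  have hne : l ≠ [] := by
    rintro rfl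
    simp at hh
  have hlpos : 0 < l.length := List.length_pos_iff.2 hne
  rw [List.getLast?_eq_getElem?, List.getElem?_eq_getElem (by omega)] at hlast
  have hlast' := Option.some.inj hlast
  have hlen : l.length = K + 1 := by
    have h1 := hpos (l.length - 1) (by omega)
    rw [hlast', h.hX K le_rfl] at h1
    omega
  refine ⟨hlen, ?_⟩
  intro i
  induction i with
  | zero =>
    intro hi
    left
    rw [List.head?_eq_getElem?, List.getElem?_eq_getElem hi] at hh
    exact Option.some.inj hh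
  | succ i ih =>
    intro hi
    have hi' := ih (by omega)
    obtain ⟨p, hp, hp1, hp2, hcase⟩ := h.edge_pos (List.isChain_iff_getElem.1 hc i hi)
    rw [hpos i (by omega)] at hp1
    subst hp1
    by_cases hK : i + 1 = K
    · left
      have h2 : l[l.length - 1]'(by omega) = X K := hlast'
      have h3 : l[i + 1] = l[l.length - 1]'(by omega) := by
        congr 1
        omega
      rw [h3, h2, hK]
    · -- the next edge
      have hi2 : i + 1 + 1 < l.length := by omega
      obtain ⟨p, hpK, hp1, hp2', hcase'⟩ := h.edge_pos (List.isChain_iff_getElem.1 hc (i + 1) hi2)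
      rw [hpos (i + 1) hi] at hp1
      subst hp1
      rcases hcase' with h3 | h3 | ⟨-, h3⟩ | ⟨-, h3⟩
      · exact Or.inl h3.1
      · exact Or.inr h3.1
      · rcases hcase with ⟨-, h4⟩ | ⟨-, h4⟩ | ⟨h4, -⟩ | ⟨h4, -⟩
        · exact Or.inl (h.hinj _ _ h4 h3)
        · exact h.hmix' (i + 1) hpK.le _ h4 h3
        · exact Or.inl h4
        · exact Or.inr h4
      · rcases hcase with ⟨-, h4⟩ | ⟨-, h4⟩ | ⟨h4, -⟩ | ⟨h4, -⟩
        · exact h.hmix (i + 1) hpK.le _ h4 h3
        · exact Or.inr (h.hinj _ _ h4 h3)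
        · exact Or.inl h4
        · exact Or.inr h4

/-- an edge between vertices of the routes is an edge of a route -/
theorem Cond.live_edge (h : Cond X Y oc ic pos K) {u v : V} (he : GD X Y oc ic K u v) (hu : u = X (pos u) ∨ u = Y (pos u))
    (hv : v = X (pos v) ∨ v = Y (pos v)) : GG X Y K u v := by
  obtain ⟨p, hp, hp1, hp2, hcase⟩ := h.edge_pos he
  rw [hp1] at hu
  rw [hp2] at hv
  by_cases h1 : X p = Y p
  · rcases hv with hv | hv
    · refine ⟨p, hp, Or.inl ⟨?_, hv⟩⟩
      rcases hu with hu | hu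
      · exact hu
      · rw [hu, h1]
    · refine ⟨p, hp, Or.inr ⟨?_, hv⟩⟩
      rcases hu with hu | hu
      · rw [hu, h1]
      · exact hu
  · by_cases h2 : X (p + 1) = Y (p + 1)
    · rcases hu with hu | hu
      · refine ⟨p, hp, Or.inl ⟨hu, ?_⟩⟩
        rcases hv with hv | hv
        · exact hv
        · rw [hv, h2]
      · refine ⟨p, hp, Or.inr ⟨hu, ?_⟩⟩
        rcases hv with hv | hv
        · rw [hv, h2]
        · exact hv
    · obtain ⟨h3, h4⟩ := h.hcr p hp h1 h2
      rcases hu with hu | hu <;> rcases hv with hv | hv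
      · exact ⟨p, hp, Or.inl ⟨hu, hv⟩⟩
      · exfalso
        rcases hcase with ⟨h5, h6⟩ | ⟨h5, h6⟩ | ⟨h5, h6⟩ | ⟨h5, h6⟩
        · rw [hv] at h6
          exact h3 h6.symm
        · exact h1 (hu.symm.trans h5)
        · exact h2 (h5.symm.trans hv)
        · rw [hu] at h6
          exact h4 h6
      · exfalso
        rcases hcase with ⟨h5, h6⟩ | ⟨h5, h6⟩ | ⟨h5, h6⟩ | ⟨h5, h6⟩
        · exact h1 (h5.symm.trans hu)
        · rw [hv] at h6
          exact h3 h6
        · rw [hu] at h6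
          exact h4 h6.symm
        · exact h2 (hv.symm.trans h5)
      · exact ⟨p, hp, Or.inr ⟨hu, hv⟩⟩

/-- the paths are the same as without decoys -/
theorem Cond.path_iff (h : Cond X Y oc ic pos K) (h0 : X 0 = Y 0) (l : List V) :
    IsPath (GD X Y oc ic K) (X 0) (X K) l ↔ IsPath (GG X Y K) (X 0) (X K) l := by
  constructor
  · intro hl
    have hlive := h.live h0 hl
    have hpos := chain_pos (G := GD X Y oc ic K) (fun u v he => h.pos_succ he) (h.hX 0 (Nat.zero_le _)) hl.1 hl.2.1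
    refine ⟨?_, hl.2.1, hl.2.2⟩
    rw [List.isChain_iff_getElem]
    intro i hi
    refine h.live_edge (List.isChain_iff_getElem.1 hl.1 i hi) ?_ ?_
    · rw [hpos i (by omega)]
      exact hlive.2 i (by omega)
    · rw [hpos (i + 1) hi]
      exact hlive.2 (i + 1) hi
  · intro hl
    exact ⟨hl.1.imp fun u v he => GG_GD he, hl.2.1, hl.2.2⟩

/-- out-neighbours -/
theorem Cond.out_X (h : Cond X Y oc ic pos K) {p : ℕ} (hp : p < K) : {v | GD X Y oc ic K (X p) v} = {v | oc v = oc (X (p + 1))} := by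
  ext v
  simp only [Set.mem_setOf_eq]
  constructor
  · intro he
    obtain ⟨p', hp', hp1, hp2, hcase⟩ := h.edge_pos he
    rw [h.hX p hp.le] at hp1
    subst hp1
    rcases hcase with ⟨-, h6⟩ | ⟨h5, h6⟩ | ⟨h5, h6⟩ | ⟨h5, h6⟩
    · exact h6
    · rw [h6, ← h.hbr p hp h5]
    · rw [h5]
    · by_cases h1 : X p = Y p
      · rw [h5, ← h.hbr p hp h1]
      · by_cases h2 : X (p + 1) = Y (p + 1)
        · rw [h5, h2]
        · exact absurd h6 (h.hcr p hp h1 h2).2
  · intro hv
    exact ⟨p, hp, Or.inl ⟨rfl, hv⟩⟩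

theorem Cond.out_last (h : Cond X Y oc ic pos K) : {v | GD X Y oc ic K (X K) v} = ∅ := by
  rw [Set.eq_empty_iff_forall_notMem]
  intro v he
  obtain ⟨p', hp', hp1, -⟩ := h.edge_pos he
  rw [h.hX K le_rfl] at hp1
  omega

/-- in-neighbours -/
theorem Cond.in_X (h : Cond X Y oc ic pos K) {p : ℕ} (hp : p < K) : {u | GD X Y oc ic K u (X (p + 1))} = {u | ic u = ic (X p)} := by
  ext u
  simp only [Set.mem_setOf_eq]
  constructor
  · intro he
    obtain ⟨p', hp', hp1, hp2, hcase⟩ := h.edge_pos he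
    rw [h.hX (p + 1) hp] at hp2
    have hpp : p' = p := by omega
    subst hpp
    rcases hcase with ⟨h5, -⟩ | ⟨h5, h6⟩ | ⟨-, h6⟩ | ⟨h5, h6⟩
    · rw [h5]
    · by_cases h2 : X (p' + 1) = Y (p' + 1)
      · rw [h5, h.hmg p' hp h2]
      · by_cases h1 : X p' = Y p'
        · rw [h5, h1]
        · exact absurd h6 (h.hcr p' hp h1 h2).1
    · exact h6
    · rw [h6, h.hmg p' hp h5]
  · intro hu
    exact ⟨p, hp, Or.inr (Or.inr (Or.inl ⟨rfl, hu⟩))⟩

theorem Cond.in_first (h : Cond X Y oc ic pos K) : {u | GD X Y oc ic K u (X 0)} = ∅ := by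
  rw [Set.eq_empty_iff_forall_notMem]
  intro v he
  obtain ⟨p', hp', -, hp2, -⟩ := h.edge_pos he
  rw [h.hX 0 (Nat.zero_le _)] at hp2
  omega

/-- the view along a route, computed from the route alone -/
def cv (Z : ℕ → V) (oc : V → A) (ic : V → B) (K p : ℕ) : V × Set V × Set V :=
  (Z p, (if p = 0 then ∅ else {u | ic u = ic (Z (p - 1))}), (if p = K then ∅ else {v | oc v = oc (Z (p + 1))}))

theorem Cond.view_X (h : Cond X Y oc ic pos K) {p : ℕ} (hp : p ≤ K) : view (GD X Y oc ic K) (X p) = cv X oc ic K p := by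
  unfold view cv
  refine Prod.ext rfl (Prod.ext ?_ ?_)
  · dsimp only
    rcases p with _ | p
    · rw [if_pos rfl]
      exact h.in_first
    · rw [if_neg (by omega), Nat.add_sub_cancel]
      exact h.in_X hp
  · dsimp only
    rcases hp.lt_or_eq with h1 | h1
    · rw [if_neg h1.ne]
      exact h.out_X h1
    · subst h1
      rw [if_pos rfl]
      exact h.out_last

theorem Cond.view_Y (h : Cond X Y oc ic pos K) {p : ℕ} (hp : p ≤ K) : view (GD X Y oc ic K) (Y p) = cv Y oc ic K p := by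
  have h1 := h.symm.view_X hp
  rw [← h1]
  unfold view
  refine Prod.ext rfl (Prod.ext ?_ ?_)
  · ext u
    exact GD_comm _ _
  · ext u
    exact GD_comm _ _

variable {M : Type} [Monoid M]

/-- product of the labels of the views along a route -/
def cz (w : V × Set V × Set V → V × Set V × Set V → M) (Z : ℕ → V) (oc : V → A) (ic : V → B) (K : ℕ) : ℕ → ℕ → M
  | _, 0 => 1
  | a, d + 1 => w (cv Z oc ic K a) (cv Z oc ic K (a + 1)) * cz w Z oc ic K (a + 1) d

theorem cz_congr (w : V × Set V × Set V → V × Set V × Set V → M) (Z Z' : ℕ → V) (a d : ℕ)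
    (h : ∀ p, a ≤ p → p ≤ a + d → cv Z oc ic K p = cv Z' oc ic K p) : cz w Z oc ic K a d = cz w Z' oc ic K a d := by
  induction d generalizing a with
  | zero => rfl
  | succ d ih =>
    rw [cz, cz, h a le_rfl (by omega), h (a + 1) (by omega) (by omega), ih (a + 1) fun p h1 h2 => h p (by omega) (by omega)]

theorem Cond.pz_X (h : Cond X Y oc ic pos K) (w : V × Set V × Set V → V × Set V × Set V → M) (a d : ℕ) (had : a + d ≤ K) :
    pz (fun u v => w (view (GD X Y oc ic K) u) (view (GD X Y oc ic K) v)) X a d = cz w X oc ic K a d := by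
  induction d generalizing a with
  | zero => rfl
  | succ d ih =>
    rw [pz, cz, ih (a + 1) (by omega), h.view_X (by omega), h.view_X (by omega)]

theorem Cond.pz_Y (h : Cond X Y oc ic pos K) (w : V × Set V × Set V → V × Set V × Set V → M) (a d : ℕ) (had : a + d ≤ K) :
    pz (fun u v => w (view (GD X Y oc ic K) u) (view (GD X Y oc ic K) v)) Y a d = cz w Y oc ic K a d := by
  induction d generalizing a with
  | zero => rfl
  | succ d ih =>
    rw [pz, cz, ih (a + 1) (by omega), h.view_Y (by omega), h.view_Y (by omega)]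

end Pool.Agent.Lib.MP_269084_lc
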