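import Pool.Agent.Lib.MP_269084_lc.Words

/-!
# MP_269084 / Words2: words with three letters per layer

Positions `3 t`, `3 t + 1`, `3 t + 2` carry the letters `x_t`, `z_t`, `y_t` of layer `t < T`. Two words are separated from layer `i` to layer `j` (`i < j`) if they agree outside `[3 i + 2, 3 j]` and differ at `y_i`, at `x_j` and at every `z_t`, `i < t < j`.
-/

set_option autoImplicit false

open Finset

namespace Pool.Agent.Lib.MP_269084_lc

/-- the places where separated words must differ -/
def IsKey (i j p : ℕ) : Prop := p = 3 * i + 2 ∨ p = 3 * j ∨ (p % 3 = 1 ∧ 3 * i + 2 < p ∧ p < 3 * j)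

instance (i j p : ℕ) : Decidable (IsKey i j p) := by
  unfold IsKey
  infer_instance

/-- separated words -/
def Sep {T q : ℕ} (a a' : Fin (3 * T) → Fin q) (i j : ℕ) : Prop :=
  (∀ p : Fin (3 * T), a p ≠ a' p → 3 * i + 2 ≤ p.val ∧ p.val < 3 * j + 1) ∧
    ∀ p : Fin (3 * T), IsKey i j p.val → a p ≠ a' p

theorem fib_triv {q L : ℕ} {X : Type*} (F : (Fin L → Fin q) → X) (i j : ℕ) (hj : j ≤ L) (b : Fin L → Fin q) (x : X) :
    (fib F i j b x).card ≤ q ^ (j - i) := by
  classical
  rw [← card_seg hj, ← card_free (seg L i j) b]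
  refine card_le_card fun a ha => ?_
  rw [fib, mem_filter] at ha
  rw [mem_filter]
  exact ⟨mem_univ _, ha.2.1⟩

open Classical in
theorem sub_bound {q L : ℕ} {X : Type*} (F : (Fin L → Fin q) → X) (i j : ℕ) (b : Fin L → Fin q) (x : X) (t : Fin L) (c : Fin q)
    (i' j' Q C : ℕ) (ht1 : i ≤ t.val) (ht2 : t.val < j) (hj : j ≤ L) (h1 : i ≤ i') (h2 : j' ≤ j) (h3 : i' ≤ j')
    (h4 : t.val < i' ∨ j' ≤ t.val) (hQ : 0 < Q) (hsub : ∀ b', (fib F i' j' b' x).card * Q ≤ C * q ^ (j' - i')) :
    ((fib F i j b x).filter fun a => a t = c).card * Q ≤ C * q ^ (j - i - 1) := by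
  have hR : ((seg L i j) \ (insert t (seg L i' j'))).card = (j - i - 1) - (j' - i') := by
    rw [card_sdiff_of_subset, card_insert_of_notMem, card_seg hj, card_seg (h2.trans hj)]
    · omega
    · rw [mem_seg]
      omega
    · intro s hs
      rw [mem_insert, mem_seg] at hs
      rw [mem_seg]
      rcases hs with rfl | hs
      · exact ⟨ht1, ht2⟩
      · omega
  have hb := split_bound F i j i' j' b x t c ((seg L i j) \ (insert t (seg L i' j'))) (by
    intro s hs
    by_cases h5 : s = t
    · exact Or.inr (Or.inl h5)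
    · by_cases h6 : s ∈ seg L i' j'
      · exact Or.inl h6
      · refine Or.inr (Or.inr ?_)
        rw [mem_sdiff, mem_insert]
        exact ⟨hs, fun h => h.elim h5 h6⟩) (C * q ^ (j' - i') / Q) (fun b' => (Nat.le_div_iff_mul_le hQ).2 (hsub b'))
  rw [hR] at hb
  calc _ ≤ C * q ^ (j' - i') / Q * q ^ ((j - i - 1) - (j' - i')) * Q := Nat.mul_le_mul_right _ hb
    _ = C * q ^ (j' - i') / Q * Q * q ^ ((j - i - 1) - (j' - i')) := by ring
    _ ≤ C * q ^ (j' - i') * q ^ ((j - i - 1) - (j' - i')) := Nat.mul_le_mul_right _ (Nat.div_mul_le_self _ _)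
    _ = C * q ^ (j - i - 1) := by
        rw [mul_assoc, ← pow_add]
        congr 2
        omega

/-- the set of the key places -/
def keys (T i j : ℕ) : Finset (Fin (3 * T)) := univ.filter fun p => IsKey i j p.val

theorem card_keys {T i j : ℕ} (hij : i < j) (hj : j < T) : (keys T i j).card ≤ T := by
  have h : (keys T i j).card ≤ (range T).card := by
    refine card_le_card_of_injOn (fun p => if p.val = 3 * i + 2 then i else p.val / 3) ?_ ?_
    · intro p hp
      simp only [keys, coe_filter, mem_univ, true_and, Set.mem_setOf_eq, IsKey] at hp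
      simp only [coe_range, Set.mem_Iio]
      split_ifs with h
      · omega
      · have := p.isLt
        omega
    · intro p hp p' hp' heq
      simp only [keys, coe_filter, mem_univ, true_and, Set.mem_setOf_eq, IsKey] at hp hp'
      rw [Fin.ext_iff]
      dsimp only at heq
      split_ifs at heq with h1 h2 h3
      · omega
      · omega
      · omega
      · omega
  rwa [card_range] at h

theorem fib_bound2 {T q : ℕ} {X : Type*} (F : (Fin (3 * T) → Fin q) → X) (hq : 0 < q)
    (hF : ∀ a a' : Fin (3 * T) → Fin q, ∀ i j : ℕ, i < j → j < T → Sep a a' i j → F a ≠ F a')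
    (m i j : ℕ) (hj : j < T) (hm : 2 ^ m ≤ j - i) (b : Fin (3 * T) → Fin q) (x : X) :
    (fib F (3 * i + 2) (3 * j + 1) b x).card * q ^ (m + 1) ≤ T ^ (m + 1) * q ^ (3 * j + 1 - (3 * i + 2)) := by
  classical
  induction m generalizing i j b with
  | zero =>
    have hij : i < j := by
      rw [pow_zero] at hm
      omega
    have hmain : ∀ (a0 : Fin (3 * T) → Fin q), ∀ t ∈ keys T i j,
        ((fib F (3 * i + 2) (3 * j + 1) b x).filter fun a => a t = a0 t).card * 1 ≤ 1 * q ^ (3 * j + 1 - (3 * i + 2) - 1) := by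
      intro a0 t ht
      simp only [keys, mem_filter, mem_univ, true_and, IsKey] at ht
      refine sub_bound F (3 * i + 2) (3 * j + 1) b x t (a0 t) (3 * i + 2) (3 * i + 2) 1 1 (by omega) (by omega) (by omega) le_rfl (by omega)
        le_rfl (by omega) Nat.one_pos ?_
      intro b'
      rw [mul_one, one_mul]
      exact fib_triv F _ _ (by omega) b' x
    rcases (fib F (3 * i + 2) (3 * j + 1) b x).eq_empty_or_nonempty with he | ⟨a0, ha0⟩
    · rw [he, card_empty, zero_mul]
      exact Nat.zero_le _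
    · have hcover : fib F (3 * i + 2) (3 * j + 1) b x ⊆
          (keys T i j).biUnion fun t => (fib F (3 * i + 2) (3 * j + 1) b x).filter fun a => a t = a0 t := by
        intro a ha
        by_contra hcon
        rw [mem_biUnion] at hcon
        push Not at hcon
        rw [fib, mem_filter] at ha0
        have ha' := ha
        rw [fib, mem_filter] at ha'
        refine hF a a0 i j hij hj ⟨?_, ?_⟩ (ha'.2.2.trans ha0.2.2.symm)
        · intro p hp
          by_contra hs
          exact hp ((ha'.2.1 p fun h => hs (mem_seg.1 h)).trans (ha0.2.1 p fun h => hs (mem_seg.1 h)).symm)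
        · intro p hp heq
          exact hcon p (by simp only [keys, mem_filter, mem_univ, true_and]; exact hp) (mem_filter.2 ⟨ha, heq⟩)
      have hlen : 3 * j + 1 - (3 * i + 2) - 1 + 1 = 3 * j + 1 - (3 * i + 2) := by omega
      calc (fib F (3 * i + 2) (3 * j + 1) b x).card * q ^ (0 + 1)
          ≤ (∑ t ∈ keys T i j, ((fib F (3 * i + 2) (3 * j + 1) b x).filter fun a => a t = a0 t).card) * q ^ (0 + 1) :=
            Nat.mul_le_mul_right _ ((card_le_card hcover).trans card_biUnion_le)
        _ ≤ (∑ _t ∈ keys T i j, q ^ (3 * j + 1 - (3 * i + 2) - 1)) * q ^ (0 + 1) :=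
            Nat.mul_le_mul_right _ (sum_le_sum fun t ht => by simpa using hmain a0 t ht)
        _ = (keys T i j).card * q ^ (3 * j + 1 - (3 * i + 2) - 1 + 1) := by
            rw [sum_const, smul_eq_mul, zero_add, pow_one, pow_succ, mul_assoc]
        _ ≤ T ^ (0 + 1) * q ^ (3 * j + 1 - (3 * i + 2)) := by
            rw [hlen, zero_add, pow_one]
            exact Nat.mul_le_mul_right _ (card_keys hij hj)
  | succ m ih =>
    have h2m : 1 ≤ 2 ^ m := Nat.one_le_two_pow
    rw [pow_succ] at hm
    have hij : i < j := by omega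
    have hmain : ∀ (a0 : Fin (3 * T) → Fin q), ∀ t ∈ keys T i j,
        ((fib F (3 * i + 2) (3 * j + 1) b x).filter fun a => a t = a0 t).card * q ^ (m + 1) ≤
          T ^ (m + 1) * q ^ (3 * j + 1 - (3 * i + 2) - 1) := by
      intro a0 t ht
      simp only [keys, mem_filter, mem_univ, true_and, IsKey] at ht
      have hQ : 0 < q ^ (m + 1) := Nat.pow_pos hq
      rcases ht with ht | ht | ⟨ht1, ht2, ht3⟩
      · exact sub_bound F (3 * i + 2) (3 * j + 1) b x t (a0 t) (3 * (i + 1) + 2) (3 * j + 1) _ _ (by omega) (by omega) (by omega)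
          (by omega) le_rfl (by omega) (by omega) hQ fun b' => ih (i + 1) j hj (by omega) b'
      · exact sub_bound F (3 * i + 2) (3 * j + 1) b x t (a0 t) (3 * i + 2) (3 * (j - 1) + 1) _ _ (by omega) (by omega) (by omega)
          le_rfl (by omega) (by omega) (by omega) hQ fun b' => ih i (j - 1) (by omega) (by omega) b'
      · obtain ⟨s, hs⟩ : ∃ s, t.val = 3 * s + 1 := ⟨t.val / 3, by omega⟩
        by_cases hlong : 2 ^ m ≤ s - i
        · exact sub_bound F (3 * i + 2) (3 * j + 1) b x t (a0 t) (3 * i + 2) (3 * s + 1) _ _ (by omega) (by omega) (by omega)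
            le_rfl (by omega) (by omega) (by omega) hQ fun b' => ih i s (by omega) hlong b'
        · exact sub_bound F (3 * i + 2) (3 * j + 1) b x t (a0 t) (3 * s + 2) (3 * j + 1) _ _ (by omega) (by omega) (by omega)
            (by omega) le_rfl (by omega) (by omega) hQ fun b' => ih s j hj (by omega) b'
    rcases (fib F (3 * i + 2) (3 * j + 1) b x).eq_empty_or_nonempty with he | ⟨a0, ha0⟩
    · rw [he, card_empty, zero_mul]
      exact Nat.zero_le _
    · have hcover : fib F (3 * i + 2) (3 * j + 1) b x ⊆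
          (keys T i j).biUnion fun t => (fib F (3 * i + 2) (3 * j + 1) b x).filter fun a => a t = a0 t := by
        intro a ha
        by_contra hcon
        rw [mem_biUnion] at hcon
        push Not at hcon
        rw [fib, mem_filter] at ha0
        have ha' := ha
        rw [fib, mem_filter] at ha'
        refine hF a a0 i j hij hj ⟨?_, ?_⟩ (ha'.2.2.trans ha0.2.2.symm)
        · intro p hp
          by_contra hs
          exact hp ((ha'.2.1 p fun h => hs (mem_seg.1 h)).trans (ha0.2.1 p fun h => hs (mem_seg.1 h)).symm)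
        · intro p hp heq
          exact hcon p (by simp only [keys, mem_filter, mem_univ, true_and]; exact hp) (mem_filter.2 ⟨ha, heq⟩)
      have hlen : 3 * j + 1 - (3 * i + 2) - 1 + 1 = 3 * j + 1 - (3 * i + 2) := by omega
      calc (fib F (3 * i + 2) (3 * j + 1) b x).card * q ^ (m + 1 + 1)
          ≤ (∑ t ∈ keys T i j, ((fib F (3 * i + 2) (3 * j + 1) b x).filter fun a => a t = a0 t).card) * q ^ (m + 1 + 1) :=
            Nat.mul_le_mul_right _ ((card_le_card hcover).trans card_biUnion_le)
        _ = (∑ t ∈ keys T i j, ((fib F (3 * i + 2) (3 * j + 1) b x).filter fun a => a t = a0 t).card * q ^ (m + 1)) * q := by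
            rw [pow_succ, ← mul_assoc, sum_mul]
        _ ≤ (∑ _t ∈ keys T i j, T ^ (m + 1) * q ^ (3 * j + 1 - (3 * i + 2) - 1)) * q :=
            Nat.mul_le_mul_right _ (sum_le_sum fun t ht => hmain a0 t ht)
        _ = (keys T i j).card * (T ^ (m + 1) * q ^ (3 * j + 1 - (3 * i + 2) - 1 + 1)) := by
            rw [sum_const, smul_eq_mul]
            ring
        _ ≤ T * (T ^ (m + 1) * q ^ (3 * j + 1 - (3 * i + 2) - 1 + 1)) := Nat.mul_le_mul_right _ (card_keys hij hj)
        _ = T ^ (m + 1 + 1) * q ^ (3 * j + 1 - (3 * i + 2)) := by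
            rw [hlen]
            ring

/-- a function with few values identifies two separated words which agree with `b` at the first two and the last two places -/
theorem exists_sep {T q : ℕ} {X : Type*} [Finite X] (F : (Fin (3 * T) → Fin q) → X) (b : Fin (3 * T) → Fin q) (hq : 0 < q) (m : ℕ)
    (hm : 2 ^ m + 1 ≤ T) (hX : Nat.card X * T ^ (m + 1) < q ^ (m + 1)) :
    ∃ a a' : Fin (3 * T) → Fin q, ∃ i j : ℕ, i < j ∧ j < T ∧ Sep a a' i j ∧
      (∀ p : Fin (3 * T), ¬(2 ≤ p.val ∧ p.val < 3 * (T - 1) + 1) → a p = b p ∧ a' p = b p) ∧ F a = F a' := by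
  classical
  by_contra hcon
  have h2m : 1 ≤ 2 ^ m := Nat.one_le_two_pow
  -- projection to the class of b
  let pr : (Fin (3 * T) → Fin q) → (Fin (3 * T) → Fin q) := fun a p => if 2 ≤ p.val ∧ p.val < 3 * (T - 1) + 1 then a p else b p
  have hF : ∀ a a' : Fin (3 * T) → Fin q, ∀ i j : ℕ, i < j → j < T → Sep a a' i j → F (pr a) ≠ F (pr a') := by
    intro a a' i j h1 h2 h3 h4
    refine hcon ⟨pr a, pr a', i, j, h1, h2, ⟨?_, ?_⟩, ?_, h4⟩
    · intro p hp
      refine h3.1 p fun heq => hp ?_
      simp only [pr]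
      rw [heq]
    · intro p hp
      have h5 : 2 ≤ p.val ∧ p.val < 3 * (T - 1) + 1 := by
        unfold IsKey at hp
        omega
      simp only [pr]
      rw [if_pos h5, if_pos h5]
      exact h3.2 p hp
    · intro p hp
      simp only [pr]
      rw [if_neg hp, if_neg hp]
      exact ⟨rfl, rfl⟩
  haveI := Fintype.ofFinite X
  have h1 : ∀ x, (fib (fun a => F (pr a)) 2 (3 * (T - 1) + 1) b x).card * q ^ (m + 1) ≤ T ^ (m + 1) * q ^ (3 * (T - 1) + 1 - 2) := fun x =>
    fib_bound2 (fun a => F (pr a)) hq hF m 0 (T - 1) (by omega) (by omega) b x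
  have h2 : q ^ (3 * (T - 1) + 1 - 2) = ∑ x : X, (fib (fun a => F (pr a)) 2 (3 * (T - 1) + 1) b x).card := by
    have h3 := card_free (seg (3 * T) 2 (3 * (T - 1) + 1)) b
    rw [card_seg (by omega)] at h3
    rw [← h3]
    rw [card_eq_sum_card_fiberwise (f := fun a => F (pr a)) (t := univ) (fun a _ => by simp)]
    refine sum_congr rfl fun x _ => ?_
    congr 1
    ext a
    rw [fib, mem_filter, mem_filter, mem_filter]
    constructor
    · rintro ⟨⟨-, h⟩, h'⟩
      exact ⟨mem_univ _, h, h'⟩
    · rintro ⟨-, h, h'⟩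
      exact ⟨⟨mem_univ _, h⟩, h'⟩
  have h3 : q ^ (3 * (T - 1) + 1 - 2) * q ^ (m + 1) ≤ q ^ (3 * (T - 1) + 1 - 2) * (Nat.card X * T ^ (m + 1)) := by
    calc q ^ (3 * (T - 1) + 1 - 2) * q ^ (m + 1) = ∑ x : X, (fib (fun a => F (pr a)) 2 (3 * (T - 1) + 1) b x).card * q ^ (m + 1) := by
          rw [← sum_mul, ← h2]
      _ ≤ ∑ _x : X, T ^ (m + 1) * q ^ (3 * (T - 1) + 1 - 2) := sum_le_sum fun x _ => h1 x
      _ = q ^ (3 * (T - 1) + 1 - 2) * (Nat.card X * T ^ (m + 1)) := by
          rw [sum_const, card_univ, smul_eq_mul, Nat.card_eq_fintype_card]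
          ring
  have h4 := Nat.le_of_mul_le_mul_left h3 (Nat.pow_pos hq)
  omega

end Pool.Agent.Lib.MP_269084_lc
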