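import Pool.Agent.Lib.MP_269084_lc.Series
import Pool.Agent.Lib.MP_269084_lc.Words2
import Pool.Agent.Lib.MP_269084_lc.Decoys

/-!
# MP_269084 / Codes: the classes of the vertices of a block

Layer `t` of a block has the vertices `e < q^3`, with digits `x, z, y` in base `q`. The out-class of `e` is given by `e / q` (digits `x, z`), the in-class by `e % q^2` (digits `z, y`).
-/

set_option autoImplicit false

namespace Pool.Agent.Lib.MP_269084_lc

section

variable {T q : ℕ}

theorem one_add_ne (a : ℕ) : 1 + a ≠ 0 := by omega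

theorem enc_lt (x z y : Fin q) : x.val * q ^ 2 + z.val * q + y.val < q ^ 3 := by
  have hx : x.val + 1 ≤ q := x.isLt
  have hz : z.val + 1 ≤ q := z.isLt
  have hy := y.isLt
  have h1 : (x.val + 1) * q ^ 2 ≤ q * q ^ 2 := Nat.mul_le_mul_right _ hx
  have h2 : (z.val + 1) * q ≤ q * q := Nat.mul_le_mul_right _ hz
  have h3 : q * q ^ 2 = q ^ 3 := by ring
  have h4 : q * q = q ^ 2 := by ring
  rw [h3, Nat.add_mul, one_mul] at h1
  rw [h4, Nat.add_mul, one_mul] at h2
  omega

/-- the vertices given by the letters -/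
def enc (a : Fin (3 * T) → Fin q) (t : Fin T) : Fin (q ^ 3) :=
  ⟨(a ⟨3 * t.val, by have := t.isLt; omega⟩).val * q ^ 2 + (a ⟨3 * t.val + 1, by have := t.isLt; omega⟩).val * q +
    (a ⟨3 * t.val + 2, by have := t.isLt; omega⟩).val, enc_lt _ _ _⟩

theorem enc_div (hq : 0 < q) (a : Fin (3 * T) → Fin q) (t : Fin T) :
    (enc a t).val / q = (a ⟨3 * t.val, by have := t.isLt; omega⟩).val * q + (a ⟨3 * t.val + 1, by have := t.isLt; omega⟩).val := by
  unfold enc
  dsimp only
  have h1 : ∀ x z y : ℕ, x * q ^ 2 + z * q + y = q * (x * q + z) + y := fun x z y => by ring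
  rw [h1, Nat.mul_add_div hq, Nat.div_eq_of_lt (Fin.isLt _), add_zero]

theorem enc_mod (a : Fin (3 * T) → Fin q) (t : Fin T) :
    (enc a t).val % q ^ 2 = (a ⟨3 * t.val + 1, by have := t.isLt; omega⟩).val * q + (a ⟨3 * t.val + 2, by have := t.isLt; omega⟩).val := by
  unfold enc
  dsimp only
  have h1 : ∀ x z y : ℕ, x * q ^ 2 + z * q + y = q ^ 2 * x + (z * q + y) := fun x z y => by ring
  rw [h1, Nat.mul_add_mod]
  refine Nat.mod_eq_of_lt ?_
  have hz : (a ⟨3 * t.val + 1, by have := t.isLt; omega⟩).val + 1 ≤ q := Fin.isLt _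
  have hy : (a ⟨3 * t.val + 2, by have := t.isLt; omega⟩).val < q := Fin.isLt _
  have h2 := Nat.mul_le_mul_right q hz
  have h4 : q * q = q ^ 2 := by ring
  rw [h4, Nat.add_mul, one_mul] at h2
  omega

theorem enc_mid (hq : 0 < q) (a : Fin (3 * T) → Fin q) (t : Fin T) :
    (enc a t).val / q % q = (a ⟨3 * t.val + 1, by have := t.isLt; omega⟩).val := by
  rw [enc_div hq, add_comm, Nat.add_mul_mod_self_right, Nat.mod_eq_of_lt (Fin.isLt _)]

/-- the profile of two words of vertices -/
structure Prof (ε ε' : Fin T → Fin (q ^ 3)) (i j : ℕ) : Prop where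
  out : ∀ t : Fin T, t.val < i ∨ j < t.val → ε t = ε' t
  start : ∀ t : Fin T, t.val = i → (ε t).val / q = (ε' t).val / q ∧ (ε t).val % q ^ 2 ≠ (ε' t).val % q ^ 2
  mid : ∀ t : Fin T, i < t.val → t.val < j → (ε t).val / q % q ≠ (ε' t).val / q % q
  fin : ∀ t : Fin T, t.val = j → (ε t).val % q ^ 2 = (ε' t).val % q ^ 2 ∧ (ε t).val / q ≠ (ε' t).val / q

theorem two_digits {u v u' v' q : ℕ} (hv : v < q) (hv' : v' < q) (h : u * q + v = u' * q + v') : u = u' ∧ v = v' := by
  have h1 : (u * q + v) / q = (u' * q + v') / q := by rw [h]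
  have h2 : (u * q + v) % q = (u' * q + v') % q := by rw [h]
  rw [mul_comm u, mul_comm u', Nat.mul_add_div (by omega), Nat.mul_add_div (by omega), Nat.div_eq_of_lt hv, Nat.div_eq_of_lt hv'] at h1
  rw [mul_comm u, mul_comm u', Nat.mul_add_mod, Nat.mul_add_mod, Nat.mod_eq_of_lt hv, Nat.mod_eq_of_lt hv'] at h2
  exact ⟨by omega, h2⟩

theorem prof_of_sep (hq : 0 < q) {a a' : Fin (3 * T) → Fin q} {i j : ℕ} (hij : i < j) (h : Sep a a' i j) : Prof (enc a) (enc a') i j := by
  have heq : ∀ p : Fin (3 * T), ¬(3 * i + 2 ≤ p.val ∧ p.val < 3 * j + 1) → a p = a' p := by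
    intro p hp
    by_contra hne
    exact hp (h.1 p hne)
  refine ⟨?_, ?_, ?_, ?_⟩
  · intro t ht
    apply Fin.ext
    unfold enc
    dsimp only
    rw [heq ⟨3 * t.val, _⟩ (by dsimp only; omega), heq ⟨3 * t.val + 1, _⟩ (by dsimp only; omega), heq ⟨3 * t.val + 2, _⟩ (by dsimp only; omega)]
  · intro t ht
    rw [enc_div hq, enc_div hq, enc_mod, enc_mod, heq ⟨3 * t.val, _⟩ (by dsimp only; omega), heq ⟨3 * t.val + 1, _⟩ (by dsimp only; omega)]
    refine ⟨rfl, fun h1 => ?_⟩
    have h2 := (two_digits (Fin.isLt _) (Fin.isLt _) h1).2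
    exact h.2 ⟨3 * t.val + 2, by have := t.isLt; omega⟩ (by unfold IsKey; dsimp only; omega) (Fin.ext h2)
  · intro t ht1 ht2
    rw [enc_mid hq, enc_mid hq]
    intro h1
    exact h.2 ⟨3 * t.val + 1, by have := t.isLt; omega⟩ (by unfold IsKey; dsimp only; omega) (Fin.ext h1)
  · intro t ht
    rw [enc_div hq, enc_div hq, enc_mod, enc_mod, heq ⟨3 * t.val + 1, _⟩ (by dsimp only; omega), heq ⟨3 * t.val + 2, _⟩ (by dsimp only; omega)]
    refine ⟨rfl, fun h1 => ?_⟩
    have h2 := (two_digits (Fin.isLt _) (Fin.isLt _) h1).1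
    exact h.2 ⟨3 * t.val, by have := t.isLt; omega⟩ (by unfold IsKey; dsimp only; omega) (Fin.ext h2)

theorem mod_div_mid (d q : ℕ) : d % q ^ 2 / q = d / q % q := by
  rw [pow_two, Nat.mod_mul_right_div_self]

theorem Prof.ne {ε ε' : Fin T → Fin (q ^ 3)} {i j : ℕ} (h : Prof ε ε' i j) (t : Fin T) (h1 : i ≤ t.val) (h2 : t.val ≤ j) : ε t ≠ ε' t := by
  intro heq
  rcases h1.lt_or_eq with h3 | h3
  · rcases h2.lt_or_eq with h4 | h4
    · exact h.mid t h3 h4 (by rw [heq])
    · exact (h.fin t h4).2 (by rw [heq])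
  · exact (h.start t h3.symm).2 (by rw [heq])

theorem Prof.mod_ne {ε ε' : Fin T → Fin (q ^ 3)} {i j : ℕ} (h : Prof ε ε' i j) (t : Fin T) (h1 : i ≤ t.val) (h2 : t.val < j) :
    (ε t).val % q ^ 2 ≠ (ε' t).val % q ^ 2 := by
  rcases h1.lt_or_eq with h3 | h3
  · intro heq
    exact h.mid t h3 h2 (by rw [← mod_div_mid, ← mod_div_mid, heq])
  · exact (h.start t h3.symm).2

theorem Prof.div_ne {ε ε' : Fin T → Fin (q ^ 3)} {i j : ℕ} (h : Prof ε ε' i j) (t : Fin T) (h1 : i < t.val) (h2 : t.val ≤ j) :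
    (ε t).val / q ≠ (ε' t).val / q := by
  rcases h2.lt_or_eq with h3 | h3
  · intro heq
    exact h.mid t h1 h3 (by rw [heq])
  · exact (h.fin t h3).2

/-- code of the out-class -/
def oc (n T q : ℕ) (v : Fin (n + 1)) : Option (ℕ × ℕ) :=
  if v.val = n then none
  else some (v.val / (T * q ^ 3 + 1), if v.val % (T * q ^ 3 + 1) = 0 then 0 else 1 + (v.val % (T * q ^ 3 + 1) - 1) / q)

/-- code of the in-class -/
def ic (n T q : ℕ) (v : Fin (n + 1)) : Option (ℕ × ℕ × ℕ) :=
  if v.val = n then none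
  else some (v.val / (T * q ^ 3 + 1), (if v.val % (T * q ^ 3 + 1) = 0 then 0 else 1 + (v.val % (T * q ^ 3 + 1) - 1) / q ^ 3),
    (v.val % (T * q ^ 3 + 1) - 1) % q ^ 2)

variable {n k : ℕ}

theorem oc_pos (u v : Fin (n + 1)) (h : oc n T q u = oc n T q v) : posn n k T (q ^ 3) u = posn n k T (q ^ 3) v := by
  unfold oc at h
  unfold posn
  by_cases hu : u.val = n
  · by_cases hv : v.val = n
    · rw [if_pos hu, if_pos hv]
    · rw [if_pos hu, if_neg hv] at h
      exact absurd h (by simp)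
  · by_cases hv : v.val = n
    · rw [if_neg hu, if_pos hv] at h
      exact absurd h (by simp)
    · rw [if_neg hu, if_neg hv] at h
      rw [if_neg hu, if_neg hv]
      have h1 := congrArg Prod.fst (Option.some.inj h)
      have h2 := congrArg Prod.snd (Option.some.inj h)
      dsimp only at h1 h2
      rw [h1]
      congr 1
      have hdd : ∀ d : ℕ, d / q ^ 3 = d / q / q ^ 2 := fun d => by
        rw [Nat.div_div_eq_div_mul]
        congr 1
        ring
      split_ifs at h2 ⊢ with h3 h4 h4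
      · rfl
      · exact absurd h2.symm (one_add_ne _)
      · exact absurd h2 (one_add_ne _)
      · rw [hdd, hdd (v.val % (T * q ^ 3 + 1) - 1), Nat.add_left_cancel h2]

theorem ic_pos (u v : Fin (n + 1)) (h : ic n T q u = ic n T q v) : posn n k T (q ^ 3) u = posn n k T (q ^ 3) v := by
  unfold ic at h
  unfold posn
  by_cases hu : u.val = n
  · by_cases hv : v.val = n
    · rw [if_pos hu, if_pos hv]
    · rw [if_pos hu, if_neg hv] at h
      exact absurd h (by simp)
  · by_cases hv : v.val = n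
    · rw [if_neg hu, if_pos hv] at h
      exact absurd h (by simp)
    · rw [if_neg hu, if_neg hv] at h
      rw [if_neg hu, if_neg hv]
      have h1 := congrArg Prod.fst (Option.some.inj h)
      have h2 := congrArg (fun x => x.2.1) (Option.some.inj h)
      dsimp only at h1 h2
      rw [h1]
      congr 1
      split_ifs at h2 ⊢ with h3 h4 h4
      · rfl
      · exact absurd h2.symm (one_add_ne _)
      · exact absurd h2 (one_add_ne _)
      · rw [Nat.add_left_cancel h2]

theorem code_inj (u v : Fin (n + 1)) (h : oc n T q u = oc n T q v) (h' : ic n T q u = ic n T q v) : u = v := by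
  unfold oc at h
  unfold ic at h'
  apply Fin.ext
  by_cases hu : u.val = n
  · by_cases hv : v.val = n
    · rw [hu, hv]
    · rw [if_pos hu, if_neg hv] at h
      exact absurd h (by simp)
  · by_cases hv : v.val = n
    · rw [if_neg hu, if_pos hv] at h
      exact absurd h (by simp)
    · rw [if_neg hu, if_neg hv] at h h'
      have h1 := congrArg Prod.fst (Option.some.inj h)
      have h2 := congrArg Prod.snd (Option.some.inj h)
      have h3 := congrArg (fun x => x.2.2) (Option.some.inj h')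
      dsimp only at h1 h2 h3
      have h4 : u.val % (T * q ^ 3 + 1) = v.val % (T * q ^ 3 + 1) := by
        split_ifs at h2 with h5 h6 h6
        · rw [h5, h6]
        · exact absurd h2.symm (one_add_ne _)
        · exact absurd h2 (one_add_ne _)
        · have h7 := Nat.add_left_cancel h2
          have h8 : ∀ d : ℕ, d = q ^ 2 * (d / q / q) + d % q ^ 2 := fun d => by
            rw [Nat.div_div_eq_div_mul, ← pow_two]
            exact (Nat.div_add_mod d (q ^ 2)).symm
          have h9 := h8 (u.val % (T * q ^ 3 + 1) - 1)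
          rw [h7, h3, ← h8 (v.val % (T * q ^ 3 + 1) - 1)] at h9
          omega
      rw [← Nat.div_add_mod u.val (T * q ^ 3 + 1), ← Nat.div_add_mod v.val (T * q ^ 3 + 1), h1, h4]

end

section

variable {T q n k : ℕ}

theorem code_data (U : ℕ → Fin T → Fin (q ^ 3)) (hn : k * (T * q ^ 3 + 1) ≤ n) (c r : ℕ) (hr : r ≤ T) (hc : c < k) :
    (vtx n k U (c * (T + 1) + r)).val ≠ n ∧ (vtx n k U (c * (T + 1) + r)).val / (T * q ^ 3 + 1) = c ∧
      (vtx n k U (c * (T + 1) + r)).val % (T * q ^ 3 + 1) = off (U c) r := by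
  have hle : c * (T + 1) + r ≤ k * (T + 1) := by
    have h2 : (c + 1) * (T + 1) ≤ k * (T + 1) := Nat.mul_le_mul_right _ hc
    rw [Nat.succ_mul] at h2
    omega
  rw [vtx_val U hn _ hle]
  refine ⟨(num_lt U hn c r hr hc).ne, ?_⟩
  rw [num_block U c r hr hc]
  have h2 : off (U c) r < T * q ^ 3 + 1 := by
    have h3 := off_le (U c) r hr
    have h4 : r * q ^ 3 ≤ T * q ^ 3 := Nat.mul_le_mul_right _ hr
    omega
  constructor
  · rw [mul_comm, Nat.mul_add_div (Nat.succ_pos _), Nat.div_eq_of_lt h2, add_zero]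
  · rw [mul_comm, Nat.mul_add_mod, Nat.mod_eq_of_lt h2]

theorem oc_cut (U : ℕ → Fin T → Fin (q ^ 3)) (hn : k * (T * q ^ 3 + 1) ≤ n) (c : ℕ) (hc : c < k) :
    oc n T q (vtx n k U (c * (T + 1))) = some (c, 0) := by
  obtain ⟨h1, h2, h3⟩ := code_data U hn c 0 (Nat.zero_le _) hc
  rw [add_zero] at h1 h2 h3
  unfold oc
  rw [if_neg h1, h2, h3, off_zero, if_pos rfl]

theorem ic_cut (U : ℕ → Fin T → Fin (q ^ 3)) (hn : k * (T * q ^ 3 + 1) ≤ n) (c : ℕ) (hc : c < k) :
    ic n T q (vtx n k U (c * (T + 1))) = some (c, 0, 0) := by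
  obtain ⟨h1, h2, h3⟩ := code_data U hn c 0 (Nat.zero_le _) hc
  rw [add_zero] at h1 h2 h3
  unfold ic
  rw [if_neg h1, h2, h3, off_zero, if_pos rfl, Nat.zero_sub, Nat.zero_mod]

theorem oc_inner (U : ℕ → Fin T → Fin (q ^ 3)) (hn : k * (T * q ^ 3 + 1) ≤ n) (hq : 0 < q) (c t : ℕ) (ht : t < T) (hc : c < k) :
    oc n T q (vtx n k U (c * (T + 1) + (t + 1))) = some (c, 1 + (t * q ^ 2 + (U c ⟨t, ht⟩).val / q)) := by
  obtain ⟨h1, h2, h3⟩ := code_data U hn c (t + 1) ht hc
  unfold oc
  rw [if_neg h1, h2, h3, off_succ (U c) t ht, if_neg (by omega)]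
  have h4 : 1 + t * q ^ 3 + (U c ⟨t, ht⟩).val - 1 = q * (t * q ^ 2) + (U c ⟨t, ht⟩).val := by
    have h5 : q * (t * q ^ 2) = t * q ^ 3 := by ring
    rw [h5]
    omega
  rw [h4, Nat.mul_add_div hq]

theorem ic_inner (U : ℕ → Fin T → Fin (q ^ 3)) (hn : k * (T * q ^ 3 + 1) ≤ n) (hq : 0 < q) (c t : ℕ) (ht : t < T) (hc : c < k) :
    ic n T q (vtx n k U (c * (T + 1) + (t + 1))) = some (c, 1 + t, (U c ⟨t, ht⟩).val % q ^ 2) := by
  obtain ⟨h1, h2, h3⟩ := code_data U hn c (t + 1) ht hc
  unfold ic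
  rw [if_neg h1, h2, h3, off_succ (U c) t ht, if_neg (by omega)]
  have h4 : 1 + t * q ^ 3 + (U c ⟨t, ht⟩).val - 1 = q ^ 3 * t + (U c ⟨t, ht⟩).val := by
    have h5 : q ^ 3 * t = t * q ^ 3 := by ring
    rw [h5]
    omega
  have h6 : q ^ 3 * t + (U c ⟨t, ht⟩).val = q ^ 2 * (q * t) + (U c ⟨t, ht⟩).val := by ring
  have h7 : (q ^ 3 * t + (U c ⟨t, ht⟩).val) / q ^ 3 = t := by
    rw [Nat.mul_add_div (Nat.pow_pos hq), Nat.div_eq_of_lt (Fin.isLt _), add_zero]
  have h8 : (q ^ 3 * t + (U c ⟨t, ht⟩).val) % q ^ 2 = (U c ⟨t, ht⟩).val % q ^ 2 := by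
    rw [h6, Nat.mul_add_mod]
  rw [h4, h7, h8]

theorem vtx_inner_eq (U U' : ℕ → Fin T → Fin (q ^ 3)) (hn : k * (T * q ^ 3 + 1) ≤ n) (c t : ℕ) (ht : t < T) (hc : c < k) :
    vtx n k U (c * (T + 1) + (t + 1)) = vtx n k U' (c * (T + 1) + (t + 1)) ↔ U c ⟨t, ht⟩ = U' c ⟨t, ht⟩ := by
  have hle : c * (T + 1) + (t + 1) ≤ k * (T + 1) := by
    have h2 : (c + 1) * (T + 1) ≤ k * (T + 1) := Nat.mul_le_mul_right _ hc
    rw [Nat.succ_mul] at h2
    omega
  rw [Fin.ext_iff, vtx_val U hn _ hle, vtx_val U' hn _ hle, num_block U c (t + 1) ht hc, num_block U' c (t + 1) ht hc,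
    off_succ (U c) t ht, off_succ (U' c) t ht, Fin.ext_iff]
  omega

theorem vtx_cut_eq (U U' : ℕ → Fin T → Fin (q ^ 3)) (hn : k * (T * q ^ 3 + 1) ≤ n) (c : ℕ) (hc : c ≤ k) :
    vtx n k U (c * (T + 1)) = vtx n k U' (c * (T + 1)) := by
  apply Fin.ext
  rw [vtx_val U hn _ (Nat.mul_le_mul_right _ hc), vtx_val U' hn _ (Nat.mul_le_mul_right _ hc)]
  rcases hc.lt_or_eq with h | h
  · have h1 := num_block (n := n) U c 0 (Nat.zero_le _) h
    have h2 := num_block (n := n) U' c 0 (Nat.zero_le _) h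
    rw [add_zero, off_zero] at h1 h2
    rw [h1, h2]
  · rw [h, num_end, num_end]

/-- positions: cut vertices or inner vertices -/
theorem pos_cases (k T p : ℕ) (hp : p ≤ k * (T + 1)) :
    (∃ c, c ≤ k ∧ p = c * (T + 1)) ∨ ∃ c t, c < k ∧ t < T ∧ p = c * (T + 1) + (t + 1) := by
  rcases hp.lt_or_eq with h | h
  · obtain ⟨c, r, h1, hr, hc⟩ := pos_split (L := T) p h
    rcases r with _ | t
    · exact Or.inl ⟨c, hc.le, by rw [h1, add_zero]⟩
    · exact Or.inr ⟨c, t, hc, hr, h1⟩
  · exact Or.inl ⟨k, le_rfl, h⟩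

/-- the conditions hold for two families of words with profiles -/
theorem cond_of_prof (U U' : ℕ → Fin T → Fin (q ^ 3)) (hn : k * (T * q ^ 3 + 1) ≤ n) (hq : 0 < q)
    (hP : ∀ c, c < k → ∃ i j, i < j ∧ j < T ∧ Prof (U c) (U' c) i j) :
    Cond (vtx n k U) (vtx n k U') (oc n T q) (ic n T q) (posn n k T (q ^ 3)) (k * (T + 1)) where
  hX p hp := posn_vtx U hn (Nat.pow_pos hq) p hp
  hY p hp := posn_vtx U' hn (Nat.pow_pos hq) p hp
  hoc u v h := oc_pos u v h
  hic u v h := ic_pos u v h
  hinj u v h h' := code_inj u v h h'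
  hmix p hp v h1 h2 := by
    rcases pos_cases k T p hp with ⟨c, hc, rfl⟩ | ⟨c, t, hc, ht, rfl⟩
    · rw [vtx_cut_eq U' U hn c hc] at h2
      exact Or.inl (code_inj _ _ h1 h2)
    · obtain ⟨i, j, hij, hj, hprof⟩ := hP c hc
      by_cases ht1 : t < i ∨ j < t
      · have h3 := (vtx_inner_eq U U' hn c t ht hc).2 (hprof.out ⟨t, ht⟩ ht1)
        rw [← h3] at h2
        exact Or.inl (code_inj _ _ h1 h2)
      · by_cases hti : t = i
        · have h3 : oc n T q (vtx n k U (c * (T + 1) + (t + 1))) = oc n T q (vtx n k U' (c * (T + 1) + (t + 1))) := by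
            rw [oc_inner U hn hq c t ht hc, oc_inner U' hn hq c t ht hc, (hprof.start ⟨t, ht⟩ hti).1]
          exact Or.inr (code_inj _ _ (h1.trans h3) h2)
        · by_cases htj : t = j
          · have h3 : ic n T q (vtx n k U (c * (T + 1) + (t + 1))) = ic n T q (vtx n k U' (c * (T + 1) + (t + 1))) := by
              rw [ic_inner U hn hq c t ht hc, ic_inner U' hn hq c t ht hc, (hprof.fin ⟨t, ht⟩ htj).1]
            exact Or.inl (code_inj _ _ h1 (h2.trans h3.symm))
          · exfalso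
            have hmid := hprof.mid ⟨t, ht⟩ (by dsimp only; omega) (by dsimp only; omega)
            rw [oc_inner U hn hq c t ht hc] at h1
            rw [ic_inner U' hn hq c t ht hc] at h2
            unfold oc at h1
            unfold ic at h2
            by_cases hvn : v.val = n
            · rw [if_pos hvn] at h1
              exact absurd h1 (by simp)
            · rw [if_neg hvn] at h1 h2
              have h5 := congrArg Prod.snd (Option.some.inj h1)
              have h6 := congrArg (fun x => x.2.2) (Option.some.inj h2)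
              dsimp only at h5 h6
              split_ifs at h5 with h7
              · exact absurd h5.symm (one_add_ne _)
              · have h8 := Nat.add_left_cancel h5
                apply hmid
                rw [← mod_div_mid (U' c ⟨t, ht⟩).val q, ← h6, mod_div_mid, h8]
                have h9 : t * q ^ 2 + (U c ⟨t, ht⟩).val / q = q * (t * q) + (U c ⟨t, ht⟩).val / q := by ring
                rw [h9, Nat.mul_add_mod]
  hmix' p hp v h1 h2 := by
    rcases pos_cases k T p hp with ⟨c, hc, rfl⟩ | ⟨c, t, hc, ht, rfl⟩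
    · rw [vtx_cut_eq U' U hn c hc] at h1
      exact Or.inl (code_inj _ _ h1 h2)
    · obtain ⟨i, j, hij, hj, hprof⟩ := hP c hc
      by_cases ht1 : t < i ∨ j < t
      · have h3 := (vtx_inner_eq U U' hn c t ht hc).2 (hprof.out ⟨t, ht⟩ ht1)
        rw [← h3] at h1
        exact Or.inl (code_inj _ _ h1 h2)
      · by_cases hti : t = i
        · have h3 : oc n T q (vtx n k U (c * (T + 1) + (t + 1))) = oc n T q (vtx n k U' (c * (T + 1) + (t + 1))) := by
            rw [oc_inner U hn hq c t ht hc, oc_inner U' hn hq c t ht hc, (hprof.start ⟨t, ht⟩ hti).1]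
          exact Or.inl (code_inj _ _ (h1.trans h3.symm) h2)
        · by_cases htj : t = j
          · have h3 : ic n T q (vtx n k U (c * (T + 1) + (t + 1))) = ic n T q (vtx n k U' (c * (T + 1) + (t + 1))) := by
              rw [ic_inner U hn hq c t ht hc, ic_inner U' hn hq c t ht hc, (hprof.fin ⟨t, ht⟩ htj).1]
            exact Or.inr (code_inj _ _ h1 (h2.trans h3))
          · exfalso
            have hmid := hprof.mid ⟨t, ht⟩ (by dsimp only; omega) (by dsimp only; omega)
            rw [oc_inner U' hn hq c t ht hc] at h1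
            rw [ic_inner U hn hq c t ht hc] at h2
            unfold oc at h1
            unfold ic at h2
            by_cases hvn : v.val = n
            · rw [if_pos hvn] at h1
              exact absurd h1 (by simp)
            · rw [if_neg hvn] at h1 h2
              have h5 := congrArg Prod.snd (Option.some.inj h1)
              have h6 := congrArg (fun x => x.2.2) (Option.some.inj h2)
              dsimp only at h5 h6
              split_ifs at h5 with h7
              · exact absurd h5.symm (one_add_ne _)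
              · have h8 := Nat.add_left_cancel h5
                apply hmid
                rw [← mod_div_mid (U c ⟨t, ht⟩).val q, ← h6, mod_div_mid, h8]
                have h9 : t * q ^ 2 + (U' c ⟨t, ht⟩).val / q = q * (t * q) + (U' c ⟨t, ht⟩).val / q := by ring
                rw [h9, Nat.mul_add_mod]
  hcr p hp h1 h2 := by
    rcases pos_cases k T p hp.le with ⟨c, hc, rfl⟩ | ⟨c, t, hc, ht, rfl⟩
    · exact absurd (vtx_cut_eq U U' hn c hc) h1
    · by_cases ht1 : t + 1 < T
      · have e1 : c * (T + 1) + (t + 1) + 1 = c * (T + 1) + ((t + 1) + 1) := by ring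
        rw [e1] at h2 ⊢
        obtain ⟨i, j, hij, hj, hprof⟩ := hP c hc
        have h3 : ¬(t < i ∨ j < t) := fun h => h1 ((vtx_inner_eq U U' hn c t ht hc).2 (hprof.out ⟨t, ht⟩ h))
        have h4 : ¬(t + 1 < i ∨ j < t + 1) := fun h => h2 ((vtx_inner_eq U U' hn c (t + 1) ht1 hc).2 (hprof.out ⟨t + 1, ht1⟩ h))
        constructor
        · rw [oc_inner U hn hq c (t + 1) ht1 hc, oc_inner U' hn hq c (t + 1) ht1 hc]
          intro h5
          have h6 := congrArg Prod.snd (Option.some.inj h5)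
          dsimp only at h6
          exact hprof.div_ne ⟨t + 1, ht1⟩ (by dsimp only; omega) (by dsimp only; omega) (by omega)
        · rw [ic_inner U hn hq c t ht hc, ic_inner U' hn hq c t ht hc]
          intro h5
          have h6 := congrArg (fun x => x.2.2) (Option.some.inj h5)
          exact hprof.mod_ne ⟨t, ht⟩ (by dsimp only; omega) (by dsimp only; omega) h6
      · exfalso
        have e1 : c * (T + 1) + (t + 1) + 1 = (c + 1) * (T + 1) := by
          have : t + 1 = T := by omega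
          rw [this]
          ring
        rw [e1] at h2
        exact h2 (vtx_cut_eq U U' hn (c + 1) hc)
  hbr p hp h1 := by
    rcases pos_cases k T (p + 1) hp with ⟨c, hc, h2⟩ | ⟨c, t, hc, ht, h2⟩
    · rw [h2, vtx_cut_eq U U' hn c hc]
    · rw [h2]
      obtain ⟨i, j, hij, hj, hprof⟩ := hP c hc
      by_cases ht1 : t < i ∨ j < t
      · rw [(vtx_inner_eq U U' hn c t ht hc).2 (hprof.out ⟨t, ht⟩ ht1)]
      · by_cases hti : t = i
        · rw [oc_inner U hn hq c t ht hc, oc_inner U' hn hq c t ht hc, (hprof.start ⟨t, ht⟩ hti).1]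
        · exfalso
          obtain ⟨s, rfl⟩ : ∃ s, t = s + 1 := ⟨t - 1, by omega⟩
          have h3 : p = c * (T + 1) + (s + 1) := by omega
          rw [h3] at h1
          exact hprof.ne ⟨s, by omega⟩ (by dsimp only; omega) (by dsimp only; omega) ((vtx_inner_eq U U' hn c s (by omega) hc).1 h1)
  hmg p hp h1 := by
    rcases pos_cases k T p hp.le with ⟨c, hc, rfl⟩ | ⟨c, t, hc, ht, rfl⟩
    · rw [vtx_cut_eq U U' hn c hc]
    · obtain ⟨i, j, hij, hj, hprof⟩ := hP c hc
      by_cases ht1 : t < i ∨ j < t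
      · rw [(vtx_inner_eq U U' hn c t ht hc).2 (hprof.out ⟨t, ht⟩ ht1)]
      · by_cases htj : t = j
        · rw [ic_inner U hn hq c t ht hc, ic_inner U' hn hq c t ht hc, (hprof.fin ⟨t, ht⟩ htj).1]
        · exfalso
          have e1 : c * (T + 1) + (t + 1) + 1 = c * (T + 1) + ((t + 1) + 1) := by ring
          rw [e1] at h1
          exact hprof.ne ⟨t + 1, by omega⟩ (by dsimp only; omega) (by dsimp only; omega)
            ((vtx_inner_eq U U' hn c (t + 1) (by omega) hc).1 h1)

end

end Pool.Agent.Lib.MP_269084_lc
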