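import Pool.Agent.Lib.MP_269084_lc.Codes

/-!
# MP_269084 / Core2: the bad graph for labels which depend on neighbourhoods
-/

set_option autoImplicit false

namespace Pool.Agent.Lib.MP_269084_lc

section

variable {T q n k : ℕ}

/-- the first out-class and the last in-class are zero -/
def Bd (T q : ℕ) (ε : Fin T → Fin (q ^ 3)) : Prop :=
  (∀ t : Fin T, t.val = 0 → (ε t).val / q = 0) ∧ ∀ t : Fin T, t.val + 1 = T → (ε t).val % q ^ 2 = 0

theorem bd_enc (hq : 0 < q) (a : Fin (3 * T) → Fin q) (h : ∀ p : Fin (3 * T), ¬(2 ≤ p.val ∧ p.val < 3 * (T - 1) + 1) → a p = ⟨0, hq⟩) :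
    Bd T q (enc a) := by
  constructor
  · intro t ht
    rw [enc_div hq, h ⟨3 * t.val, _⟩ (by dsimp only; omega), h ⟨3 * t.val + 1, _⟩ (by dsimp only; omega)]
    simp
  · intro t ht
    rw [enc_mod, h ⟨3 * t.val + 1, _⟩ (by dsimp only; omega), h ⟨3 * t.val + 2, _⟩ (by dsimp only; omega)]
    simp

theorem vtx_block (U U' : ℕ → Fin T → Fin (q ^ 3)) (hn : k * (T * q ^ 3 + 1) ≤ n) (c : ℕ) (hc : c < k) (hU : U c = U' c) (p : ℕ)
    (h1 : c * (T + 1) ≤ p) (h2 : p ≤ c * (T + 1) + (T + 1)) : vtx n k U p = vtx n k U' p := by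
  rcases h2.lt_or_eq with h3 | h3
  · obtain ⟨r, rfl⟩ := Nat.exists_eq_add_of_le h1
    rcases r with _ | t
    · rw [add_zero]
      exact vtx_cut_eq U U' hn c hc.le
    · exact (vtx_inner_eq U U' hn c t (by omega) hc).2 (by rw [hU])
  · have h4 : p = (c + 1) * (T + 1) := by rw [h3]; ring
    rw [h4]
    exact vtx_cut_eq U U' hn (c + 1) hc

theorem cv_block (U U' : ℕ → Fin T → Fin (q ^ 3)) (hn : k * (T * q ^ 3 + 1) ≤ n) (hq : 0 < q) (hT : 0 < T)
    (hB : ∀ c, c < k → Bd T q (U c)) (hB' : ∀ c, c < k → Bd T q (U' c)) (c : ℕ) (hc : c < k) (hU : U c = U' c) (p : ℕ)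
    (h1 : c * (T + 1) ≤ p) (h2 : p ≤ c * (T + 1) + (T + 1)) :
    cv (vtx n k U) (oc n T q) (ic n T q) (k * (T + 1)) p = cv (vtx n k U') (oc n T q) (ic n T q) (k * (T + 1)) p := by
  have hin : ∀ p, c * (T + 1) ≤ p → p ≤ c * (T + 1) + (T + 1) → vtx n k U p = vtx n k U' p :=
    fun p h1 h2 => vtx_block U U' hn c hc hU p h1 h2
  unfold cv
  refine Prod.ext (hin p h1 h2) (Prod.ext ?_ ?_)
  · dsimp only
    split_ifs with h0
    · rfl
    · have h3 : ic n T q (vtx n k U (p - 1)) = ic n T q (vtx n k U' (p - 1)) := by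
        rcases h1.lt_or_eq with h4 | h4
        · rw [hin (p - 1) (by omega) (by omega)]
        · -- last layer of the previous block
          have hc0 : 0 < c := by
            rcases Nat.eq_zero_or_pos c with h5 | h5
            · rw [h5, zero_mul] at h4
              omega
            · exact h5
          obtain ⟨d, rfl⟩ : ∃ d, c = d + 1 := ⟨c - 1, by omega⟩
          have h5 : p - 1 = d * (T + 1) + ((T - 1) + 1) := by
            rw [← h4, Nat.sub_add_cancel hT, Nat.add_mul, one_mul]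
            omega
          rw [h5, ic_inner U hn hq d (T - 1) (by omega) (by omega), ic_inner U' hn hq d (T - 1) (by omega) (by omega),
            (hB d (by omega)).2 ⟨T - 1, by omega⟩ (by dsimp only; omega), (hB' d (by omega)).2 ⟨T - 1, by omega⟩ (by dsimp only; omega)]
      rw [h3]
  · dsimp only
    split_ifs with h0
    · rfl
    · have h3 : oc n T q (vtx n k U (p + 1)) = oc n T q (vtx n k U' (p + 1)) := by
        rcases h2.lt_or_eq with h4 | h4
        · rw [hin (p + 1) (by omega) (by omega)]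
        · -- first layer of the next block
          have h5 : p = (c + 1) * (T + 1) := by rw [h4]; ring
          have hc1 : c + 1 < k := by
            rcases (Nat.succ_le_of_lt hc).lt_or_eq with h6 | h6
            · exact h6
            · exfalso
              apply h0
              rw [h5]
              have h7 : c + 1 = k := h6
              rw [h7]
          have h6 : p + 1 = (c + 1) * (T + 1) + (0 + 1) := by rw [h5]
          rw [h6, oc_inner U hn hq (c + 1) 0 hT hc1, oc_inner U' hn hq (c + 1) 0 hT hc1,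
            (hB (c + 1) hc1).1 ⟨0, hT⟩ rfl, (hB' (c + 1) hc1).1 ⟨0, hT⟩ rfl]
      rw [h3]

theorem posn_mono (u v : Fin (n + 1)) (hu : u.val ≠ n) (hv : v.val ≠ n) (h : v.val ≤ u.val) (hq : 0 < q) :
    posn n k T (q ^ 3) v ≤ posn n k T (q ^ 3) u := by
  unfold posn
  rw [if_neg hu, if_neg hv]
  have hQ : 0 < q ^ 3 := Nat.pow_pos hq
  have hin : ∀ d : ℕ, d < T * q ^ 3 + 1 → (if d = 0 then 0 else (d - 1) / q ^ 3 + 1) ≤ T := by
    intro d hd
    split_ifs with h0
    · exact Nat.zero_le _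
    · have h1 : (d - 1) / q ^ 3 < T := (Nat.div_lt_iff_lt_mul hQ).2 (by omega)
      omega
  have hdiv : v.val / (T * q ^ 3 + 1) ≤ u.val / (T * q ^ 3 + 1) := Nat.div_le_div_right h
  rcases hdiv.lt_or_eq with h1 | h1
  · have h2 := hin (v.val % (T * q ^ 3 + 1)) (Nat.mod_lt _ (Nat.succ_pos _))
    have h3 : (v.val / (T * q ^ 3 + 1) + 1) * (T + 1) ≤ u.val / (T * q ^ 3 + 1) * (T + 1) := Nat.mul_le_mul_right _ h1
    rw [Nat.add_mul, one_mul] at h3
    omega
  · have h2 : v.val % (T * q ^ 3 + 1) ≤ u.val % (T * q ^ 3 + 1) := by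
      have h3 := Nat.div_add_mod v.val (T * q ^ 3 + 1)
      have h4 := Nat.div_add_mod u.val (T * q ^ 3 + 1)
      rw [h1] at h3
      omega
    rw [h1]
    refine Nat.add_le_add_left ?_ _
    split_ifs with h3 h4 h4
    · exact le_rfl
    · exact Nat.zero_le _
    · omega
    · have h5 : (v.val % (T * q ^ 3 + 1) - 1) / q ^ 3 ≤ (u.val % (T * q ^ 3 + 1) - 1) / q ^ 3 := Nat.div_le_div_right (by omega)
      omega

theorem GD_lt (U U' : ℕ → Fin T → Fin (q ^ 3)) (hn : k * (T * q ^ 3 + 1) ≤ n) (hq : 0 < q)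
    (hcond : Cond (vtx n k U) (vtx n k U') (oc n T q) (ic n T q) (posn n k T (q ^ 3)) (k * (T + 1))) {u v : Fin (n + 1)}
    (h : GD (vtx n k U) (vtx n k U') (oc n T q) (ic n T q) (k * (T + 1)) u v) : u < v := by
  obtain ⟨p, hp, hp1, hp2, -⟩ := hcond.edge_pos h
  have hn' : ∀ w : Fin (n + 1), w.val = n → posn n k T (q ^ 3) w = k * (T + 1) := fun w hw => by
    unfold posn
    rw [if_pos hw]
  have hu : u.val ≠ n := fun h1 => by
    rw [hn' u h1] at hp1
    omega
  rw [Fin.lt_def]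
  by_cases hv : v.val = n
  · have := u.isLt
    omega
  · by_contra hcon
    have := posn_mono (k := k) (T := T) u v hu hv (by omega) hq
    omega

/-- the vertex at a position lies in a window of length `q ^ 3` -/
theorem posn_window (hq : 0 < q) (hnk : n = k * (T * q ^ 3 + 1)) (w : Fin (n + 1)) :
    w.val ≤ posn n k T (q ^ 3) w / (T + 1) * (T * q ^ 3 + 1) + posn n k T (q ^ 3) w % (T + 1) * q ^ 3 ∧
      posn n k T (q ^ 3) w / (T + 1) * (T * q ^ 3 + 1) + posn n k T (q ^ 3) w % (T + 1) * q ^ 3 ≤ w.val + q ^ 3 := by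
  have hQ : 0 < q ^ 3 := Nat.pow_pos hq
  by_cases hw : w.val = n
  · have h1 : posn n k T (q ^ 3) w = k * (T + 1) := by
      unfold posn
      rw [if_pos hw]
    rw [h1, Nat.mul_div_cancel _ (Nat.succ_pos T), Nat.mul_mod_left, zero_mul, add_zero, hw, ← hnk]
    omega
  · obtain ⟨c, hc⟩ : ∃ c, c = w.val / (T * q ^ 3 + 1) := ⟨_, rfl⟩
    obtain ⟨d, hd⟩ : ∃ d, d = w.val % (T * q ^ 3 + 1) := ⟨_, rfl⟩
    have hwcd : w.val = c * (T * q ^ 3 + 1) + d := by
      rw [hc, hd, mul_comm]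
      exact (Nat.div_add_mod _ _).symm
    have hdlt : d < T * q ^ 3 + 1 := by
      rw [hd]
      exact Nat.mod_lt _ (Nat.succ_pos _)
    obtain ⟨r, hr⟩ : ∃ r, r = if d = 0 then 0 else (d - 1) / q ^ 3 + 1 := ⟨_, rfl⟩
    have hrT : r ≤ T := by
      rw [hr]
      split_ifs with h0
      · exact Nat.zero_le _
      · have h1 : (d - 1) / q ^ 3 < T := (Nat.div_lt_iff_lt_mul hQ).2 (by omega)
        omega
    have hpos : posn n k T (q ^ 3) w = (T + 1) * c + r := by
      unfold posn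
      rw [if_neg hw, ← hc, ← hd, ← hr, mul_comm]
    have h1 : posn n k T (q ^ 3) w / (T + 1) = c := by
      rw [hpos, Nat.mul_add_div (Nat.succ_pos T), Nat.div_eq_of_lt (by omega), add_zero]
    have h2 : posn n k T (q ^ 3) w % (T + 1) = r := by
      rw [hpos, Nat.mul_add_mod, Nat.mod_eq_of_lt (by omega)]
    rw [h1, h2, hwcd]
    have h3 : d ≤ r * q ^ 3 ∧ r * q ^ 3 ≤ d + q ^ 3 := by
      rw [hr]
      split_ifs with h0
      · rw [h0, zero_mul]
        omega
      · have h4 := Nat.div_add_mod (d - 1) (q ^ 3)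
        have h5 := Nat.mod_lt (d - 1) hQ
        have h6 : ((d - 1) / q ^ 3 + 1) * q ^ 3 = q ^ 3 * ((d - 1) / q ^ 3) + q ^ 3 := by ring
        rw [h6]
        generalize q ^ 3 * ((d - 1) / q ^ 3) = x at h4 ⊢
        generalize (d - 1) % q ^ 3 = y at h4 h5
        omega
    omega

theorem GD_span (U U' : ℕ → Fin T → Fin (q ^ 3)) (hnk : n = k * (T * q ^ 3 + 1)) (hq : 0 < q)
    (hcond : Cond (vtx n k U) (vtx n k U') (oc n T q) (ic n T q) (posn n k T (q ^ 3)) (k * (T + 1))) {u v : Fin (n + 1)}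
    (h : GD (vtx n k U) (vtx n k U') (oc n T q) (ic n T q) (k * (T + 1)) u v) : v.val ≤ u.val + 2 * q ^ 3 := by
  have hQ : 0 < q ^ 3 := Nat.pow_pos hq
  have h1 := (posn_window (T := T) hq hnk v).1
  have h2 := (posn_window (T := T) hq hnk u).2
  have h3 := hcond.pos_succ h
  rw [h3] at h1
  obtain ⟨P, hP⟩ : ∃ P, P = posn n k T (q ^ 3) u := ⟨_, rfl⟩
  rw [← hP] at h1 h2
  have h4 := Nat.div_add_mod P (T + 1)
  obtain ⟨c, hc⟩ : ∃ c, c = P / (T + 1) := ⟨_, rfl⟩
  obtain ⟨r, hr⟩ : ∃ r, r = P % (T + 1) := ⟨_, rfl⟩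
  have hrlt : r < T + 1 := by
    rw [hr]
    exact Nat.mod_lt _ (Nat.succ_pos T)
  rw [← hc, ← hr] at h2 h4
  have hstep : (P + 1) / (T + 1) * (T * q ^ 3 + 1) + (P + 1) % (T + 1) * q ^ 3 ≤ c * (T * q ^ 3 + 1) + r * q ^ 3 + q ^ 3 := by
    rcases Nat.eq_or_lt_of_le (Nat.lt_succ_iff.1 hrlt) with h5 | h5
    · have h6 : P + 1 = (T + 1) * (c + 1) := by
        rw [← h4, h5]
        ring
      rw [h6, Nat.mul_div_cancel_left _ (Nat.succ_pos T), Nat.mul_mod_right, zero_mul, add_zero, h5]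
      have h7 : (c + 1) * (T * q ^ 3 + 1) = c * (T * q ^ 3 + 1) + T * q ^ 3 + 1 := by ring
      rw [h7]
      omega
    · have h6 : P + 1 = (T + 1) * c + (r + 1) := by
        rw [← h4]
        ring
      have h8 : (P + 1) / (T + 1) = c := by
        rw [h6, Nat.mul_add_div (Nat.succ_pos T), Nat.div_eq_of_lt (by omega), add_zero]
      have h9 : (P + 1) % (T + 1) = r + 1 := by
        rw [h6, Nat.mul_add_mod, Nat.mod_eq_of_lt (by omega)]
      rw [h8, h9, Nat.add_mul r, one_mul]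
      omega
  omega

end

/-- the bad graph -/
theorem core2 (n k T q m : ℕ) (hk : 0 < k) (hq : 0 < q) (hn : k * (T * q ^ 3 + 1) ≤ n) (hm : 2 ^ m + 1 ≤ T) (M : Fin k → Type)
    [∀ i, Monoid (M i)] [∀ i, Finite (M i)] (hM : ∀ i, Nat.card (M i) * T ^ (m + 1) < q ^ (m + 1))
    (w : ∀ i, Fin (n + 1) × Set (Fin (n + 1)) × Set (Fin (n + 1)) → Fin (n + 1) × Set (Fin (n + 1)) × Set (Fin (n + 1)) → M i) :
    ∃ G : Fin (n + 1) → Fin (n + 1) → Prop, (∀ u v, G u v → u < v) ∧ (∃ layer : Fin (n + 1) → ℕ, ∀ u v, G u v → layer v = layer u + 1) ∧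
      (n = k * (T * q ^ 3 + 1) → ∀ u v, G u v → v.val ≤ u.val + 2 * q ^ 3) ∧ (∃ l, IsPath G 0 (Fin.last n) l) ∧
      ∀ i x, Even {l | IsPath G 0 (Fin.last n) l ∧ label (fun u v => w i (view G u) (view G v)) l = x}.ncard := by
  have h2m : 1 ≤ 2 ^ m := Nat.one_le_two_pow
  have hT : 0 < T := by omega
  have hch := fun i : Fin k => exists_sep
    (F := fun a : Fin (3 * T) → Fin q => cz (w i) (vtx n k fun _ => enc a) (oc n T q) (ic n T q) (k * (T + 1)) (i.val * (T + 1)) (T + 1))
    (fun _ => ⟨0, hq⟩) hq m hm (hM i)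
  choose a a' s t hst ht hsep hbd heq using hch
  let U : ℕ → Fin T → Fin (q ^ 3) := fun c => if h : c < k then enc (a ⟨c, h⟩) else enc fun _ => ⟨0, hq⟩
  let U' : ℕ → Fin T → Fin (q ^ 3) := fun c => if h : c < k then enc (a' ⟨c, h⟩) else enc fun _ => ⟨0, hq⟩
  have hUi : ∀ i : Fin k, U i.val = enc (a i) := fun i => dif_pos i.isLt
  have hUi' : ∀ i : Fin k, U' i.val = enc (a' i) := fun i => dif_pos i.isLt
  have hB : ∀ c, c < k → Bd T q (U c) := fun c hc => by
    rw [hUi ⟨c, hc⟩]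
    exact bd_enc hq _ fun p hp => (hbd ⟨c, hc⟩ p hp).1
  have hB' : ∀ c, c < k → Bd T q (U' c) := fun c hc => by
    rw [hUi' ⟨c, hc⟩]
    exact bd_enc hq _ fun p hp => (hbd ⟨c, hc⟩ p hp).2
  have hprof : ∀ i : Fin k, Prof (U i.val) (U' i.val) (s i) (t i) := fun i => by
    rw [hUi, hUi']
    exact prof_of_sep hq (hst i) (hsep i)
  have hcond := cond_of_prof U U' hn hq fun c hc => ⟨s ⟨c, hc⟩, t ⟨c, hc⟩, hst ⟨c, hc⟩, ht ⟨c, hc⟩, hprof ⟨c, hc⟩⟩
  have h00 : vtx n k U 0 = vtx n k U' 0 := by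
    have h1 := vtx_cut_eq U U' hn 0 (Nat.zero_le _)
    rwa [zero_mul] at h1
  have h0 : vtx n k U 0 = 0 := by
    apply Fin.ext
    rw [vtx_val U hn 0 (Nat.zero_le _)]
    have h1 := num_block (n := n) U 0 0 (Nat.zero_le _) hk
    rw [zero_mul, zero_add, zero_mul, off_zero] at h1
    rw [h1]
    rfl
  have hlast : vtx n k U (k * (T + 1)) = Fin.last n := by
    apply Fin.ext
    rw [vtx_val U hn _ le_rfl, num_end]
    rfl
  refine ⟨GD (vtx n k U) (vtx n k U') (oc n T q) (ic n T q) (k * (T + 1)), fun u v h => GD_lt U U' hn hq hcond h,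
    ⟨posn n k T (q ^ 3), fun u v h => hcond.pos_succ h⟩, fun hnk u v h => GD_span U U' hnk hq hcond h, ?_, ?_⟩
  · refine ⟨(List.range' 0 (k * (T + 1) + 1)).map (vtx n k U), ?_⟩
    rw [← h0, ← hlast]
    exact (hcond.path_iff h00 _).2 isPath_X
  · intro i x
    have hiK : (i.val + 1) * (T + 1) ≤ k * (T + 1) := Nat.mul_le_mul_right _ i.isLt
    have hβ' : (i.val + 1) * (T + 1) = i.val * (T + 1) + (T + 1) := by ring
    have hw : pz (fun u v => w i (view (GD (vtx n k U) (vtx n k U') (oc n T q) (ic n T q) (k * (T + 1))) u)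
          (view (GD (vtx n k U) (vtx n k U') (oc n T q) (ic n T q) (k * (T + 1))) v)) (vtx n k U) (i.val * (T + 1))
          ((i.val + 1) * (T + 1) - i.val * (T + 1)) =
        pz (fun u v => w i (view (GD (vtx n k U) (vtx n k U') (oc n T q) (ic n T q) (k * (T + 1))) u)
          (view (GD (vtx n k U) (vtx n k U') (oc n T q) (ic n T q) (k * (T + 1))) v)) (vtx n k U') (i.val * (T + 1))
          ((i.val + 1) * (T + 1) - i.val * (T + 1)) := by
      rw [hβ', Nat.add_sub_cancel_left, hcond.pz_X (w i) _ _ (by omega), hcond.pz_Y (w i) _ _ (by omega)]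
      rw [cz_congr (w i) (vtx n k U) (vtx n k fun _ => enc (a i)) _ _ (cv_block U (fun _ => enc (a i)) hn hq hT hB
          (fun c _ => by rw [← hUi]; exact hB _ i.isLt) i.val i.isLt (hUi i)),
        cz_congr (w i) (vtx n k U') (vtx n k fun _ => enc (a' i)) _ _ (cv_block U' (fun _ => enc (a' i)) hn hq hT hB'
          (fun c _ => by rw [← hUi']; exact hB' _ i.isLt) i.val i.isLt (hUi' i))]
      exact heq i
    have hd : ∀ p, i.val * (T + 1) ≤ p → p ≤ (i.val + 1) * (T + 1) →
        (vtx n k U p ≠ vtx n k U' p ↔ i.val * (T + 1) + s i + 1 ≤ p ∧ p < i.val * (T + 1) + t i + 2) := by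
      intro p h1 h2
      have hti := ht i
      have hsti := hst i
      rcases h2.lt_or_eq with h3 | h3
      · obtain ⟨r, rfl⟩ := Nat.exists_eq_add_of_le h1
        rcases r with _ | r
        · rw [add_zero]
          constructor
          · intro h
            exact absurd (vtx_cut_eq U U' hn i.val i.isLt.le) h
          · intro h
            omega
        · have hr : r < T := by omega
          rw [Ne, vtx_inner_eq U U' hn i.val r hr i.isLt]
          constructor
          · intro h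
            by_contra hcon
            exact h ((hprof i).out ⟨r, hr⟩ (by dsimp only; omega))
          · intro h
            exact (hprof i).ne ⟨r, hr⟩ (by dsimp only; omega) (by dsimp only; omega)
      · rw [h3]
        constructor
        · intro h
          exact absurd (vtx_cut_eq U U' hn (i.val + 1) i.isLt) h
        · intro h
          omega
    have hst' := hst i
    have ht' := ht i
    have hmain := even_paths (X := vtx n k U) (Y := vtx n k U') (pos := posn n k T (q ^ 3)) (K := k * (T + 1))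
      (α := i.val * (T + 1)) (β := (i.val + 1) * (T + 1)) hcond.hX hcond.hY (vtx_cut_eq U U' hn i.val i.isLt.le)
      (vtx_cut_eq U U' hn (i.val + 1) i.isLt) hiK
      (i := i.val * (T + 1) + s i + 1) (j := i.val * (T + 1) + t i + 2) (by omega) (by omega) (by omega) hd _ hw x
    have hset : {l | IsPath (GD (vtx n k U) (vtx n k U') (oc n T q) (ic n T q) (k * (T + 1))) 0 (Fin.last n) l ∧
          label (fun u v => w i (view (GD (vtx n k U) (vtx n k U') (oc n T q) (ic n T q) (k * (T + 1))) u)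
          (view (GD (vtx n k U) (vtx n k U') (oc n T q) (ic n T q) (k * (T + 1))) v)) l = x} =
        {l | IsPath (GG (vtx n k U) (vtx n k U') (k * (T + 1))) (vtx n k U 0) (vtx n k U (k * (T + 1))) l ∧
          label (fun u v => w i (view (GD (vtx n k U) (vtx n k U') (oc n T q) (ic n T q) (k * (T + 1))) u)
          (view (GD (vtx n k U) (vtx n k U') (oc n T q) (ic n T q) (k * (T + 1))) v)) l = x} := by
      ext l
      rw [Set.mem_setOf_eq, Set.mem_setOf_eq, ← hcond.path_iff h00 l, h0, hlast]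
    rw [hset]
    exact hmain

end Pool.Agent.Lib.MP_269084_lc
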