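import Mathlib

/-!
# MP_269084 / Defs: directed paths and labels of paths
-/

set_option autoImplicit false

namespace Pool.Agent.Lib.MP_269084_lc

/-- `l` is the list of the vertices of a directed path from `s` to `t` in the digraph `G`. -/
def IsPath {V : Type} (G : V → V → Prop) (s t : V) (l : List V) : Prop :=
  l.IsChain G ∧ l.head? = some s ∧ l.getLast? = some t

/-- The label of a path: the product of the labels of its edges, in the order of the path. -/
def label {V M : Type} [Monoid M] (w : V → V → M) : List V → M
  | u :: v :: l => w u v * label w (v :: l)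
  | _ => 1

/-- The digraph `G` on `0, ..., n` has increasing edges, is layered, and every vertex has at most two out-neighbours and at most two in-neighbours. -/
def Thin {n : ℕ} (G : Fin (n + 1) → Fin (n + 1) → Prop) : Prop :=
  (∀ u v, G u v → u < v) ∧ (∃ layer : Fin (n + 1) → ℕ, ∀ u v, G u v → layer v = layer u + 1) ∧
    (∀ u, {v | G u v}.ncard ≤ 2) ∧ ∀ v, {u | G u v}.ncard ≤ 2

end Pool.Agent.Lib.MP_269084_lc
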