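import Pool.Agent.Lib.MP_269084_lc.Core2

/-!
# MP_269084 / Walker: two paths which look the same to a walker with few memory states
-/

set_option autoImplicit false

namespace Pool.Agent.Lib.MP_269084_lc

/-- one block: a graph with exactly two paths, with the same value of a function of the sequence of the views -/
theorem core3 (n T q m : ℕ) (hq : 0 < q) (hn : T * q ^ 3 + 1 ≤ n) (hm : 2 ^ m + 1 ≤ T) {X : Type} [Finite X]
    (hX : Nat.card X * T ^ (m + 1) < q ^ (m + 1)) (Λ : List (Fin (n + 1) × Set (Fin (n + 1)) × Set (Fin (n + 1))) → X) :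
    ∃ G : Fin (n + 1) → Fin (n + 1) → Prop, (∀ u v, G u v → u < v) ∧ (∃ layer : Fin (n + 1) → ℕ, ∀ u v, G u v → layer v = layer u + 1) ∧
      (n = T * q ^ 3 + 1 → ∀ u v, G u v → v.val ≤ u.val + 2 * q ^ 3) ∧ ∃ l l' : List (Fin (n + 1)), l ≠ l' ∧ (∀ l'', IsPath G 0 (Fin.last n) l'' ↔ l'' = l ∨ l'' = l') ∧
        Λ (l.map (view G)) = Λ (l'.map (view G)) := by
  have h2m : 1 ≤ 2 ^ m := Nat.one_le_two_pow
  have hT : 0 < T := by omega
  have hn1 : 1 * (T * q ^ 3 + 1) ≤ n := by rwa [one_mul]
  obtain ⟨a, a', s, t, hst, ht, hsep, -, heq⟩ := exists_sep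
    (F := fun a : Fin (3 * T) → Fin q => Λ ((List.range' 0 (1 * (T + 1) + 1)).map
      (cv (vtx n 1 fun _ => enc a) (oc n T q) (ic n T q) (1 * (T + 1)))))
    (fun _ => ⟨0, hq⟩) hq m hm hX
  have hprof := prof_of_sep hq hst hsep
  have hcond := cond_of_prof (fun _ => enc a) (fun _ => enc a') hn1 hq fun c _ => ⟨s, t, hst, ht, hprof⟩
  have hcut := fun c hc => vtx_cut_eq (fun _ => enc a) (fun _ => enc a') hn1 c hc
  have h00 : vtx n 1 (fun _ => enc a) 0 = vtx n 1 (fun _ => enc a') 0 := by
    have h1 := hcut 0 (Nat.zero_le _)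
    rwa [zero_mul] at h1
  have h0 : vtx n 1 (fun _ => enc a) 0 = 0 := by
    apply Fin.ext
    rw [vtx_val (fun _ => enc a) hn1 0 (Nat.zero_le _)]
    have h1 := num_block (n := n) (k := 1) (fun _ => enc a) 0 0 (Nat.zero_le _) Nat.one_pos
    rw [zero_mul, zero_add, zero_mul, off_zero] at h1
    rw [h1]
    rfl
  have hlast : vtx n 1 (fun _ => enc a) (1 * (T + 1)) = Fin.last n := by
    apply Fin.ext
    rw [vtx_val (fun _ => enc a) hn1 _ le_rfl, num_end]
    rfl
  have hlast' := hcut 1 le_rfl
  have hd : ∀ p, 0 ≤ p → p ≤ 1 * (T + 1) →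
      (vtx n 1 (fun _ => enc a) p ≠ vtx n 1 (fun _ => enc a') p ↔ s + 1 ≤ p ∧ p < t + 2) := by
    intro p _ h2
    rcases pos_cases 1 T p h2 with ⟨c, hc, rfl⟩ | ⟨c, r, hc, hr, rfl⟩
    · constructor
      · intro h
        exact absurd (hcut c hc) h
      · intro h
        exfalso
        rcases Nat.eq_zero_or_pos c with h3 | h3
        · rw [h3, zero_mul] at h
          omega
        · have h4 : c = 1 := by omega
          rw [h4, one_mul] at h
          omega
    · have hc0 : c = 0 := by omega
      subst hc0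
      rw [Ne, vtx_inner_eq (fun _ => enc a) (fun _ => enc a') hn1 0 r hr hc]
      constructor
      · intro h
        by_contra hcon
        exact h (hprof.out ⟨r, hr⟩ (by dsimp only; omega))
      · intro h
        exact hprof.ne ⟨r, hr⟩ (by dsimp only; omega) (by dsimp only; omega)
  have hs1 : s + 1 ≤ 1 * (T + 1) := by omega
  have hne := (hd (s + 1) (Nat.zero_le _) hs1).2 ⟨le_rfl, by omega⟩
  refine ⟨GD (vtx n 1 fun _ => enc a) (vtx n 1 fun _ => enc a') (oc n T q) (ic n T q) (1 * (T + 1)),
    fun u v h => GD_lt (fun _ => enc a) (fun _ => enc a') hn1 hq hcond h, ⟨posn n 1 T (q ^ 3), fun u v h => hcond.pos_succ h⟩,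
    fun hnk u v h => GD_span (fun _ => enc a) (fun _ => enc a') (by rw [one_mul]; exact hnk) hq hcond h,
    (List.range' 0 (1 * (T + 1) + 1)).map (vtx n 1 fun _ => enc a), (List.range' 0 (1 * (T + 1) + 1)).map (vtx n 1 fun _ => enc a'),
    ?_, ?_, ?_⟩
  · intro h
    have h1 := List.map_inj_left.1 h (s + 1) (by rw [List.mem_range']; exact ⟨s + 1, by omega, by omega⟩)
    exact hne h1
  · intro l''
    rw [← h0, ← hlast, hcond.path_iff h00]
    constructor
    · intro hl
      obtain ⟨z, hlz, -, -, hz⟩ := path_fun hcond.hX hcond.hY (hcond.hX 0 (Nat.zero_le _)) (hcond.hX _ le_rfl) hl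
      have hzi : z (s + 1) = vtx n 1 (fun _ => enc a) (s + 1) ∨ z (s + 1) = vtx n 1 (fun _ => enc a') (s + 1) := by
        rcases hz s (by omega) with h | h
        · exact Or.inl h.2
        · exact Or.inr h.2
      rcases hzi with hzi | hzi
      · left
        have h1 := block_route hz le_rfl (Nat.succ_pos s) (by omega : s + 1 < t + 2) (by omega) hd hlast' hzi
        rw [hlz]
        refine List.map_congr_left fun p hp => h1 p (Nat.zero_le _) ?_
        rw [List.mem_range'] at hp
        obtain ⟨i, hi, rfl⟩ := hp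
        omega
      · right
        have h1 := block_route (X := vtx n 1 fun _ => enc a') (Y := vtx n 1 fun _ => enc a) (fun p hp => (hz p hp).symm) le_rfl
          (Nat.succ_pos s) (by omega : s + 1 < t + 2) (by omega) (fun p h1 h2 => by rw [ne_comm]; exact hd p h1 h2) hlast'.symm hzi
        rw [hlz]
        refine List.map_congr_left fun p hp => h1 p (Nat.zero_le _) ?_
        rw [List.mem_range'] at hp
        obtain ⟨i, hi, rfl⟩ := hp
        omega
    · rintro (rfl | rfl)
      · exact isPath_X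
      · have h1 := isPath_X (X := vtx n 1 fun _ => enc a') (Y := vtx n 1 fun _ => enc a) (K := 1 * (T + 1))
        have h2 : GG (vtx n 1 fun _ => enc a') (vtx n 1 fun _ => enc a) (1 * (T + 1)) =
            GG (vtx n 1 fun _ => enc a) (vtx n 1 fun _ => enc a') (1 * (T + 1)) := by
          funext u v
          apply propext
          constructor
          · rintro ⟨p, hp, h | h⟩
            · exact ⟨p, hp, Or.inr h⟩
            · exact ⟨p, hp, Or.inl h⟩
          · rintro ⟨p, hp, h | h⟩
            · exact ⟨p, hp, Or.inr h⟩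
            · exact ⟨p, hp, Or.inl h⟩
        rw [h2, ← h00, ← hlast'] at h1
        exact h1
  · have e1 : ((List.range' 0 (1 * (T + 1) + 1)).map (vtx n 1 fun _ => enc a)).map
        (view (GD (vtx n 1 fun _ => enc a) (vtx n 1 fun _ => enc a') (oc n T q) (ic n T q) (1 * (T + 1)))) =
        (List.range' 0 (1 * (T + 1) + 1)).map (cv (vtx n 1 fun _ => enc a) (oc n T q) (ic n T q) (1 * (T + 1))) := by
      rw [List.map_map]
      refine List.map_congr_left fun p hp => ?_
      rw [List.mem_range'] at hp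
      obtain ⟨i, hi, rfl⟩ := hp
      exact hcond.view_X (by omega)
    have e2 : ((List.range' 0 (1 * (T + 1) + 1)).map (vtx n 1 fun _ => enc a')).map
        (view (GD (vtx n 1 fun _ => enc a) (vtx n 1 fun _ => enc a') (oc n T q) (ic n T q) (1 * (T + 1)))) =
        (List.range' 0 (1 * (T + 1) + 1)).map (cv (vtx n 1 fun _ => enc a') (oc n T q) (ic n T q) (1 * (T + 1))) := by
      rw [List.map_map]
      refine List.map_congr_left fun p hp => ?_
      rw [List.mem_range'] at hp
      obtain ⟨i, hi, rfl⟩ := hp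
      exact hcond.view_Y (by omega)
    rw [e1, e2]
    exact heq

end Pool.Agent.Lib.MP_269084_lc
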