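import Pool.Agent.Lib.MP_269084_lc.Sub
import Pool.Agent.Lib.MP_269084_lc.Walker

/-!
# MP_269084 / Embed: the subdivided graph on 0, ..., n

The edges `a b` of `G` satisfy `a < b ≤ a + S`. The old vertex `a` gets the number `a D`, `D = S R + 1` (the last one gets `n`), the new vertices on the edges `a b` get numbers between `a D` and `(a + 1) D`.
-/

set_option autoImplicit false

namespace Pool.Agent.Lib.MP_269084_lc

section

variable {n n0 S R : ℕ}

/-- number of a vertex of the subdivided graph -/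
def vv (n n0 S R : ℕ) : Fin (n0 + 1) ⊕ (Fin (n0 + 1) × Fin (n0 + 1) × Fin R) → ℕ
  | Sum.inl u => if u.val = n0 then n else u.val * (S * R + 1)
  | Sum.inr (a, b, j) => a.val * (S * R + 1) + (1 + ((b.val - a.val - 1) * R + j.val))

/-- the vertices in use -/
def Used (n0 S R : ℕ) : Set (Fin (n0 + 1) ⊕ (Fin (n0 + 1) × Fin (n0 + 1) × Fin R)) :=
  {w | Sum.casesOn w (fun _ => True) fun p => p.1.val < p.2.1.val ∧ p.2.1.val ≤ p.1.val + S}

theorem used_inl (u : Fin (n0 + 1)) : (Sum.inl u : Fin (n0 + 1) ⊕ (Fin (n0 + 1) × Fin (n0 + 1) × Fin R)) ∈ Used n0 S R := trivial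

theorem used_inr {a b : Fin (n0 + 1)} {j : Fin R} : (Sum.inr (a, b, j) : Fin (n0 + 1) ⊕ (Fin (n0 + 1) × Fin (n0 + 1) × Fin R)) ∈ Used n0 S R ↔
    a.val < b.val ∧ b.val ≤ a.val + S := Iff.rfl

theorem inner_lt (a b : Fin (n0 + 1)) (j : Fin R) (h1 : a.val < b.val) (h2 : b.val ≤ a.val + S) :
    1 + ((b.val - a.val - 1) * R + j.val) < S * R + 1 := by
  have h3 : (b.val - a.val - 1 + 1) * R ≤ S * R := Nat.mul_le_mul_right _ (by omega)
  rw [Nat.add_mul, one_mul] at h3
  have := j.isLt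
  omega

theorem vv_lt (hn : (n0 + 1) * (S * R + 1) ≤ n) (a b : Fin (n0 + 1)) (j : Fin R) (h1 : a.val < b.val) (h2 : b.val ≤ a.val + S) :
    vv n n0 S R (Sum.inr (a, b, j)) < n := by
  have h3 : (a.val + 1) * (S * R + 1) ≤ (n0 + 1) * (S * R + 1) := Nat.mul_le_mul_right _ a.isLt
  rw [Nat.add_mul, one_mul] at h3
  have h4 := inner_lt a b j h1 h2
  show a.val * (S * R + 1) + (1 + ((b.val - a.val - 1) * R + j.val)) < n
  omega

theorem vv_lt' (hn : (n0 + 1) * (S * R + 1) ≤ n) (u : Fin (n0 + 1)) (hu : u.val ≠ n0) : vv n n0 S R (Sum.inl u) < n := by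
  have h1 : (u.val + 1) * (S * R + 1) ≤ (n0 + 1) * (S * R + 1) := Nat.mul_le_mul_right _ u.isLt
  rw [Nat.add_mul, one_mul] at h1
  show (if u.val = n0 then n else u.val * (S * R + 1)) < n
  rw [if_neg hu]
  omega

theorem vv_last (u : Fin (n0 + 1)) (hu : u.val = n0) : vv n n0 S R (Sum.inl u) = n := if_pos hu

theorem vv_inl (u : Fin (n0 + 1)) (hu : u.val ≠ n0) : vv n n0 S R (Sum.inl u) = u.val * (S * R + 1) := if_neg hu

/-- the vertex in 0, ..., n -/
def emb (n n0 S R : ℕ) (w : Fin (n0 + 1) ⊕ (Fin (n0 + 1) × Fin (n0 + 1) × Fin R)) : Fin (n + 1) :=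
  ⟨min (vv n n0 S R w) n, Nat.lt_succ_of_le (min_le_right _ _)⟩

theorem emb_val (hn : (n0 + 1) * (S * R + 1) ≤ n) (w : Fin (n0 + 1) ⊕ (Fin (n0 + 1) × Fin (n0 + 1) × Fin R)) (hw : w ∈ Used n0 S R) :
    (emb n n0 S R w).val = vv n n0 S R w := by
  refine min_eq_left ?_
  rcases w with u | ⟨a, b, j⟩
  · by_cases hu : u.val = n0
    · exact (vv_last u hu).le
    · exact (vv_lt' hn u hu).le
  · exact (vv_lt hn a b j (used_inr.1 hw).1 (used_inr.1 hw).2).le

theorem emb_inj (hn : (n0 + 1) * (S * R + 1) ≤ n) : Set.InjOn (emb n n0 S R) (Used n0 S R) := by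
  intro w hw w' hw' h
  have h1 := congrArg Fin.val h
  rw [emb_val hn w hw, emb_val hn w' hw'] at h1
  have hD : 0 < S * R + 1 := Nat.succ_pos _
  rcases w with u | ⟨a, b, j⟩ <;> rcases w' with u' | ⟨a', b', j'⟩
  · congr 1
    apply Fin.ext
    by_cases hu : u.val = n0
    · by_cases hu' : u'.val = n0
      · rw [hu, hu']
      · have h2 := vv_lt' hn u' hu'
        rw [vv_last u hu] at h1
        omega
    · by_cases hu' : u'.val = n0
      · have h2 := vv_lt' hn u hu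
        rw [vv_last u' hu'] at h1
        omega
      · rw [vv_inl u hu, vv_inl u' hu'] at h1
        exact Nat.eq_of_mul_eq_mul_right hD h1
  · exfalso
    rw [used_inr] at hw'
    by_cases hu : u.val = n0
    · have h2 := vv_lt hn a' b' j' hw'.1 hw'.2
      rw [vv_last u hu] at h1
      omega
    · rw [vv_inl u hu] at h1
      have h3 : u.val * (S * R + 1) + 0 = a'.val * (S * R + 1) + (1 + ((b'.val - a'.val - 1) * R + j'.val)) := h1
      have h4 := (two_digits hD (inner_lt a' b' j' hw'.1 hw'.2) h3).2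
      omega
  · exfalso
    rw [used_inr] at hw
    by_cases hu : u'.val = n0
    · have h2 := vv_lt hn a b j hw.1 hw.2
      rw [vv_last u' hu] at h1
      omega
    · rw [vv_inl u' hu] at h1
      have h3 : a.val * (S * R + 1) + (1 + ((b.val - a.val - 1) * R + j.val)) = u'.val * (S * R + 1) + 0 := h1
      have h4 := (two_digits (inner_lt a b j hw.1 hw.2) hD h3).2
      omega
  · rw [used_inr] at hw hw'
    have h3 : a.val * (S * R + 1) + (1 + ((b.val - a.val - 1) * R + j.val)) =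
        a'.val * (S * R + 1) + (1 + ((b'.val - a'.val - 1) * R + j'.val)) := h1
    obtain ⟨h4, h5⟩ := two_digits (inner_lt a b j hw.1 hw.2) (inner_lt a' b' j' hw'.1 hw'.2) h3
    obtain ⟨h6, h7⟩ := two_digits j.isLt j'.isLt (Nat.add_left_cancel h5)
    have h8 : b.val = b'.val := by omega
    rw [Fin.ext h4, Fin.ext h8, Fin.ext h7]

theorem emb_first (hn0 : 0 < n0) : emb n n0 S R (Sum.inl 0) = 0 := by
  apply Fin.ext
  show min (vv n n0 S R (Sum.inl 0)) n = 0
  rw [vv_inl 0 (by rw [Fin.val_zero]; omega), Fin.val_zero, zero_mul, Nat.zero_min]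

theorem emb_last : emb n n0 S R (Sum.inl (Fin.last n0)) = Fin.last n := by
  apply Fin.ext
  show min (vv n n0 S R (Sum.inl (Fin.last n0))) n = n
  rw [vv_last _ (Fin.val_last n0), min_self]

/-- the edges are short and increasing -/
def Short (S : ℕ) (G : Fin (n0 + 1) → Fin (n0 + 1) → Prop) : Prop := ∀ u v, G u v → u.val < v.val ∧ v.val ≤ u.val + S

variable {G : Fin (n0 + 1) → Fin (n0 + 1) → Prop}

theorem sub_used (hG : Short S G) (x y : Fin (n0 + 1) ⊕ (Fin (n0 + 1) × Fin (n0 + 1) × Fin R)) (h : sub G R x y) :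
    x ∈ Used n0 S R ∧ y ∈ Used n0 S R := by
  rcases x with u | ⟨a, b, j⟩ <;> rcases y with u' | ⟨a', b', j'⟩
  · exact absurd h (fun h => h)
  · obtain ⟨rfl, h1, h2⟩ := h
    exact ⟨used_inl _, hG _ _ h1⟩
  · obtain ⟨rfl, h1, h2⟩ := h
    exact ⟨hG _ _ h1, used_inl _⟩
  · obtain ⟨rfl, rfl, h1, h2⟩ := h
    exact ⟨hG _ _ h1, hG _ _ h1⟩

theorem tr_lt (hn : (n0 + 1) * (S * R + 1) ≤ n) (hG : Short S G) {x y : Fin (n + 1)}
    (h : tr (emb n n0 S R) (sub G R) x y) : x < y := by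
  obtain ⟨w, w', rfl, rfl, h⟩ := h
  obtain ⟨hw, hw'⟩ := sub_used hG _ _ h
  rw [Fin.lt_def, emb_val hn w hw, emb_val hn w' hw']
  rcases w with u | ⟨a, b, j⟩ <;> rcases w' with u' | ⟨a', b', j'⟩
  · exact absurd h (fun h => h)
  · obtain ⟨rfl, h1, h2⟩ := h
    have h3 := (hG _ _ h1).1
    have h4 := b'.isLt
    rw [vv_inl u (by omega)]
    show u.val * (S * R + 1) < u.val * (S * R + 1) + (1 + ((b'.val - u.val - 1) * R + j'.val))
    omega
  · obtain ⟨rfl, h1, h2⟩ := h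
    have h3 := (hG _ _ h1).1
    by_cases hu : u'.val = n0
    · rw [vv_last u' hu]
      exact vv_lt hn a u' j h3 (hG _ _ h1).2
    · rw [vv_inl u' hu]
      have h4 : (a.val + 1) * (S * R + 1) ≤ u'.val * (S * R + 1) := Nat.mul_le_mul_right _ h3
      rw [Nat.add_mul, one_mul] at h4
      have h5 := inner_lt a u' j h3 (hG _ _ h1).2
      show a.val * (S * R + 1) + (1 + ((u'.val - a.val - 1) * R + j.val)) < u'.val * (S * R + 1)
      omega
  · obtain ⟨rfl, rfl, h1, h2⟩ := h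
    show a.val * (S * R + 1) + (1 + ((b.val - a.val - 1) * R + j.val)) < a.val * (S * R + 1) + (1 + ((b.val - a.val - 1) * R + j'.val))
    omega

/-- layers of the subdivided graph -/
theorem tr_layer (hn : (n0 + 1) * (S * R + 1) ≤ n) (hG : Short S G) (layer : Fin (n0 + 1) → ℕ)
    (hl : ∀ u v, G u v → layer v = layer u + 1) :
    ∃ layer' : Fin (n + 1) → ℕ, ∀ x y, tr (emb n n0 S R) (sub G R) x y → layer' y = layer' x + 1 := by
  classical
  let lay : Fin (n0 + 1) ⊕ (Fin (n0 + 1) × Fin (n0 + 1) × Fin R) → ℕ := fun w =>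
    Sum.casesOn w (fun u => layer u * (R + 1)) (fun p => layer p.1 * (R + 1) + (p.2.2.val + 1))
  refine ⟨fun x => if h : ∃ w ∈ Used n0 S R, emb n n0 S R w = x then lay h.choose else 0, ?_⟩
  have hlay : ∀ w ∈ Used n0 S R, (if h : ∃ w' ∈ Used n0 S R, emb n n0 S R w' = emb n n0 S R w then lay h.choose else 0) = lay w := by
    intro w hw
    have hex : ∃ w' ∈ Used n0 S R, emb n n0 S R w' = emb n n0 S R w := ⟨w, hw, rfl⟩
    rw [dif_pos hex, emb_inj hn hex.choose_spec.1 hw hex.choose_spec.2]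
  rintro x y ⟨w, w', rfl, rfl, h⟩
  obtain ⟨hw, hw'⟩ := sub_used hG _ _ h
  dsimp only
  rw [hlay w hw, hlay w' hw']
  rcases w with u | ⟨a, b, j⟩ <;> rcases w' with u' | ⟨a', b', j'⟩
  · exact absurd h (fun h => h)
  · obtain ⟨rfl, h1, h2⟩ := h
    show layer u * (R + 1) + (j'.val + 1) = layer u * (R + 1) + 1
    rw [h2]
  · obtain ⟨rfl, h1, h2⟩ := h
    show layer u' * (R + 1) = layer a * (R + 1) + (j.val + 1) + 1
    rw [hl _ _ h1, h2]
    ring
  · obtain ⟨rfl, rfl, h1, h2⟩ := h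
    show layer a * (R + 1) + (j'.val + 1) = layer a * (R + 1) + (j.val + 1) + 1
    rw [h2]
    ring

theorem path_embed (hn : (n0 + 1) * (S * R + 1) ≤ n) (hG : Short S G) (hn0 : 0 < n0) (hR : 0 < R) {L : List (Fin (n + 1))} :
    IsPath (tr (emb n n0 S R) (sub G R)) 0 (Fin.last n) L ↔
      ∃ l, IsPath G 0 (Fin.last n0) l ∧ L = (subl R l).map (emb n n0 S R) := by
  rw [← emb_first (n := n) (S := S) (R := R) hn0, ← emb_last (n := n) (n0 := n0) (S := S) (R := R),
    isPath_tr (emb_inj hn) (sub_used hG) (used_inl _) (used_inl _)]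
  constructor
  · rintro ⟨l, h1, rfl⟩
    obtain ⟨l', h2, rfl⟩ := (isPath_sub hR).1 h1
    exact ⟨l', h2, rfl⟩
  · rintro ⟨l, h1, rfl⟩
    exact ⟨subl R l, (isPath_sub hR).2 ⟨l, h1, rfl⟩, rfl⟩

/-- the vertices of a subdivided path are in use -/
theorem subl_used (hG : Short S G) (hR : 0 < R) {l : List (Fin (n0 + 1))} (hl : l.IsChain G) :
    ∀ w ∈ subl R l, w ∈ Used n0 S R := by
  induction l with
  | nil => intro w hw; simp [subl] at hw
  | cons u l ih =>
    intro w hw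
    rcases l with _ | ⟨v, l⟩
    · rw [subl, List.mem_singleton] at hw
      rw [hw]
      exact used_inl _
    · rw [List.isChain_cons_cons] at hl
      rw [subl, List.mem_cons, List.mem_append] at hw
      rcases hw with hw | hw | hw
      · rw [hw]
        exact used_inl _
      · obtain ⟨i, hi⟩ := tail_mem hw
        rw [hi]
        exact hG _ _ hl.1
      · exact ih hl.2 w hw

theorem map_injOn {α β : Type} {f : α → β} {U : Set α} (hf : Set.InjOn f U) : ∀ {l l' : List α}, (∀ x ∈ l, x ∈ U) → (∀ x ∈ l', x ∈ U) →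
    l.map f = l'.map f → l = l'
  | [], [], _, _, _ => rfl
  | [], _ :: _, _, _, h => by simp at h
  | _ :: _, [], _, _, h => by simp at h
  | a :: l, b :: l', h1, h2, h => by
    rw [List.map_cons, List.map_cons, List.cons.injEq] at h
    rw [hf (h1 a (by simp)) (h2 b (by simp)) h.1,
      map_injOn hf (fun x hx => h1 x (List.mem_cons_of_mem _ hx)) (fun x hx => h2 x (List.mem_cons_of_mem _ hx)) h.2]

theorem embed_inj (hn : (n0 + 1) * (S * R + 1) ≤ n) (hG : Short S G) (hR : 0 < R) {l l' : List (Fin (n0 + 1))} (hl : l.IsChain G)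
    (hl' : l'.IsChain G) (h : (subl R l).map (emb n n0 S R) = (subl R l').map (emb n n0 S R)) : l = l' :=
  subl_inj (map_injOn (emb_inj hn) (subl_used hG hR hl) (subl_used hG hR hl') h)

/-- what is seen in the subdivided graph depends only on the views -/
theorem ball_embed (hn : (n0 + 1) * (S * R + 1) ≤ n) (hG : Short S G) {G' : Fin (n0 + 1) → Fin (n0 + 1) → Prop} (hG' : Short S G')
    (A : Fin (n0 + 1) → Prop) (hA : ∀ a, A a → view G a = view G' a) (w : Fin (n0 + 1) ⊕ (Fin (n0 + 1) × Fin (n0 + 1) × Fin R))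
    (hw : fd A R w = 0) (hwU : w ∈ Used n0 S R) (r : ℕ) (hr : r ≤ R) :
    ball (tr (emb n n0 S R) (sub G R)) r (emb n n0 S R w) = ball (tr (emb n n0 S R) (sub G' R)) r (emb n n0 S R w) := by
  rw [ball_tr (emb_inj hn) (sub_used hG) r w hwU, ball_tr (emb_inj hn) (sub_used hG') r w hwU, ball_sub A hA w hw r hr]

end

/-- two paths which look the same with sight `r ≤ R` -/
theorem core4 (n n0 r R T q m : ℕ) (hR : 0 < R) (hr : r ≤ R) (hq : 0 < q) (hn0 : n0 = T * q ^ 3 + 1)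
    (hn : (n0 + 1) * (2 * q ^ 3 * R + 1) ≤ n) (hm : 2 ^ m + 1 ≤ T) {X : Type} [Finite X] (hX : Nat.card X * T ^ (m + 1) < q ^ (m + 1))
    (Λ : List (Fin (n + 1) × Set (Fin (n + 1) × Fin (n + 1))) → X) :
    ∃ G : Fin (n + 1) → Fin (n + 1) → Prop, (∀ u v, G u v → u < v) ∧ (∃ layer : Fin (n + 1) → ℕ, ∀ u v, G u v → layer v = layer u + 1) ∧
      ∃ l l' : List (Fin (n + 1)), l ≠ l' ∧ (∀ l'', IsPath G 0 (Fin.last n) l'' ↔ l'' = l ∨ l'' = l') ∧
        Λ (l.map (ball G r)) = Λ (l'.map (ball G r)) := by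
  classical
  let Θ : (Fin (n0 + 1) → Fin (n0 + 1) → Prop) → List (Fin (n0 + 1)) → X := fun G l =>
    Λ (((subl R l).map (emb n n0 (2 * q ^ 3) R)).map (ball (tr (emb n n0 (2 * q ^ 3) R) (sub G R)) r))
  let Λ0 : List (Fin (n0 + 1) × Set (Fin (n0 + 1)) × Set (Fin (n0 + 1))) → X := fun L =>
    if h : ∃ p : (Fin (n0 + 1) → Fin (n0 + 1) → Prop) × List (Fin (n0 + 1)), Short (2 * q ^ 3) p.1 ∧ L = p.2.map (view p.1) then
      Θ h.choose.1 h.choose.2 else Λ []
  have hΛ0 : ∀ G, Short (2 * q ^ 3) G → ∀ l, l.IsChain G → Λ0 (l.map (view G)) = Θ G l := by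
    intro G hG l hl
    have hex : ∃ p : (Fin (n0 + 1) → Fin (n0 + 1) → Prop) × List (Fin (n0 + 1)), Short (2 * q ^ 3) p.1 ∧ l.map (view G) = p.2.map (view p.1) :=
      ⟨(G, l), hG, rfl⟩
    have h1 : Λ0 (l.map (view G)) = Θ hex.choose.1 hex.choose.2 := dif_pos hex
    rw [h1]
    obtain ⟨hS, h2⟩ := hex.choose_spec
    have h3 : l = hex.choose.2 := by
      have h4 := congrArg (List.map Prod.fst) h2
      rw [List.map_map, List.map_map] at h4
      have h5 : ∀ (G : Fin (n0 + 1) → Fin (n0 + 1) → Prop) (l : List (Fin (n0 + 1))), l.map (Prod.fst ∘ view G) = l := fun G l => by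
        conv_rhs => rw [← List.map_id l]
        rfl
      rwa [h5, h5] at h4
    rw [← h3] at h2 ⊢
    have h6 : ∀ a, a ∈ l → view G a = view hex.choose.1 a := fun a ha => List.map_inj_left.1 h2 a ha
    show Λ (((subl R l).map (emb n n0 (2 * q ^ 3) R)).map (ball (tr (emb n n0 (2 * q ^ 3) R) (sub hex.choose.1 R)) r)) =
      Λ (((subl R l).map (emb n n0 (2 * q ^ 3) R)).map (ball (tr (emb n n0 (2 * q ^ 3) R) (sub G R)) r))
    congr 1
    rw [List.map_map, List.map_map]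
    refine List.map_congr_left fun w hw => ?_
    exact (ball_embed hn hG hS (fun a => a ∈ l) h6 w (fd_subl hw) (subl_used hG hR hl w hw) r hr).symm
  obtain ⟨G, hG1, ⟨layer, hG2⟩, hG3, l, l', hne, hpaths, heq⟩ := core3 n0 T q m hq hn0.ge hm hX Λ0
  have hG : Short (2 * q ^ 3) G := fun u v h => ⟨hG1 u v h, hG3 hn0 u v h⟩
  have hl := ((hpaths l).2 (Or.inl rfl))
  have hl' := ((hpaths l').2 (Or.inr rfl))
  rw [hΛ0 G hG l hl.1, hΛ0 G hG l' hl'.1] at heq
  refine ⟨tr (emb n n0 (2 * q ^ 3) R) (sub G R), fun u v h => tr_lt hn hG h, tr_layer hn hG layer hG2,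
    (subl R l).map (emb n n0 (2 * q ^ 3) R), (subl R l').map (emb n n0 (2 * q ^ 3) R), fun h => hne (embed_inj hn hG hR hl.1 hl'.1 h), ?_, heq⟩
  intro l''
  rw [path_embed hn hG (by omega) hR]
  constructor
  · rintro ⟨l0, h1, rfl⟩
    rcases (hpaths l0).1 h1 with rfl | rfl
    · exact Or.inl rfl
    · exact Or.inr rfl
  · rintro (rfl | rfl)
    · exact ⟨l, hl, rfl⟩
    · exact ⟨l', hl', rfl⟩

end Pool.Agent.Lib.MP_269084_lc
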