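import Pool.Agent.Lib.MP_269084_lc.Embed

/-!
# MP_269084 / Family: families of labellings with sight `r`
-/

set_option autoImplicit false

namespace Pool.Agent.Lib.MP_269084_lc

section

variable {V W M : Type} [Monoid M]

theorem label_append (w : V → V → M) (A : List V) (x : V) (B : List V) : label w (A ++ x :: B) = label w (A ++ [x]) * label w (x :: B) := by
  induction A with
  | nil =>
    rw [List.nil_append, List.nil_append]
    show label w (x :: B) = 1 * label w (x :: B)
    rw [one_mul]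
  | cons a A ih =>
    rcases A with _ | ⟨a', A⟩
    · show w a x * label w (x :: B) = w a x * 1 * label w (x :: B)
      rw [mul_one]
    · have h1 : label w (a :: a' :: A ++ x :: B) = w a a' * label w (a' :: A ++ x :: B) := rfl
      have h2 : label w (a :: a' :: A ++ [x]) = w a a' * label w (a' :: A ++ [x]) := rfl
      rw [h1, h2, ih, mul_assoc]

theorem label_map (w : V → V → M) (f : W → V) (l : List W) : label w (l.map f) = label (fun a b => w (f a) (f b)) l := by
  induction l with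
  | nil => rfl
  | cons a l ih =>
    rcases l with _ | ⟨b, l⟩
    · rfl
    · have h1 : label w ((a :: b :: l).map f) = w (f a) (f b) * label w ((b :: l).map f) := rfl
      rw [h1, ih]
      rfl

theorem label_congr (w w' : V → V → M) (l : List V) (h : ∀ x ∈ l, ∀ y ∈ l, w x y = w' x y) : label w l = label w' l := by
  induction l with
  | nil => rfl
  | cons a l ih =>
    rcases l with _ | ⟨b, l⟩
    · rfl
    · have h1 : label w (a :: b :: l) = w a b * label w (b :: l) := rfl
      have h2 : label w' (a :: b :: l) = w' a b * label w' (b :: l) := rfl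
      rw [h1, h2, h a (by simp) b (by simp), ih fun x hx y hy => h x (List.mem_cons_of_mem _ hx) y (List.mem_cons_of_mem _ hy)]

theorem label_congr_chain (w w' : V → V → M) (G : V → V → Prop) (h : ∀ x y, G x y → w x y = w' x y) (l : List V) (hl : l.IsChain G) :
    label w l = label w' l := by
  induction l with
  | nil => rfl
  | cons a l ih =>
    rcases l with _ | ⟨b, l⟩
    · rfl
    · rw [List.isChain_cons_cons] at hl
      have h1 : label w (a :: b :: l) = w a b * label w (b :: l) := rfl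
      have h2 : label w' (a :: b :: l) = w' a b * label w' (b :: l) := rfl
      rw [h1, h2, h a b hl.1, ih hl.2]

/-- the label of a subdivided path -/
theorem label_subl {R : ℕ} (w : V ⊕ (V × V × Fin R) → V ⊕ (V × V × Fin R) → M) (l : List V) :
    label w (subl R l) = label (fun u v => label w ((Sum.inl u :: tail R u v 0) ++ [Sum.inl v])) l := by
  induction l with
  | nil => rfl
  | cons u l ih =>
    rcases l with _ | ⟨v, l⟩
    · rfl
    · obtain ⟨X, hX⟩ := subl_cons_head (R := R) v l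
      have h1 : label (fun u v => label w ((Sum.inl u :: tail R u v 0) ++ [Sum.inl v])) (u :: v :: l) =
          label w ((Sum.inl u :: tail R u v 0) ++ [Sum.inl v]) * label (fun u v => label w ((Sum.inl u :: tail R u v 0) ++ [Sum.inl v])) (v :: l) := rfl
      rw [h1, ← ih, hX, ← label_append]
      rw [subl, hX]
      rfl

end

/-- the bad graph for families of labellings with sight `r ≤ R` -/
theorem core5 (n n0 k r R T q m : ℕ) (hk : 0 < k) (hR : 0 < R) (hr : r ≤ R) (hq : 0 < q) (hn0 : n0 = k * (T * q ^ 3 + 1))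
    (hn : (n0 + 1) * (2 * q ^ 3 * R + 1) ≤ n) (hm : 2 ^ m + 1 ≤ T) (M : Fin k → Type) [∀ i, Monoid (M i)] [∀ i, Finite (M i)]
    (hM : ∀ i, Nat.card (M i) * T ^ (m + 1) < q ^ (m + 1))
    (w : ∀ i, Fin (n + 1) × Set (Fin (n + 1) × Fin (n + 1)) → Fin (n + 1) × Set (Fin (n + 1) × Fin (n + 1)) → M i) :
    ∃ G : Fin (n + 1) → Fin (n + 1) → Prop, (∀ u v, G u v → u < v) ∧ (∃ layer : Fin (n + 1) → ℕ, ∀ u v, G u v → layer v = layer u + 1) ∧
      (∃ l, IsPath G 0 (Fin.last n) l) ∧
      ∀ i x, Even {l | IsPath G 0 (Fin.last n) l ∧ label (fun u v => w i (ball G r u) (ball G r v)) l = x}.ncard := by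
  classical
  let wt : ∀ i, (Fin (n0 + 1) → Fin (n0 + 1) → Prop) → Fin (n0 + 1) ⊕ (Fin (n0 + 1) × Fin (n0 + 1) × Fin R) →
      Fin (n0 + 1) ⊕ (Fin (n0 + 1) × Fin (n0 + 1) × Fin R) → M i := fun i G x y =>
    w i (ball (tr (emb n n0 (2 * q ^ 3) R) (sub G R)) r (emb n n0 (2 * q ^ 3) R x))
      (ball (tr (emb n n0 (2 * q ^ 3) R) (sub G R)) r (emb n n0 (2 * q ^ 3) R y))
  let SL : ∀ i, (Fin (n0 + 1) → Fin (n0 + 1) → Prop) → Fin (n0 + 1) → Fin (n0 + 1) → M i := fun i G u v =>
    label (wt i G) ((Sum.inl u :: tail R u v 0) ++ [Sum.inl v])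
  let w0 : ∀ i, Fin (n0 + 1) × Set (Fin (n0 + 1)) × Set (Fin (n0 + 1)) → Fin (n0 + 1) × Set (Fin (n0 + 1)) × Set (Fin (n0 + 1)) → M i :=
    fun i α β => if h : ∃ G : Fin (n0 + 1) → Fin (n0 + 1) → Prop, Short (2 * q ^ 3) G ∧ view G α.1 = α ∧ view G β.1 = β then
      SL i h.choose α.1 β.1 else 1
  have hw0 : ∀ i G, Short (2 * q ^ 3) G → ∀ u v, G u v → w0 i (view G u) (view G v) = SL i G u v := by
    intro i G hG u v huv
    have hex : ∃ G' : Fin (n0 + 1) → Fin (n0 + 1) → Prop, Short (2 * q ^ 3) G' ∧ view G' (view G u).1 = view G u ∧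
        view G' (view G v).1 = view G v := ⟨G, hG, rfl, rfl⟩
    have h1 : w0 i (view G u) (view G v) = SL i hex.choose u v := dif_pos hex
    rw [h1]
    obtain ⟨hS, h2, h3⟩ := hex.choose_spec
    have hA : ∀ a, (a = u ∨ a = v) → view G a = view hex.choose a := by
      rintro a (rfl | rfl)
      · exact h2.symm
      · exact h3.symm
    have hseg : ∀ x ∈ (Sum.inl u :: tail R u v 0) ++ [Sum.inl v], fd (fun a => a = u ∨ a = v) R x = 0 ∧ x ∈ Used n0 (2 * q ^ 3) R := by
      intro x hx
      rw [List.mem_append, List.mem_cons, List.mem_singleton] at hx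
      rcases hx with (rfl | hx) | rfl
      · exact ⟨if_pos (Or.inl rfl), used_inl _⟩
      · obtain ⟨j, rfl⟩ := tail_mem hx
        refine ⟨?_, hG _ _ huv⟩
        simp [fd]
      · exact ⟨if_pos (Or.inr rfl), used_inl _⟩
    refine label_congr _ _ _ fun x hx y hy => ?_
    have hx' := hseg x hx
    have hy' := hseg y hy
    show w i _ _ = w i _ _
    rw [ball_embed hn hG hS (fun a => a = u ∨ a = v) hA x hx'.1 hx'.2 r hr,
      ball_embed hn hG hS (fun a => a = u ∨ a = v) hA y hy'.1 hy'.2 r hr]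
  obtain ⟨G, hG1, ⟨layer, hG2⟩, hG3, ⟨l0, hl0⟩, hG4⟩ := core2 n0 k T q m hk hq hn0.ge hm M hM w0
  have hG : Short (2 * q ^ 3) G := fun u v h => ⟨hG1 u v h, hG3 hn0 u v h⟩
  have hn0' : 0 < n0 := by
    rw [hn0]
    exact Nat.mul_pos hk (Nat.succ_pos _)
  refine ⟨tr (emb n n0 (2 * q ^ 3) R) (sub G R), fun u v h => tr_lt hn hG h, tr_layer hn hG layer hG2,
    ⟨_, (path_embed hn hG hn0' hR).2 ⟨l0, hl0, rfl⟩⟩, fun i x => ?_⟩
  have hset : {L | IsPath (tr (emb n n0 (2 * q ^ 3) R) (sub G R)) 0 (Fin.last n) L ∧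
        label (fun u v => w i (ball (tr (emb n n0 (2 * q ^ 3) R) (sub G R)) r u) (ball (tr (emb n n0 (2 * q ^ 3) R) (sub G R)) r v)) L = x} =
      (fun l => (subl R l).map (emb n n0 (2 * q ^ 3) R)) ''
        {l | IsPath G 0 (Fin.last n0) l ∧ label (fun u v => w0 i (view G u) (view G v)) l = x} := by
    have hlab : ∀ l, l.IsChain G → label (fun u v => w i (ball (tr (emb n n0 (2 * q ^ 3) R) (sub G R)) r u)
        (ball (tr (emb n n0 (2 * q ^ 3) R) (sub G R)) r v)) ((subl R l).map (emb n n0 (2 * q ^ 3) R)) =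
        label (fun u v => w0 i (view G u) (view G v)) l := by
      intro l hl
      rw [label_map, label_subl]
      exact label_congr_chain _ _ G (fun u v huv => (hw0 i G hG u v huv).symm) l hl
    ext L
    constructor
    · rintro ⟨h1, h2⟩
      obtain ⟨l, h3, rfl⟩ := (path_embed hn hG hn0' hR).1 h1
      rw [hlab l h3.1] at h2
      exact ⟨l, ⟨h3, h2⟩, rfl⟩
    · rintro ⟨l, ⟨h3, h2⟩, rfl⟩
      exact ⟨(path_embed hn hG hn0' hR).2 ⟨l, h3, rfl⟩, (hlab l h3.1).trans h2⟩
  rw [hset, Set.ncard_image_of_injOn]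
  · exact hG4 i x
  · intro l hl l' hl' h
    exact embed_inj hn hG hR hl.1.1 hl'.1.1 h

end Pool.Agent.Lib.MP_269084_lc
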