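import Mathlib

/-!
# MP_269084 / Params: choice of the parameters
-/

set_option autoImplicit false

namespace Pool.Agent.Lib.MP_269084_lc

/-- `m = ⌊√b⌋`, `T = 2^m + 1`, `q = 2^(2m+2)`, `R = r + 1` -/
theorem params (n k b r : ℕ) (hk : 0 < k) (hn : (k : ℝ) * ((r : ℝ) + 1) * (2 : ℝ) ^ (13 * √(b : ℝ) + 17) ≤ n) :
    ∃ m T q : ℕ, 0 < q ∧ 2 ^ m + 1 ≤ T ∧ (k * (T * q ^ 3 + 1) + 1) * (2 * q ^ 3 * (r + 1) + 1) ≤ n ∧
      ∀ c : ℕ, c ≤ 2 ^ b → c * T ^ (m + 1) < q ^ (m + 1) := by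
  have hm : b < (Nat.sqrt b + 1) * (Nat.sqrt b + 1) := Nat.lt_succ_sqrt b
  obtain ⟨m, hmdef⟩ : ∃ m, m = Nat.sqrt b := ⟨_, rfl⟩
  rw [← hmdef] at hm
  have hreal : ((2 : ℝ) ^ (13 * m + 17)) ≤ (2 : ℝ) ^ (13 * √(b : ℝ) + 17) := by
    rw [← Real.rpow_natCast]
    refine Real.rpow_le_rpow_of_exponent_le (by norm_num) ?_
    rw [hmdef]
    push_cast
    have h1 := Real.nat_sqrt_le_real_sqrt (a := b)
    linarith
  have hkn : k * (r + 1) * 2 ^ (13 * m + 17) ≤ n := by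
    have h1 : ((k * (r + 1) * 2 ^ (13 * m + 17) : ℕ) : ℝ) ≤ (n : ℝ) := by
      push_cast
      exact (mul_le_mul_of_nonneg_left hreal (by positivity)).trans hn
    exact_mod_cast h1
  have h2m : 1 ≤ 2 ^ m := Nat.one_le_two_pow
  have hT : 2 ^ m + 1 ≤ 2 ^ (m + 1) := by
    rw [pow_succ]
    omega
  have hq3 : (2 ^ (2 * m + 2)) ^ 3 = 2 ^ (6 * m + 6) := by
    rw [← pow_mul]
    congr 1
    ring
  refine ⟨m, 2 ^ m + 1, 2 ^ (2 * m + 2), by positivity, le_rfl, ?_, ?_⟩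
  · rw [hq3]
    have h1 : (2 ^ m + 1) * 2 ^ (6 * m + 6) + 1 ≤ 2 ^ (7 * m + 8) := by
      have h2 : 2 ^ (7 * m + 8) = 2 ^ (m + 1) * 2 ^ (6 * m + 6) + 2 ^ (m + 1) * 2 ^ (6 * m + 6) := by
        rw [← pow_add, ← two_mul, ← pow_succ']
        congr 1
        ring
      have h3 : (2 ^ m + 1) * 2 ^ (6 * m + 6) ≤ 2 ^ (m + 1) * 2 ^ (6 * m + 6) := Nat.mul_le_mul_right _ hT
      have h4 : 1 ≤ 2 ^ (m + 1) * 2 ^ (6 * m + 6) := Nat.one_le_iff_ne_zero.2 (by positivity)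
      rw [h2]
      exact Nat.add_le_add h3 h4
    have h5 : k * ((2 ^ m + 1) * 2 ^ (6 * m + 6) + 1) + 1 ≤ k * 2 ^ (7 * m + 9) := by
      have h6 : k * ((2 ^ m + 1) * 2 ^ (6 * m + 6) + 1) ≤ k * 2 ^ (7 * m + 8) := Nat.mul_le_mul_left k h1
      have h7 : 1 ≤ k * 2 ^ (7 * m + 8) := Nat.one_le_iff_ne_zero.2 (by positivity)
      have h8 : k * 2 ^ (7 * m + 9) = k * 2 ^ (7 * m + 8) + k * 2 ^ (7 * m + 8) := by
        rw [show 7 * m + 9 = (7 * m + 8) + 1 by ring, pow_succ]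
        ring
      rw [h8]
      exact Nat.add_le_add h6 h7
    have h9 : 2 * 2 ^ (6 * m + 6) * (r + 1) + 1 ≤ (r + 1) * 2 ^ (6 * m + 8) := by
      have h10 : (r + 1) * 2 ^ (6 * m + 8) = 2 * 2 ^ (6 * m + 6) * (r + 1) + 2 * 2 ^ (6 * m + 6) * (r + 1) := by
        rw [show 6 * m + 8 = (6 * m + 6) + 2 by ring, pow_add]
        ring
      have h11 : 1 ≤ 2 * 2 ^ (6 * m + 6) * (r + 1) := Nat.one_le_iff_ne_zero.2 (by positivity)
      rw [h10]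
      exact Nat.add_le_add_left h11 _
    calc _ ≤ (k * 2 ^ (7 * m + 9)) * ((r + 1) * 2 ^ (6 * m + 8)) := Nat.mul_le_mul h5 h9
      _ = k * (r + 1) * 2 ^ (13 * m + 17) := by
          rw [show 13 * m + 17 = (7 * m + 9) + (6 * m + 8) by ring, pow_add]
          ring
      _ ≤ n := hkn
  · intro c hc
    have h1 : (2 ^ m + 1) ^ (m + 1) ≤ (2 ^ (m + 1)) ^ (m + 1) := Nat.pow_le_pow_left hT (m + 1)
    calc c * (2 ^ m + 1) ^ (m + 1) ≤ 2 ^ b * (2 ^ (m + 1)) ^ (m + 1) := Nat.mul_le_mul hc h1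
      _ = 2 ^ (b + (m + 1) * (m + 1)) := by rw [← pow_mul, ← pow_add]
      _ < 2 ^ ((m + 1) * (m + 1) + (m + 1) * (m + 1)) := Nat.pow_lt_pow_right (by norm_num) (by omega)
      _ = (2 ^ (2 * m + 2)) ^ (m + 1) := by
          rw [← pow_mul]
          congr 1
          ring

end Pool.Agent.Lib.MP_269084_lc
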