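import Pool.Agent.Lib.MP_269084_lc.Defs

/-!
# MP_269084 / Paths: the swap in one block of a series of bigons

`X`, `Y` are two routes through the positions `0, ..., K`; the graph has the edges of both. If on a block `[α, β]` the routes differ exactly on a nonempty interval of positions and have equal labels there, then for every `x` the number of paths with label `x` is even.
-/

set_option autoImplicit false

namespace Pool.Agent.Lib.MP_269084_lc

variable {V M : Type} [Monoid M]

/-- product of the labels along the positions `a, ..., a + d` of `z` -/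
def pz (w : V → V → M) (z : ℕ → V) : ℕ → ℕ → M
  | _, 0 => 1
  | a, d + 1 => w (z a) (z (a + 1)) * pz w z (a + 1) d

theorem pz_add (w : V → V → M) (z : ℕ → V) (a d e : ℕ) : pz w z a (d + e) = pz w z a d * pz w z (a + d) e := by
  induction d generalizing a with
  | zero => simp [pz]
  | succ d ih =>
    rw [show d + 1 + e = (d + e) + 1 by omega, pz, pz, ih (a + 1), mul_assoc, show a + 1 + d = a + (d + 1) by omega]

theorem pz_congr (w : V → V → M) (z z' : ℕ → V) (a d : ℕ) (h : ∀ p, a ≤ p → p ≤ a + d → z p = z' p) : pz w z a d = pz w z' a d := by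
  induction d generalizing a with
  | zero => rfl
  | succ d ih =>
    rw [pz, pz, h a le_rfl (by omega), h (a + 1) (by omega) (by omega), ih (a + 1) fun p h1 h2 => h p (by omega) (by omega)]

theorem label_range (w : V → V → M) (z : ℕ → V) (a d : ℕ) : label w ((List.range' a (d + 1)).map z) = pz w z a d := by
  induction d generalizing a with
  | zero => rfl
  | succ d ih =>
    have h := ih (a + 1)
    rw [List.range'_succ, List.map_cons, List.range'_succ, List.map_cons, label, pz]
    rw [List.range'_succ, List.map_cons] at h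
    rw [h]

/-- the edges of the two routes -/
def GG (X Y : ℕ → V) (K : ℕ) (u v : V) : Prop :=
  ∃ p, p < K ∧ ((u = X p ∧ v = X (p + 1)) ∨ (u = Y p ∧ v = Y (p + 1)))

section

variable {X Y : ℕ → V} {pos : V → ℕ} {K : ℕ}

theorem GG_pos (hX : ∀ p, p ≤ K → pos (X p) = p) (hY : ∀ p, p ≤ K → pos (Y p) = p) {u v : V} (h : GG X Y K u v) :
    pos v = pos u + 1 := by
  obtain ⟨p, hp, ⟨rfl, rfl⟩ | ⟨rfl, rfl⟩⟩ := h
  · rw [hX p hp.le, hX (p + 1) hp]
  · rw [hY p hp.le, hY (p + 1) hp]

/-- the positions along a path -/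
theorem path_pos (hX : ∀ p, p ≤ K → pos (X p) = p) (hY : ∀ p, p ≤ K → pos (Y p) = p) {l : List V} {s : V} (hs : pos s = 0)
    (hc : l.IsChain (GG X Y K)) (hh : l.head? = some s) (i : ℕ) (hi : i < l.length) : pos l[i] = i := by
  induction i with
  | zero =>
    have h1 : l[0] = s := by
      rw [List.head?_eq_getElem?, List.getElem?_eq_getElem hi] at hh
      exact Option.some.inj hh
    rw [h1, hs]
  | succ i ih =>
    have h1 := List.isChain_iff_getElem.1 hc i hi
    rw [GG_pos hX hY h1, ih (by omega)]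

theorem path_len (hX : ∀ p, p ≤ K → pos (X p) = p) (hY : ∀ p, p ≤ K → pos (Y p) = p) {l : List V} {s t : V} (hs : pos s = 0)
    (ht : pos t = K) (hl : IsPath (GG X Y K) s t l) : l.length = K + 1 := by
  obtain ⟨hc, hh, hlast⟩ := hl
  have hne : l ≠ [] := by
    rintro rfl
    simp at hh
  have hpos : 0 < l.length := List.length_pos_iff.2 hne
  rw [List.getLast?_eq_getElem?, List.getElem?_eq_getElem (by omega)] at hlast
  have h1 := path_pos hX hY hs hc hh (l.length - 1) (by omega)
  rw [Option.some.inj hlast, ht] at h1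
  omega

/-- a path is given by a function of the position -/
theorem path_fun (hX : ∀ p, p ≤ K → pos (X p) = p) (hY : ∀ p, p ≤ K → pos (Y p) = p) {l : List V} {s t : V} (hs : pos s = 0)
    (ht : pos t = K) (hl : IsPath (GG X Y K) s t l) :
    ∃ z : ℕ → V, l = (List.range' 0 (K + 1)).map z ∧ z 0 = s ∧ z K = t ∧
      ∀ p, p < K → (z p = X p ∧ z (p + 1) = X (p + 1)) ∨ (z p = Y p ∧ z (p + 1) = Y (p + 1)) := by
  have hlen := path_len hX hY hs ht hl
  obtain ⟨hc, hh, hlast⟩ := hl
  have hz : ∀ p (hp : p < l.length), l.getD p s = l[p] := fun p hp => List.getD_eq_getElem _ _ hp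
  refine ⟨fun p => l.getD p s, ?_, ?_, ?_, ?_⟩
  · refine List.ext_getElem (by simp [hlen]) fun p h1 h2 => ?_
    rw [List.getElem_map, List.getElem_range', hz _ (by omega)]
    congr 1
    omega
  · have h0 : 0 < l.length := by omega
    rw [List.head?_eq_getElem?, List.getElem?_eq_getElem h0] at hh
    exact (hz 0 h0).trans (Option.some.inj hh)
  · rw [List.getLast?_eq_getElem?, List.getElem?_eq_getElem (by omega)] at hlast
    have h1 := Option.some.inj hlast
    have h2 : l.getD (l.length - 1) s = t := (hz _ (by omega)).trans h1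
    rw [hlen, Nat.add_sub_cancel] at h2
    exact h2
  · intro p hp
    have h1 := List.isChain_iff_getElem.1 hc p (by omega)
    have hpp := path_pos hX hY hs hc hh p (by omega)
    dsimp only
    rw [hz p (by omega), hz (p + 1) (by omega)]
    obtain ⟨p', hp', h2 | h2⟩ := h1
    · have h3 := congrArg pos h2.1
      rw [hpp, hX p' hp'.le] at h3
      subst h3
      exact Or.inl h2
    · have h3 := congrArg pos h2.1
      rw [hpp, hY p' hp'.le] at h3
      subst h3
      exact Or.inr h2

/-- route `X` is a path -/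
theorem isPath_X : IsPath (GG X Y K) (X 0) (X K) ((List.range' 0 (K + 1)).map X) := by
  refine ⟨?_, ?_, ?_⟩
  · rw [List.isChain_iff_getElem]
    intro i hi
    rw [List.length_map, List.length_range'] at hi
    rw [List.getElem_map, List.getElem_map, List.getElem_range', List.getElem_range']
    exact ⟨i, by omega, Or.inl ⟨by congr 1; omega, by congr 1; omega⟩⟩
  · simp [List.range'_succ]
  · rw [List.getLast?_eq_getElem?]
    simp

variable [DecidableEq V]

/-- the swap of the two routes between the positions `α` and `β` -/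
def phi (X Y : ℕ → V) (pos : V → ℕ) (α β : ℕ) (v : V) : V :=
  if α < pos v ∧ pos v < β then Equiv.swap (X (pos v)) (Y (pos v)) v else v

variable {α β : ℕ}

theorem phi_X (hX : ∀ p, p ≤ K → pos (X p) = p) (hα : X α = Y α) (hβ : X β = Y β) (hβK : β ≤ K) {p : ℕ} (h1 : α ≤ p) (h2 : p ≤ β) :
    phi X Y pos α β (X p) = Y p := by
  unfold phi
  rw [hX p (h2.trans hβK)]
  split_ifs with h
  · exact Equiv.swap_apply_left _ _
  · rcases (by omega : p = α ∨ p = β) with rfl | rfl
    · exact hα
    · exact hβ

theorem phi_Y (hY : ∀ p, p ≤ K → pos (Y p) = p) (hα : X α = Y α) (hβ : X β = Y β) (hβK : β ≤ K) {p : ℕ} (h1 : α ≤ p) (h2 : p ≤ β) :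
    phi X Y pos α β (Y p) = X p := by
  unfold phi
  rw [hY p (h2.trans hβK)]
  split_ifs with h
  · exact Equiv.swap_apply_right _ _
  · rcases (by omega : p = α ∨ p = β) with rfl | rfl
    · exact hα.symm
    · exact hβ.symm

theorem phi_out {v : V} (h : pos v ≤ α ∨ β ≤ pos v) : phi X Y pos α β v = v := by
  unfold phi
  rw [if_neg (by omega)]

theorem pos_phi (hX : ∀ p, p ≤ K → pos (X p) = p) (hY : ∀ p, p ≤ K → pos (Y p) = p) (hβK : β ≤ K) (v : V) :
    pos (phi X Y pos α β v) = pos v := by
  unfold phi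
  split_ifs with h
  · by_cases h1 : v = X (pos v)
    · have h2 : Equiv.swap (X (pos v)) (Y (pos v)) v = Y (pos v) := by
        conv_lhs => rw [h1]
        rw [← h1]
        conv_lhs =>
          arg 2
          rw [h1]
        rw [Equiv.swap_apply_left]
      rw [h2, hY _ (by omega)]
    · by_cases h2 : v = Y (pos v)
      · have h3 : Equiv.swap (X (pos v)) (Y (pos v)) v = X (pos v) := by
          conv_lhs =>
            arg 2
            rw [h2]
          rw [Equiv.swap_apply_right]
        rw [h3, hX _ (by omega)]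
      · rw [Equiv.swap_apply_of_ne_of_ne h1 h2]
  · rfl

theorem phi_phi (hX : ∀ p, p ≤ K → pos (X p) = p) (hY : ∀ p, p ≤ K → pos (Y p) = p) (hβK : β ≤ K) (v : V) :
    phi X Y pos α β (phi X Y pos α β v) = v := by
  have hp := pos_phi (α := α) hX hY hβK v
  have h1 : phi X Y pos α β (phi X Y pos α β v) =
      if α < pos v ∧ pos v < β then Equiv.swap (X (pos v)) (Y (pos v)) (phi X Y pos α β v) else phi X Y pos α β v := by
    conv_lhs => rw [phi, hp]
  rw [h1]
  split_ifs with h
  · rw [phi, if_pos h, Equiv.swap_apply_self]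
  · rw [phi, if_neg h]

theorem phi_GG (hX : ∀ p, p ≤ K → pos (X p) = p) (hY : ∀ p, p ≤ K → pos (Y p) = p) (hα : X α = Y α) (hβ : X β = Y β) (hβK : β ≤ K)
    {u v : V} (h : GG X Y K u v) : GG X Y K (phi X Y pos α β u) (phi X Y pos α β v) := by
  obtain ⟨p, hp, ⟨rfl, rfl⟩ | ⟨rfl, rfl⟩⟩ := h
  · by_cases h1 : α ≤ p ∧ p + 1 ≤ β
    · rw [phi_X hX hα hβ hβK h1.1 (by omega), phi_X hX hα hβ hβK (by omega) h1.2]
      exact ⟨p, hp, Or.inr ⟨rfl, rfl⟩⟩
    · rw [phi_out (by rw [hX p hp.le]; omega), phi_out (by rw [hX (p + 1) hp]; omega)]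
      exact ⟨p, hp, Or.inl ⟨rfl, rfl⟩⟩
  · by_cases h1 : α ≤ p ∧ p + 1 ≤ β
    · rw [phi_Y hY hα hβ hβK h1.1 (by omega), phi_Y hY hα hβ hβK (by omega) h1.2]
      exact ⟨p, hp, Or.inl ⟨rfl, rfl⟩⟩
    · rw [phi_out (by rw [hY p hp.le]; omega), phi_out (by rw [hY (p + 1) hp]; omega)]
      exact ⟨p, hp, Or.inr ⟨rfl, rfl⟩⟩

/-- on the block a path is one of the two routes -/
theorem block_route {z : ℕ → V} (hz : ∀ p, p < K → (z p = X p ∧ z (p + 1) = X (p + 1)) ∨ (z p = Y p ∧ z (p + 1) = Y (p + 1)))
    (hβK : β ≤ K) {i j : ℕ} (hi : α < i) (hij : i < j) (hj : j ≤ β)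
    (hd : ∀ p, α ≤ p → p ≤ β → (X p ≠ Y p ↔ i ≤ p ∧ p < j)) (hβ : X β = Y β) (hzi : z i = X i) :
    ∀ p, α ≤ p → p ≤ β → z p = X p := by
  have hmem : ∀ p, p ≤ K → z p = X p ∨ z p = Y p := by
    intro p hp
    rcases Nat.eq_zero_or_pos p with h0 | h0
    · subst h0
      rcases hz 0 (by omega) with h | h
      · exact Or.inl h.1
      · exact Or.inr h.1
    · rcases hz (p - 1) (by omega) with h | h
      · rw [Nat.sub_add_cancel h0] at h
        exact Or.inl h.2
      · rw [Nat.sub_add_cancel h0] at h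
        exact Or.inr h.2
  have hin : ∀ d, i + d < j → z (i + d) = X (i + d) := by
    intro d
    induction d with
    | zero => exact fun _ => hzi
    | succ d ih =>
      intro hd'
      have h1 := ih (by omega)
      rcases hz (i + d) (by omega) with h | h
      · exact h.2
      · exact absurd (h1.symm.trans h.1) ((hd (i + d) (by omega) (by omega)).2 ⟨by omega, by omega⟩)
  intro p h1 h2
  by_cases h3 : i ≤ p ∧ p < j
  · have h4 := hin (p - i) (by omega)
    rwa [Nat.add_sub_cancel' h3.1] at h4
  · have h4 : X p = Y p := by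
      by_contra hne
      exact h3 ((hd p h1 h2).1 hne)
    rcases hmem p (h2.trans hβK) with h | h
    · exact h
    · rw [h, h4]

/-- the swap keeps the label -/
theorem label_phi (hX : ∀ p, p ≤ K → pos (X p) = p) (hY : ∀ p, p ≤ K → pos (Y p) = p) (hα : X α = Y α) (hβ : X β = Y β) (hβK : β ≤ K)
    {i j : ℕ} (hi : α < i) (hij : i < j) (hj : j ≤ β) (hd : ∀ p, α ≤ p → p ≤ β → (X p ≠ Y p ↔ i ≤ p ∧ p < j))
    (w : V → V → M) (hw : pz w X α (β - α) = pz w Y α (β - α)) {z : ℕ → V}
    (hz : ∀ p, p < K → (z p = X p ∧ z (p + 1) = X (p + 1)) ∨ (z p = Y p ∧ z (p + 1) = Y (p + 1))) :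
    pz w (fun p => phi X Y pos α β (z p)) 0 K = pz w z 0 K := by
  have hαβ : α ≤ β := by omega
  have hpos : ∀ p, p ≤ K → pos (z p) = p := by
    intro p hp
    rcases Nat.eq_zero_or_pos p with h0 | h0
    · subst h0
      rcases hz 0 (by omega) with h | h
      · rw [h.1, hX 0 (by omega)]
      · rw [h.1, hY 0 (by omega)]
    · rcases hz (p - 1) (by omega) with h | h
      · rw [Nat.sub_add_cancel h0] at h
        rw [h.2, hX p hp]
      · rw [Nat.sub_add_cancel h0] at h
        rw [h.2, hY p hp]
  have hsplit : ∀ y : ℕ → V, pz w y 0 K = pz w y 0 α * pz w y α (β - α) * pz w y β (K - β) := by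
    intro y
    have h1 := pz_add w y 0 α (β - α)
    have h2 := pz_add w y 0 (α + (β - α)) (K - β)
    rw [h1, zero_add, zero_add, Nat.add_sub_cancel' hαβ, Nat.add_sub_cancel' hβK] at h2
    exact h2
  rw [hsplit, hsplit z]
  have e1 : pz w (fun p => phi X Y pos α β (z p)) 0 α = pz w z 0 α :=
    pz_congr w _ _ 0 α fun p _ h2 => phi_out (by rw [hpos p (by omega)]; omega)
  have e3 : pz w (fun p => phi X Y pos α β (z p)) β (K - β) = pz w z β (K - β) :=
    pz_congr w _ _ β (K - β) fun p h1 h2 => phi_out (by rw [hpos p (by omega)]; omega)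
  have e2 : pz w (fun p => phi X Y pos α β (z p)) α (β - α) = pz w z α (β - α) := by
    have hzi : z i = X i ∨ z i = Y i := by
      rcases hz (i - 1) (by omega) with h | h
      · rw [Nat.sub_add_cancel (by omega)] at h
        exact Or.inl h.2
      · rw [Nat.sub_add_cancel (by omega)] at h
        exact Or.inr h.2
    rcases hzi with hzi | hzi
    · have h1 := block_route hz hβK hi hij hj hd hβ hzi
      rw [pz_congr w (fun p => phi X Y pos α β (z p)) Y α (β - α) fun p h2 h3 => by
          rw [h1 p h2 (by omega), phi_X hX hα hβ hβK h2 (by omega)],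
        pz_congr w z X α (β - α) fun p h2 h3 => h1 p h2 (by omega), hw]
    · have h1 := block_route (X := Y) (Y := X) (fun p hp => (hz p hp).symm) hβK hi hij hj
        (fun p h1 h2 => by rw [ne_comm]; exact hd p h1 h2) hβ.symm hzi
      rw [pz_congr w (fun p => phi X Y pos α β (z p)) X α (β - α) fun p h2 h3 => by
          rw [h1 p h2 (by omega), phi_Y hY hα hβ hβK h2 (by omega)],
        pz_congr w z Y α (β - α) fun p h2 h3 => h1 p h2 (by omega), hw]
  rw [e1, e2, e3]

/-- the number of the paths with a given label is even -/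
theorem even_paths [Finite V] (hX : ∀ p, p ≤ K → pos (X p) = p) (hY : ∀ p, p ≤ K → pos (Y p) = p)
    (hα : X α = Y α) (hβ : X β = Y β) (hβK : β ≤ K)
    {i j : ℕ} (hi : α < i) (hij : i < j) (hj : j ≤ β) (hd : ∀ p, α ≤ p → p ≤ β → (X p ≠ Y p ↔ i ≤ p ∧ p < j))
    (w : V → V → M) (hw : pz w X α (β - α) = pz w Y α (β - α)) (x : M) :
    Even ({l | IsPath (GG X Y K) (X 0) (X K) l ∧ label w l = x}.ncard) := by
  have hs : pos (X 0) = 0 := hX 0 (Nat.zero_le _)
  have ht : pos (X K) = K := hX K le_rfl
  have hfin : {l | IsPath (GG X Y K) (X 0) (X K) l ∧ label w l = x}.Finite :=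
    (List.finite_length_eq V (K + 1)).subset fun l hl => path_len hX hY hs ht hl.1
  rw [Set.ncard_eq_toFinset_card _ hfin]
  have h0 : ((hfin.toFinset.card : ℕ) : ZMod 2) = 0 := by
    rw [Finset.card_eq_sum_ones, Nat.cast_sum]
    refine Finset.sum_involution (fun l _ => l.map (phi X Y pos α β)) ?_ ?_ ?_ ?_
    · intro l _
      norm_num
      decide
    · intro l hl _ heq
      rw [Set.Finite.mem_toFinset] at hl
      obtain ⟨z, hlz, -, -, hz⟩ := path_fun hX hY hs ht hl.1
      rw [hlz, List.map_map] at heq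
      have h1 := List.map_inj_left.1 heq i (by rw [List.mem_range']; exact ⟨i, by omega, by omega⟩)
      have hne := (hd i (by omega) (by omega)).2 ⟨le_rfl, hij⟩
      rw [Function.comp_apply] at h1
      rcases hz (i - 1) (by omega) with h | h
      · rw [Nat.sub_add_cancel (by omega)] at h
        rw [h.2, phi_X hX hα hβ hβK (by omega) (by omega)] at h1
        exact hne h1.symm
      · rw [Nat.sub_add_cancel (by omega)] at h
        rw [h.2, phi_Y hY hα hβ hβK (by omega) (by omega)] at h1
        exact hne h1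
    · intro l hl
      rw [Set.Finite.mem_toFinset] at hl ⊢
      obtain ⟨hp, hlab⟩ := hl
      obtain ⟨z, hlz, -, -, hz⟩ := path_fun hX hY hs ht hp
      refine ⟨⟨?_, ?_, ?_⟩, ?_⟩
      · exact List.isChain_map_of_isChain _ (fun a b hab => phi_GG hX hY hα hβ hβK hab) hp.1
      · rw [List.head?_map, hp.2.1, Option.map_some, phi_out (Or.inl (by rw [hs]; omega))]
      · rw [List.getLast?_map, hp.2.2, Option.map_some, phi_out (Or.inr (by rw [ht]; exact hβK))]
      · rw [← hlab, hlz, List.map_map, label_range, label_range]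
        exact label_phi hX hY hα hβ hβK hi hij hj hd w hw hz
    · intro l hl
      rw [List.map_map]
      conv_rhs => rw [← List.map_id l]
      refine List.map_congr_left fun v _ => ?_
      exact phi_phi hX hY hβK v
  exact (ZMod.natCast_eq_zero_iff_even).1 h0

end

end Pool.Agent.Lib.MP_269084_lc
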