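import Pool.Agent.Lib.MP_269084_lc.Words
import Pool.Agent.Lib.MP_269084_lc.Paths

/-!
# MP_269084 / Series: k blocks in series

Block `c` has the cut vertex `c B`, `B = L q + 1`, followed by `L` layers of `q` vertices; the last cut vertex is `n`.
-/

set_option autoImplicit false

namespace Pool.Agent.Lib.MP_269084_lc

section

variable {L q : ℕ}

/-- offset of the vertex chosen by the word `a` at place `r` of a block (`r = 0`: the cut vertex) -/
def off (a : Fin L → Fin q) (r : ℕ) : ℕ :=
  if h : 0 < r ∧ r - 1 < L then 1 + (r - 1) * q + (a ⟨r - 1, h.2⟩).val else 0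

theorem off_zero (a : Fin L → Fin q) : off a 0 = 0 := by
  unfold off
  rw [dif_neg (by omega)]

theorem off_succ (a : Fin L → Fin q) (r : ℕ) (hr : r < L) : off a (r + 1) = 1 + r * q + (a ⟨r, hr⟩).val := by
  unfold off
  rw [dif_pos ⟨by omega, by omega⟩]
  simp only [Nat.add_sub_cancel]

theorem off_le (a : Fin L → Fin q) (r : ℕ) (hr : r ≤ L) : off a r ≤ r * q := by
  rcases r with _ | r
  · rw [off_zero]
    exact Nat.zero_le _
  · rw [off_succ a r hr, Nat.succ_mul]
    have := (a ⟨r, hr⟩).isLt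
    omega

theorem off_lt (a a' : Fin L → Fin q) (r : ℕ) (hr : r < L) : off a r < off a' (r + 1) := by
  have h1 := off_le a r hr.le
  rw [off_succ a' r hr]
  omega

/-- number of the vertex at position `p` of the route given by the words `W c` -/
def num (n k : ℕ) (W : ℕ → Fin L → Fin q) (p : ℕ) : ℕ :=
  if p = k * (L + 1) then n else (p / (L + 1)) * (L * q + 1) + off (W (p / (L + 1))) (p % (L + 1))

/-- the vertex at position `p` -/
def vtx (n k : ℕ) (W : ℕ → Fin L → Fin q) (p : ℕ) : Fin (n + 1) :=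
  ⟨min (num n k W p) n, Nat.lt_succ_of_le (min_le_right _ _)⟩

/-- the position of a vertex -/
def posn (n k L q : ℕ) (v : Fin (n + 1)) : ℕ :=
  if v.val = n then k * (L + 1)
  else (v.val / (L * q + 1)) * (L + 1) + (if v.val % (L * q + 1) = 0 then 0 else (v.val % (L * q + 1) - 1) / q + 1)

variable {n k : ℕ}

theorem num_block (W : ℕ → Fin L → Fin q) (c r : ℕ) (hr : r ≤ L) (hc : c < k) :
    num n k W (c * (L + 1) + r) = c * (L * q + 1) + off (W c) r := by
  have h1 : c * (L + 1) + r ≠ k * (L + 1) := by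
    have h2 : (c + 1) * (L + 1) ≤ k * (L + 1) := Nat.mul_le_mul_right _ hc
    rw [Nat.succ_mul] at h2
    omega
  have h2 : (c * (L + 1) + r) / (L + 1) = c := by
    rw [mul_comm, Nat.mul_add_div (Nat.succ_pos L), Nat.div_eq_of_lt (by omega), add_zero]
  have h3 : (c * (L + 1) + r) % (L + 1) = r := by
    rw [mul_comm, Nat.mul_add_mod, Nat.mod_eq_of_lt (by omega)]
  unfold num
  rw [if_neg h1, h2, h3]

theorem num_lt (W : ℕ → Fin L → Fin q) (hn : k * (L * q + 1) ≤ n) (c r : ℕ) (hr : r ≤ L) (hc : c < k) :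
    num n k W (c * (L + 1) + r) < n := by
  rw [num_block W c r hr hc]
  have h1 := off_le (W c) r hr
  have h2 : r * q ≤ L * q := Nat.mul_le_mul_right _ hr
  have h3 : (c + 1) * (L * q + 1) ≤ k * (L * q + 1) := Nat.mul_le_mul_right _ hc
  rw [Nat.succ_mul] at h3
  omega

theorem num_end (W : ℕ → Fin L → Fin q) : num n k W (k * (L + 1)) = n := by
  unfold num
  rw [if_pos rfl]

/-- every position below the last one lies in a block -/
theorem pos_split (p : ℕ) (hp : p < k * (L + 1)) : ∃ c r, p = c * (L + 1) + r ∧ r ≤ L ∧ c < k := by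
  refine ⟨p / (L + 1), p % (L + 1), ?_, ?_, ?_⟩
  · rw [mul_comm]
    exact (Nat.div_add_mod p (L + 1)).symm
  · exact Nat.lt_succ_iff.1 (Nat.mod_lt p (Nat.succ_pos L))
  · exact (Nat.div_lt_iff_lt_mul (Nat.succ_pos L)).2 hp

theorem vtx_val (W : ℕ → Fin L → Fin q) (hn : k * (L * q + 1) ≤ n) (p : ℕ) (hp : p ≤ k * (L + 1)) :
    (vtx n k W p).val = num n k W p := by
  refine min_eq_left ?_
  rcases hp.lt_or_eq with h | h
  · obtain ⟨c, r, rfl, hr, hc⟩ := pos_split p h
    exact (num_lt W hn c r hr hc).le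
  · rw [h, num_end]

theorem posn_vtx (W : ℕ → Fin L → Fin q) (hn : k * (L * q + 1) ≤ n) (hq : 0 < q) (p : ℕ) (hp : p ≤ k * (L + 1)) :
    posn n k L q (vtx n k W p) = p := by
  unfold posn
  rw [vtx_val W hn p hp]
  rcases hp.lt_or_eq with h | h
  · obtain ⟨c, r, rfl, hr, hc⟩ := pos_split p h
    have h1 := num_lt W hn c r hr hc
    rw [if_neg h1.ne, num_block W c r hr hc]
    have h2 : off (W c) r < L * q + 1 := by
      have h3 := off_le (W c) r hr
      have h4 : r * q ≤ L * q := Nat.mul_le_mul_right _ hr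
      omega
    have h3 : (c * (L * q + 1) + off (W c) r) / (L * q + 1) = c := by
      rw [mul_comm, Nat.mul_add_div (Nat.succ_pos _), Nat.div_eq_of_lt h2, add_zero]
    have h4 : (c * (L * q + 1) + off (W c) r) % (L * q + 1) = off (W c) r := by
      rw [mul_comm, Nat.mul_add_mod, Nat.mod_eq_of_lt h2]
    rw [h3, h4]
    rcases r with _ | r
    · rw [off_zero, if_pos rfl]
    · rw [off_succ (W c) r hr, if_neg (by omega)]
      have h5 : (1 + r * q + (W c ⟨r, hr⟩).val - 1) / q = r := by
        have h6 : 1 + r * q + (W c ⟨r, hr⟩).val - 1 = q * r + (W c ⟨r, hr⟩).val := by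
          rw [mul_comm q r]
          omega
        rw [h6, Nat.mul_add_div hq, Nat.div_eq_of_lt (W c ⟨r, hr⟩).isLt, add_zero]
      rw [h5]
  · rw [h, num_end, if_pos rfl]

theorem num_lt_succ (W W' : ℕ → Fin L → Fin q) (hn : k * (L * q + 1) ≤ n) (p : ℕ) (hp : p < k * (L + 1)) :
    num n k W p < num n k W' (p + 1) := by
  obtain ⟨c, r, rfl, hr, hc⟩ := pos_split p hp
  have h0 := num_lt W hn c r hr hc
  rcases hr.lt_or_eq with h | h
  · rw [num_block W c r hr hc, show c * (L + 1) + r + 1 = c * (L + 1) + (r + 1) by ring, num_block W' c (r + 1) h hc]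
    exact Nat.add_lt_add_left (off_lt _ _ r h) _
  · have h1 : c * (L + 1) + r + 1 = (c + 1) * (L + 1) := by
      rw [h]
      ring
    rw [h1]
    rcases (Nat.succ_le_of_lt hc).lt_or_eq with h2 | h2
    · have h3 := num_block (n := n) W' (c + 1) 0 (Nat.zero_le _) h2
      rw [add_zero, off_zero] at h3
      rw [h3, num_block W c r hr hc]
      have h4 := off_le (W c) r hr
      rw [h] at h4 ⊢
      have h5 : (c + 1) * (L * q + 1) = c * (L * q + 1) + L * q + 1 := by ring
      omega
    · have h3 : c + 1 = k := h2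
      rw [h3, num_end]
      exact h0

theorem vtx_lt_succ (W W' : ℕ → Fin L → Fin q) (hn : k * (L * q + 1) ≤ n) (p : ℕ) (hp : p < k * (L + 1)) :
    vtx n k W p < vtx n k W' (p + 1) := by
  rw [Fin.lt_def, vtx_val W hn p hp.le, vtx_val W' hn (p + 1) hp]
  exact num_lt_succ W W' hn p hp

/-- the graph of two routes is thin -/
theorem thin_GG (W W' : ℕ → Fin L → Fin q) (hn : k * (L * q + 1) ≤ n) (hq : 0 < q) :
    Thin (GG (vtx n k W) (vtx n k W') (k * (L + 1))) := by
  have hX : ∀ p, p ≤ k * (L + 1) → posn n k L q (vtx n k W p) = p := fun p hp => posn_vtx W hn hq p hp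
  have hY : ∀ p, p ≤ k * (L + 1) → posn n k L q (vtx n k W' p) = p := fun p hp => posn_vtx W' hn hq p hp
  refine ⟨?_, ⟨posn n k L q, fun u v h => GG_pos hX hY h⟩, ?_, ?_⟩
  · rintro u v ⟨p, hp, ⟨rfl, rfl⟩ | ⟨rfl, rfl⟩⟩
    · exact vtx_lt_succ W W hn p hp
    · exact vtx_lt_succ W' W' hn p hp
  · intro u
    refine le_trans (Set.ncard_le_ncard (t := {vtx n k W (posn n k L q u + 1), vtx n k W' (posn n k L q u + 1)}) ?_
      (Set.toFinite _)) (Set.ncard_insert_le _ _ |>.trans (by rw [Set.ncard_singleton]))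
    rintro v ⟨p, hp, ⟨rfl, rfl⟩ | ⟨rfl, rfl⟩⟩
    · rw [hX p hp.le]
      exact Or.inl rfl
    · rw [hY p hp.le]
      exact Or.inr rfl
  · intro v
    refine le_trans (Set.ncard_le_ncard (t := {vtx n k W (posn n k L q v - 1), vtx n k W' (posn n k L q v - 1)}) ?_
      (Set.toFinite _)) (Set.ncard_insert_le _ _ |>.trans (by rw [Set.ncard_singleton]))
    rintro u ⟨p, hp, ⟨rfl, rfl⟩ | ⟨rfl, rfl⟩⟩
    · rw [hX (p + 1) hp, Nat.add_sub_cancel]
      exact Or.inl rfl
    · rw [hY (p + 1) hp, Nat.add_sub_cancel]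
      exact Or.inr rfl

end

/-- the bad graph -/
theorem core (n k L q m : ℕ) (hk : 0 < k) (hq : 0 < q) (hn : k * (L * q + 1) ≤ n) (hm : 2 ^ m ≤ L + 1) (M : Fin k → Type)
    [∀ i, Monoid (M i)] [∀ i, Finite (M i)] (hM : ∀ i, Nat.card (M i) * L ^ m < q ^ m)
    (w : ∀ i, Fin (n + 1) → Fin (n + 1) → M i) :
    ∃ G : Fin (n + 1) → Fin (n + 1) → Prop, Thin G ∧ (∃ l, IsPath G 0 (Fin.last n) l) ∧
      ∀ i x, Even {l | IsPath G 0 (Fin.last n) l ∧ label (w i) l = x}.ncard := by
  have hch := fun i : Fin k => exists_pair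
    (F := fun a : Fin L → Fin q => pz (w i) (vtx n k fun _ => a) (i.val * (L + 1)) (L + 1)) hq m hm (hM i)
  choose a a' s t hst ht hdiff heq using hch
  let W : ℕ → Fin L → Fin q := fun c => if h : c < k then a ⟨c, h⟩ else fun _ => ⟨0, hq⟩
  let W' : ℕ → Fin L → Fin q := fun c => if h : c < k then a' ⟨c, h⟩ else fun _ => ⟨0, hq⟩
  have hWi : ∀ i : Fin k, W i.val = a i := fun i => dif_pos i.isLt
  have hWi' : ∀ i : Fin k, W' i.val = a' i := fun i => dif_pos i.isLt
  have hK0 : 0 < k * (L + 1) := Nat.mul_pos hk (Nat.succ_pos _)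
  have hX : ∀ p, p ≤ k * (L + 1) → posn n k L q (vtx n k W p) = p := fun p hp => posn_vtx W hn hq p hp
  have hY : ∀ p, p ≤ k * (L + 1) → posn n k L q (vtx n k W' p) = p := fun p hp => posn_vtx W' hn hq p hp
  have h0 : vtx n k W 0 = 0 := by
    apply Fin.ext
    rw [vtx_val W hn 0 (Nat.zero_le _)]
    have h1 := num_block (n := n) W 0 0 (Nat.zero_le _) hk
    rw [zero_mul, zero_add, zero_mul, off_zero] at h1
    rw [h1]
    rfl
  have hlast : vtx n k W (k * (L + 1)) = Fin.last n := by
    apply Fin.ext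
    rw [vtx_val W hn _ le_rfl, num_end]
    rfl
  refine ⟨GG (vtx n k W) (vtx n k W') (k * (L + 1)), thin_GG W W' hn hq, ?_, ?_⟩
  · refine ⟨(List.range' 0 (k * (L + 1) + 1)).map (vtx n k W), ?_⟩
    rw [← h0, ← hlast]
    exact isPath_X
  · intro i x
    have hiK : (i.val + 1) * (L + 1) ≤ k * (L + 1) := Nat.mul_le_mul_right _ i.isLt
    have hβ' : (i.val + 1) * (L + 1) = i.val * (L + 1) + (L + 1) := by ring
    -- the cut vertices do not depend on the words
    have hcut : ∀ (U U' : ℕ → Fin L → Fin q) (c : ℕ), c ≤ k → vtx n k U (c * (L + 1)) = vtx n k U' (c * (L + 1)) := by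
      intro U U' c hc
      apply Fin.ext
      rw [vtx_val U hn _ (Nat.mul_le_mul_right _ hc), vtx_val U' hn _ (Nat.mul_le_mul_right _ hc)]
      rcases hc.lt_or_eq with h | h
      · have h1 := num_block (n := n) U c 0 (Nat.zero_le _) h
        have h2 := num_block (n := n) U' c 0 (Nat.zero_le _) h
        rw [add_zero, off_zero] at h1 h2
        rw [h1, h2]
      · rw [h, num_end, num_end]
    -- inside block i only the word number i matters
    have hin : ∀ (U U' : ℕ → Fin L → Fin q), U i.val = U' i.val → ∀ p, i.val * (L + 1) ≤ p → p ≤ i.val * (L + 1) + (L + 1) →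
        vtx n k U p = vtx n k U' p := by
      intro U U' hU p h1 h2
      rcases h2.lt_or_eq with h3 | h3
      · obtain ⟨r, rfl⟩ := Nat.exists_eq_add_of_le h1
        apply Fin.ext
        rw [vtx_val U hn _ (by omega), vtx_val U' hn _ (by omega), num_block U i.val r (by omega) i.isLt,
          num_block U' i.val r (by omega) i.isLt, hU]
      · rw [h3, ← hβ']
        exact hcut U U' _ i.isLt
    have hw : pz (w i) (vtx n k W) (i.val * (L + 1)) ((i.val + 1) * (L + 1) - i.val * (L + 1)) =
        pz (w i) (vtx n k W') (i.val * (L + 1)) ((i.val + 1) * (L + 1) - i.val * (L + 1)) := by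
      rw [hβ', Nat.add_sub_cancel_left]
      rw [pz_congr (w i) (vtx n k W) (vtx n k fun _ => a i) _ _ (hin W (fun _ => a i) (hWi i)),
        pz_congr (w i) (vtx n k W') (vtx n k fun _ => a' i) _ _ (hin W' (fun _ => a' i) (hWi' i))]
      exact heq i
    have hd : ∀ p, i.val * (L + 1) ≤ p → p ≤ (i.val + 1) * (L + 1) →
        (vtx n k W p ≠ vtx n k W' p ↔ i.val * (L + 1) + s i + 1 ≤ p ∧ p < i.val * (L + 1) + t i + 1) := by
      intro p h1 h2
      have hti := ht i
      rcases h2.lt_or_eq with h3 | h3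
      · obtain ⟨r, rfl⟩ := Nat.exists_eq_add_of_le h1
        rcases r with _ | r
        · rw [add_zero]
          constructor
          · intro h
            exact absurd (hcut W W' i.val i.isLt.le) h
          · intro h
            omega
        · have hr : r < L := by omega
          have h4 : vtx n k W (i.val * (L + 1) + (r + 1)) ≠ vtx n k W' (i.val * (L + 1) + (r + 1)) ↔ a i ⟨r, hr⟩ ≠ a' i ⟨r, hr⟩ := by
            rw [Ne, Ne, not_iff_not, Fin.ext_iff, vtx_val W hn _ (by omega), vtx_val W' hn _ (by omega),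
              num_block W i.val (r + 1) hr i.isLt, num_block W' i.val (r + 1) hr i.isLt, hWi, hWi',
              off_succ (a i) r hr, off_succ (a' i) r hr, Fin.ext_iff]
            omega
          rw [h4, hdiff i ⟨r, hr⟩]
          dsimp only
          omega
      · rw [h3]
        constructor
        · intro h
          exact absurd (hcut W W' (i.val + 1) i.isLt) h
        · intro h
          omega
    have hst' := hst i
    have ht' := ht i
    have hmain := even_paths (X := vtx n k W) (Y := vtx n k W') (pos := posn n k L q) (K := k * (L + 1))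
      (α := i.val * (L + 1)) (β := (i.val + 1) * (L + 1)) hX hY (hcut W W' i.val i.isLt.le) (hcut W W' (i.val + 1) i.isLt) hiK
      (i := i.val * (L + 1) + s i + 1) (j := i.val * (L + 1) + t i + 1) (by omega) (by omega) (by omega) hd (w i) hw x
    rw [h0, hlast] at hmain
    exact hmain

end Pool.Agent.Lib.MP_269084_lc
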