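import Pool.Agent.Lib.MP_269084_lc.Ball

/-!
# MP_269084 / Sub: subdivision of the edges

Every edge `a b` is replaced by a path through the new vertices `(a, b, j)`, `j < R`. The paths between old vertices are the subdivided paths, and what is seen with sight `R` from a vertex of a subdivided path depends only on the views at the old vertices of the path.
-/

set_option autoImplicit false

namespace Pool.Agent.Lib.MP_269084_lc

variable {V : Type} {R : ℕ}

/-- the subdivided graph -/
def sub (G : V → V → Prop) (R : ℕ) : V ⊕ (V × V × Fin R) → V ⊕ (V × V × Fin R) → Prop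
  | Sum.inl _, Sum.inl _ => False
  | Sum.inl u, Sum.inr (a, b, j) => u = a ∧ G a b ∧ j.val = 0
  | Sum.inr (a, b, j), Sum.inl v => v = b ∧ G a b ∧ j.val + 1 = R
  | Sum.inr (a, b, j), Sum.inr (a', b', j') => a = a' ∧ b = b' ∧ G a b ∧ j'.val = j.val + 1

/-- the new vertices on the edge `a b`, from number `j` on -/
def tail (R : ℕ) (a b : V) (j : ℕ) : List (V ⊕ (V × V × Fin R)) := ((List.finRange R).drop j).map fun i => Sum.inr (a, b, i)

/-- the subdivided path -/
def subl (R : ℕ) : List V → List (V ⊕ (V × V × Fin R))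
  | [] => []
  | [u] => [Sum.inl u]
  | u :: v :: l => Sum.inl u :: (tail R u v 0 ++ subl R (v :: l))

theorem tail_cons (a b : V) (j : ℕ) (hj : j < R) : tail R a b j = Sum.inr (a, b, ⟨j, hj⟩) :: tail R a b (j + 1) := by
  unfold tail
  rw [List.drop_eq_getElem_cons (by rwa [List.length_finRange]), List.map_cons]
  congr 3
  simp

theorem tail_end (a b : V) (j : ℕ) (hj : R ≤ j) : tail R a b j = [] := by
  unfold tail
  rw [List.drop_eq_nil_of_le (by rwa [List.length_finRange]), List.map_nil]

theorem subl_cons_head (v : V) (l : List V) : ∃ X, subl R (v :: l) = Sum.inl v :: X := by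
  rcases l with _ | ⟨w, l⟩
  · exact ⟨[], rfl⟩
  · exact ⟨_, rfl⟩

/-- the subdivided path determines the path -/
theorem subl_filter (l : List V) : (subl R l).filterMap Sum.getLeft? = l := by
  have htail : ∀ a b : V, (tail R a b 0).filterMap Sum.getLeft? = [] := by
    intro a b
    unfold tail
    rw [List.drop_zero, List.filterMap_map]
    rw [List.filterMap_eq_nil_iff]
    intro i _
    rfl
  induction l with
  | nil => rfl
  | cons u l ih =>
    rcases l with _ | ⟨v, l⟩
    · rfl
    · rw [subl, List.filterMap_cons, List.filterMap_append, htail, List.nil_append, ih]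
      rfl

theorem subl_inj {l l' : List V} (h : subl R l = subl R l') : l = l' := by
  rw [← subl_filter (R := R) l, ← subl_filter (R := R) l', h]

theorem tail_mem {a b : V} {w : V ⊕ (V × V × Fin R)} {j : ℕ} (h : w ∈ tail R a b j) : ∃ i, w = Sum.inr (a, b, i) := by
  unfold tail at h
  rw [List.mem_map] at h
  obtain ⟨i, -, rfl⟩ := h
  exact ⟨i, rfl⟩

theorem subl_mem {l : List V} {w : V ⊕ (V × V × Fin R)} (h : w ∈ subl R l) :
    (∃ a ∈ l, w = Sum.inl a) ∨ ∃ a ∈ l, ∃ b ∈ l, ∃ i, w = Sum.inr (a, b, i) := by
  induction l with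
  | nil => simp [subl] at h
  | cons u l ih =>
    rcases l with _ | ⟨v, l⟩
    · rw [subl, List.mem_singleton] at h
      exact Or.inl ⟨u, by simp, h⟩
    · rw [subl, List.mem_cons, List.mem_append] at h
      rcases h with h | h | h
      · exact Or.inl ⟨u, by simp, h⟩
      · obtain ⟨i, hi⟩ := tail_mem h
        exact Or.inr ⟨u, by simp, v, by simp, i, hi⟩
      · rcases ih h with ⟨a, ha, h1⟩ | ⟨a, ha, b, hb, i, h1⟩
        · exact Or.inl ⟨a, List.mem_cons_of_mem _ ha, h1⟩
        · exact Or.inr ⟨a, List.mem_cons_of_mem _ ha, b, List.mem_cons_of_mem _ hb, i, h1⟩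

variable {G : V → V → Prop}

/-- chain through the rest of an edge -/
theorem chain_tail {a b : V} (hab : G a b) (X : List (V ⊕ (V × V × Fin R))) (hX : (Sum.inl b :: X).IsChain (sub G R)) (d j : ℕ)
    (hd : j + d = R) : (tail R a b j ++ Sum.inl b :: X).IsChain (sub G R) := by
  induction d generalizing j with
  | zero =>
    rw [tail_end a b j (by omega), List.nil_append]
    exact hX
  | succ d ih =>
    have h1 := ih (j + 1) (by omega)
    rw [tail_cons a b j (by omega), List.cons_append]
    rcases Nat.eq_or_lt_of_le (show j + 1 ≤ R by omega) with h2 | h2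
    · rw [tail_end a b (j + 1) (by omega), List.nil_append] at h1 ⊢
      rw [List.isChain_cons_cons]
      exact ⟨⟨rfl, hab, h2⟩, h1⟩
    · rw [tail_cons a b (j + 1) h2, List.cons_append] at h1 ⊢
      rw [List.isChain_cons_cons]
      exact ⟨⟨rfl, rfl, hab, rfl⟩, h1⟩

theorem chain_subl (hR : 0 < R) (l : List V) (h : l.IsChain G) : (subl R l).IsChain (sub G R) := by
  induction l with
  | nil => exact List.isChain_nil
  | cons u l ih =>
    rcases l with _ | ⟨v, l⟩
    · exact List.isChain_singleton _
    · rw [List.isChain_cons_cons] at h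
      have h1 := ih h.2
      obtain ⟨X, hX⟩ := subl_cons_head (R := R) v l
      rw [hX] at h1
      have h2 := chain_tail h.1 X h1 R 0 (by omega)
      rw [subl, hX]
      rw [tail_cons u v 0 hR, List.cons_append] at h2 ⊢
      rw [List.isChain_cons_cons]
      exact ⟨⟨rfl, h.1, rfl⟩, h2⟩

theorem last_subl (l : List V) (t : V) (h : l.getLast? = some t) : (subl R l).getLast? = some (Sum.inl t) := by
  induction l with
  | nil => simp at h
  | cons u l ih =>
    rcases l with _ | ⟨v, l⟩
    · rw [List.getLast?_singleton] at h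
      rw [subl, List.getLast?_singleton, Option.some.inj h]
    · rw [List.getLast?_cons_cons] at h
      have h1 := ih h
      obtain ⟨X, hX⟩ := subl_cons_head (R := R) v l
      rw [subl, hX]
      rw [hX] at h1
      rw [← List.cons_append, List.getLast?_append, h1]
      rfl

/-- a chain starting on a new vertex runs to the end of its edge -/
theorem run_tail (t : V) (d : ℕ) : ∀ (j : Fin R) (a b : V) (L : List (V ⊕ (V × V × Fin R))), j.val + 1 + d = R →
    (Sum.inr (a, b, j) :: L).IsChain (sub G R) → (Sum.inr (a, b, j) :: L).getLast? = some (Sum.inl t) →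
    ∃ X, Sum.inr (a, b, j) :: L = tail R a b j.val ++ Sum.inl b :: X ∧ (Sum.inl b :: X).IsChain (sub G R) ∧
      (Sum.inl b :: X).getLast? = some (Sum.inl t) := by
  induction d with
  | zero =>
    intro j a b L hj hc hl
    rcases L with _ | ⟨w, L⟩
    · rw [List.getLast?_singleton] at hl
      exact absurd (Option.some.inj hl) (by simp)
    · rw [List.isChain_cons_cons] at hc
      rw [List.getLast?_cons_cons] at hl
      rcases w with v | ⟨a', b', j'⟩
      · obtain ⟨⟨rfl, -, -⟩, hc2⟩ := hc
        refine ⟨L, ?_, hc2, hl⟩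
        rw [tail_cons a v j.val j.isLt, tail_end a v (j.val + 1) (by omega)]
        rfl
      · obtain ⟨⟨-, -, -, h1⟩, -⟩ := hc
        have := j'.isLt
        omega
  | succ d ih =>
    intro j a b L hj hc hl
    rcases L with _ | ⟨w, L⟩
    · rw [List.getLast?_singleton] at hl
      exact absurd (Option.some.inj hl) (by simp)
    · rw [List.isChain_cons_cons] at hc
      rw [List.getLast?_cons_cons] at hl
      rcases w with v | ⟨a', b', j'⟩
      · obtain ⟨⟨-, -, h1⟩, -⟩ := hc
        omega
      · obtain ⟨⟨rfl, rfl, -, h1⟩, hc2⟩ := hc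
        obtain ⟨X, hX1, hX2, hX3⟩ := ih j' a b L (by omega) hc2 hl
        refine ⟨X, ?_, hX2, hX3⟩
        rw [hX1, h1, tail_cons a b j.val j.isLt]
        rfl

/-- the paths of the subdivided graph -/
theorem isPath_sub (hR : 0 < R) {s t : V} {L : List (V ⊕ (V × V × Fin R))} :
    IsPath (sub G R) (Sum.inl s) (Sum.inl t) L ↔ ∃ l, IsPath G s t l ∧ L = subl R l := by
  constructor
  · rintro ⟨hc, hh, hl⟩
    obtain ⟨N, hN⟩ : ∃ N, L.length ≤ N := ⟨_, le_rfl⟩
    induction N generalizing L s with
    | zero =>
      have hnil : L = [] := List.eq_nil_of_length_eq_zero (by omega)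
      rw [hnil] at hh
      simp at hh
    | succ N ih =>
      rcases L with _ | ⟨w, L⟩
      · simp at hh
      · rw [List.head?_cons] at hh
        have hw := Option.some.inj hh
        subst hw
        rcases L with _ | ⟨w, L⟩
        · rw [List.getLast?_singleton] at hl
          have hst : s = t := Sum.inl.inj (Option.some.inj hl)
          exact ⟨[s], ⟨List.isChain_singleton _, rfl, by rw [List.getLast?_singleton, hst]⟩, rfl⟩
        · rw [List.isChain_cons_cons] at hc
          rw [List.getLast?_cons_cons] at hl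
          rcases w with v | ⟨a, b, j⟩
          · exact absurd hc.1 (fun h => h)
          · obtain ⟨⟨hsa, hab, hj⟩, hc2⟩ := hc
            subst hsa
            obtain ⟨X, hX1, hX2, hX3⟩ := run_tail t (R - 1) j s b L (by omega) hc2 hl
            have hlen : (Sum.inl b :: X).length ≤ N := by
              have h1 := congrArg List.length hX1
              rw [hj, tail_cons s b 0 hR] at h1
              simp only [List.length_cons, List.length_append] at h1 hN ⊢
              omega
            obtain ⟨l, hlp, hls⟩ := ih hX2 rfl hX3 hlen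
            have hl0 : ∃ l', l = b :: l' := by
              have := hlp.2.1
              rcases l with _ | ⟨z, l⟩
              · simp at this
              · rw [List.head?_cons] at this
                exact ⟨l, by rw [Option.some.inj this]⟩
            obtain ⟨l', rfl⟩ := hl0
            refine ⟨s :: b :: l', ⟨?_, rfl, ?_⟩, ?_⟩
            · rw [List.isChain_cons_cons]
              exact ⟨hab, hlp.1⟩
            · rw [List.getLast?_cons_cons]
              exact hlp.2.2
            · rw [subl, hX1, hj, hls]
  · rintro ⟨l, ⟨hc, hh, hl⟩, rfl⟩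
    refine ⟨chain_subl hR l hc, ?_, last_subl l t hl⟩
    rcases l with _ | ⟨u, l⟩
    · simp at hh
    · rw [List.head?_cons] at hh
      obtain ⟨X, hX⟩ := subl_cons_head (R := R) u l
      rw [hX, List.head?_cons, Option.some.inj hh]

open Classical in
/-- distance from the edges inside `A`, cut off -/
noncomputable def fd (A : V → Prop) (R : ℕ) : V ⊕ (V × V × Fin R) → ℕ
  | Sum.inl a => if A a then 0 else R + 1
  | Sum.inr (a, b, j) => if A a then (if A b then 0 else j.val + 1) else (if A b then R - j.val else R + 1)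

theorem fd_lip (A : V → Prop) (u v : V ⊕ (V × V × Fin R)) (h : sub G R u v) : fd A R u ≤ fd A R v + 1 ∧ fd A R v ≤ fd A R u + 1 := by
  rcases u with u | ⟨a, b, j⟩ <;> rcases v with v | ⟨a', b', j'⟩
  · exact absurd h (fun h => h)
  · obtain ⟨rfl, -, hj⟩ := h
    have := j'.isLt
    simp only [fd]
    split_ifs <;> omega
  · obtain ⟨rfl, -, hj⟩ := h
    simp only [fd]
    split_ifs <;> omega
  · obtain ⟨rfl, rfl, -, hj⟩ := h
    have := j'.isLt
    simp only [fd]
    split_ifs <;> omega

/-- what is seen with sight `r ≤ R` from a vertex on an edge inside `A` depends only on the views at the vertices of `A` -/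
theorem ball_sub {G G' : V → V → Prop} (A : V → Prop) (hA : ∀ a, A a → view G a = view G' a) (w : V ⊕ (V × V × Fin R))
    (hw : fd A R w = 0) (r : ℕ) (hr : r ≤ R) : ball (sub G R) r w = ball (sub G' R) r w := by
  have hin : ∀ a, A a → ∀ x, G x a ↔ G' x a := by
    intro a ha x
    have h1 := congrArg (fun p => p.2.1) (hA a ha)
    exact (Set.ext_iff.1 h1 x)
  have hout : ∀ a, A a → ∀ x, G a x ↔ G' a x := by
    intro a ha x
    have h1 := congrArg (fun p => p.2.2) (hA a ha)
    exact (Set.ext_iff.1 h1 x)
  refine ball_congr r w fun y hy z => ?_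
  have hf := (near_lip (fd A R) (fun u v h => fd_lip A u v h) r w y hy).trans (Nat.add_le_add_left hr _)
  rw [hw, zero_add] at hf
  rcases y with a | ⟨a, b, j⟩
  · have ha : A a := by
      by_contra hcon
      simp only [fd, if_neg hcon] at hf
      omega
    rcases z with c | ⟨c, d, i⟩
    · exact ⟨Iff.rfl, Iff.rfl⟩
    · constructor
      · show (a = c ∧ G c d ∧ i.val = 0) ↔ (a = c ∧ G' c d ∧ i.val = 0)
        constructor
        · rintro ⟨rfl, h1, h2⟩
          exact ⟨rfl, (hout a ha d).1 h1, h2⟩
        · rintro ⟨rfl, h1, h2⟩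
          exact ⟨rfl, (hout a ha d).2 h1, h2⟩
      · show (a = d ∧ G c d ∧ i.val + 1 = R) ↔ (a = d ∧ G' c d ∧ i.val + 1 = R)
        constructor
        · rintro ⟨rfl, h1, h2⟩
          exact ⟨rfl, (hin a ha c).1 h1, h2⟩
        · rintro ⟨rfl, h1, h2⟩
          exact ⟨rfl, (hin a ha c).2 h1, h2⟩
  · have hab : G a b ↔ G' a b := by
      by_cases ha : A a
      · exact hout a ha b
      · by_cases hb : A b
        · exact hin b hb a
        · simp only [fd, if_neg ha, if_neg hb] at hf
          omega
    rcases z with c | ⟨c, d, i⟩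
    · constructor
      · show (c = b ∧ G a b ∧ j.val + 1 = R) ↔ (c = b ∧ G' a b ∧ j.val + 1 = R)
        rw [hab]
      · show (c = a ∧ G a b ∧ j.val = 0) ↔ (c = a ∧ G' a b ∧ j.val = 0)
        rw [hab]
    · constructor
      · show (a = c ∧ b = d ∧ G a b ∧ i.val = j.val + 1) ↔ (a = c ∧ b = d ∧ G' a b ∧ i.val = j.val + 1)
        rw [hab]
      · show (c = a ∧ d = b ∧ G c d ∧ j.val = i.val + 1) ↔ (c = a ∧ d = b ∧ G' c d ∧ j.val = i.val + 1)
        constructor
        · rintro ⟨rfl, rfl, h1, h2⟩
          exact ⟨rfl, rfl, hab.1 h1, h2⟩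
        · rintro ⟨rfl, rfl, h1, h2⟩
          exact ⟨rfl, rfl, hab.2 h1, h2⟩

theorem fd_subl {l : List V} {w : V ⊕ (V × V × Fin R)} (h : w ∈ subl R l) : fd (fun a => a ∈ l) R w = 0 := by
  rcases subl_mem h with ⟨a, ha, rfl⟩ | ⟨a, ha, b, hb, i, rfl⟩
  · simp only [fd, if_pos ha]
  · simp only [fd, if_pos ha, if_pos hb]

end Pool.Agent.Lib.MP_269084_lc
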