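import Pool.Agent.Lib.MP_269084_lc.Defs

/-!
# MP_269084 / Upper: a labelling with O((log n)^2) bits that isolates a path in every digraph with increasing edges

The level of an edge `u v` is the least `d` with `u / 2^d = v / 2^d`. Weight of the edge: (number of the edge) * B^level, `B = 2^(3L)`,
`L = log n + 1`. A path from `s` to `t` has exactly one edge of the highest level `level (s, t)`; so two lightest paths have the same such
edge, and both parts before and after it are lightest paths: induction.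
-/

set_option autoImplicit false

namespace Pool.Agent.Lib.MP_269084_lc

/-- total weight along a list -/
def tw {V : Type} (f : V → V → ℕ) : List V → ℕ
  | u :: v :: l => f u v + tw f (v :: l)
  | _ => 0

theorem tw_append {V : Type} (f : V → V → ℕ) (l₁ l₂ : List V) (x y : V) (h₁ : l₁.getLast? = some x) (h₂ : l₂.head? = some y) :
    tw f (l₁ ++ l₂) = tw f l₁ + f x y + tw f l₂ := by
  induction l₁ with
  | nil => simp at h₁
  | cons a l ih =>
    cases l with
    | nil =>
      simp only [List.getLast?_singleton, Option.some.injEq] at h₁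
      subst h₁
      cases l₂ with
      | nil => simp at h₂
      | cons c l' =>
        simp only [List.head?_cons, Option.some.injEq] at h₂
        subst h₂
        simp [tw]
    | cons b l' =>
      have h3 : (b :: l').getLast? = some x := by
        rw [List.getLast?_cons_cons] at h₁
        exact h₁
      have h4 := ih h3
      simp only [List.cons_append] at h4 ⊢
      rw [tw, tw, h4]
      ring

theorem label_tw {V : Type} (N : ℕ) (f : V → V → ℕ) (l : List V) :
    label (fun u v => Multiplicative.ofAdd ((f u v : ℕ) : ZMod N)) l = Multiplicative.ofAdd ((tw f l : ℕ) : ZMod N) := by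
  induction l with
  | nil => simp [label, tw]
  | cons a l ih =>
    cases l with
    | nil => simp [label, tw]
    | cons b l' =>
      rw [label, ih, tw, ← ofAdd_add]
      push_cast
      rfl

theorem tw_le {V : Type} (f : V → V → ℕ) (C : ℕ) (l : List V) (h : l.IsChain fun u v => f u v ≤ C) :
    tw f l ≤ (l.length - 1) * C := by
  induction l with
  | nil => simp [tw]
  | cons a l ih =>
    cases l with
    | nil => simp [tw]
    | cons b l' =>
      rw [List.isChain_cons_cons] at h
      have h1 := ih h.2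
      have h2 : (a :: b :: l').length - 1 = ((b :: l').length - 1) + 1 := by simp
      rw [h2, tw, add_mul, one_mul]
      omega

section

variable {n : ℕ} {G : Fin (n + 1) → Fin (n + 1) → Prop}

theorem path_append {s x y t : Fin (n + 1)} {l₁ l₂ : List (Fin (n + 1))} (h₁ : IsPath G s x l₁) (h₂ : IsPath G y t l₂) (h : G x y) :
    IsPath G s t (l₁ ++ l₂) := by
  obtain ⟨a1, a2, a3⟩ := h₁
  obtain ⟨b1, b2, b3⟩ := h₂
  refine ⟨?_, ?_, ?_⟩
  · rw [List.isChain_append]
    refine ⟨a1, b1, ?_⟩
    intro u hu v hv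
    rw [a3] at hu
    rw [b2] at hv
    simp only [Option.mem_def, Option.some.injEq] at hu hv
    subst hu hv
    exact h
  · rw [List.head?_append, a2]
    rfl
  · rw [List.getLast?_append, b3]
    rfl

theorem path_cons {s t : Fin (n + 1)} {l : List (Fin (n + 1))} (h : IsPath G s t l) :
    (s = t ∧ l = [s]) ∨ ∃ v l', l = s :: l' ∧ G s v ∧ IsPath G v t l' := by
  obtain ⟨h1, h2, h3⟩ := h
  cases l with
  | nil => simp at h2
  | cons a l =>
    simp only [List.head?_cons, Option.some.injEq] at h2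
    subst h2
    cases l with
    | nil =>
      simp only [List.getLast?_singleton, Option.some.injEq] at h3
      exact Or.inl ⟨h3, rfl⟩
    | cons b l' =>
      rw [List.isChain_cons_cons] at h1
      rw [List.getLast?_cons_cons] at h3
      exact Or.inr ⟨b, b :: l', rfl, h1.1, h1.2, rfl, h3⟩

theorem path_mem (hG : ∀ u v, G u v → u < v) : ∀ (l : List (Fin (n + 1))) (s t : Fin (n + 1)), IsPath G s t l →
    s ≤ t ∧ l.IsChain fun u v => s ≤ u ∧ u < v ∧ v ≤ t := by
  intro l
  induction l with
  | nil =>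
    intro s t h
    exact absurd h.2.1 (by simp)
  | cons a l ih =>
    intro s t h
    rcases path_cons h with ⟨h1, h2⟩ | ⟨v, l', h1, h2, h3⟩
    · rw [h2, h1]
      exact ⟨le_rfl, by simp⟩
    · obtain ⟨rfl, rfl⟩ : a = s ∧ l = l' := by simpa using h1
      obtain ⟨h4, h5⟩ := ih v t h3
      have h6 := hG _ _ h2
      refine ⟨h6.le.trans h4, ?_⟩
      obtain ⟨-, h7, -⟩ := h3
      cases l with
      | nil => simp
      | cons b l'' =>
        simp only [List.head?_cons, Option.some.injEq] at h7
        subst h7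
        rw [List.isChain_cons_cons]
        exact ⟨⟨le_rfl, h6, h4⟩, h5.imp fun u w ⟨e1, e2, e3⟩ => ⟨h6.le.trans e1, e2, e3⟩⟩

theorem path_length (hG : ∀ u v, G u v → u < v) {s t : Fin (n + 1)} {l : List (Fin (n + 1))} (h : IsPath G s t l) :
    l.length ≤ n + 1 := by
  have h1 : l.IsChain (· < ·) := h.1.imp hG
  have h2 : l.Nodup := (List.isChain_iff_pairwise.1 h1).imp ne_of_lt
  simpa using h2.length_le_card

theorem path_split (p : Fin (n + 1) → Prop) :
    ∀ (l : List (Fin (n + 1))) (s t : Fin (n + 1)), IsPath G s t l → p s → ¬ p t →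
      ∃ l₁ l₂ x y, l = l₁ ++ l₂ ∧ IsPath G s x l₁ ∧ IsPath G y t l₂ ∧ G x y ∧ p x ∧ ¬ p y := by
  intro l
  induction l with
  | nil =>
    intro s t h
    exact absurd h.2.1 (by simp)
  | cons a l ih =>
    intro s t h hs ht
    rcases path_cons h with ⟨h1, h2⟩ | ⟨v, l', h1, h2, h3⟩
    · exact absurd (h1 ▸ hs) ht
    · obtain ⟨rfl, rfl⟩ : a = s ∧ l = l' := by simpa using h1
      by_cases hv : p v
      · obtain ⟨l₁, l₂, x, y, e1, e2, e3, e4, e5, e6⟩ := ih v t h3 hv ht
        refine ⟨a :: l₁, l₂, x, y, by rw [e1, List.cons_append], ?_, e3, e4, e5, e6⟩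
        exact path_append (l₁ := [a]) ⟨by simp, by simp, by simp⟩ e2 h2
      · exact ⟨[a], l, a, v, rfl, ⟨by simp, by simp, by simp⟩, h3, h2, hs, hv⟩

end

/-- the level of an edge -/
noncomputable def lev (a b : ℕ) : ℕ := sInf {d | a / 2 ^ d = b / 2 ^ d}

theorem lev_le {a b d : ℕ} (h : a / 2 ^ d = b / 2 ^ d) : lev a b ≤ d := Nat.sInf_le h

theorem lev_mono {a b d e : ℕ} (h : a / 2 ^ d = b / 2 ^ d) (hde : d ≤ e) : a / 2 ^ e = b / 2 ^ e := by
  obtain ⟨c, rfl⟩ := Nat.exists_eq_add_of_le hde
  rw [pow_add, ← Nat.div_div_eq_div_mul, ← Nat.div_div_eq_div_mul, h]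

theorem lev_eq {a b d : ℕ} (h1 : a / 2 ^ d ≠ b / 2 ^ d) (h2 : a / 2 ^ (d + 1) = b / 2 ^ (d + 1)) : lev a b = d + 1 := by
  apply le_antisymm (lev_le h2)
  by_contra h
  push Not at h
  have h3 : a / 2 ^ lev a b = b / 2 ^ lev a b :=
    Nat.sInf_mem (s := {d | a / 2 ^ d = b / 2 ^ d}) ⟨d + 1, h2⟩
  exact h1 (lev_mono h3 (by omega))

/-- the weight of an edge -/
noncomputable def wt {n : ℕ} (B : ℕ) (u v : Fin (n + 1)) : ℕ := (u.val * (n + 1) + v.val) * B ^ lev u.val v.val

section

variable {n : ℕ} {G : Fin (n + 1) → Fin (n + 1) → Prop}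

theorem id_lt (u v : Fin (n + 1)) : u.val * (n + 1) + v.val < (n + 1) * (n + 1) := by
  have h1 := u.isLt
  have h2 := v.isLt
  have h3 : u.val * (n + 1) ≤ n * (n + 1) := Nat.mul_le_mul_right _ (by omega)
  have h4 : (n + 1) * (n + 1) = n * (n + 1) + (n + 1) := by ring
  omega

theorem tw_small (hG : ∀ u v, G u v → u < v) (B D : ℕ) (hB : 0 < B) {s t : Fin (n + 1)} {l : List (Fin (n + 1))} (h : IsPath G s t l)
    (hst : s.val / 2 ^ D = t.val / 2 ^ D) : tw (wt B) l ≤ (l.length - 1) * ((n + 1) * (n + 1) * B ^ D) := by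
  apply tw_le
  apply (path_mem hG l s t h).2.imp
  intro u v ⟨h1, h2, h3⟩
  have e1 : s.val / 2 ^ D ≤ u.val / 2 ^ D := Nat.div_le_div_right h1
  have e2 : u.val / 2 ^ D ≤ v.val / 2 ^ D := Nat.div_le_div_right (le_of_lt h2)
  have e3 : v.val / 2 ^ D ≤ t.val / 2 ^ D := Nat.div_le_div_right h3
  have e4 : lev u.val v.val ≤ D := lev_le (by omega)
  exact Nat.mul_le_mul (id_lt u v).le (Nat.pow_le_pow_right hB e4)

theorem unique_min (hG : ∀ u v, G u v → u < v) (B : ℕ) (hB : (n + 1) * ((n + 1) * (n + 1)) ≤ B) :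
    ∀ (D : ℕ) (s t : Fin (n + 1)) (l l' : List (Fin (n + 1))), s.val / 2 ^ D = t.val / 2 ^ D → IsPath G s t l → IsPath G s t l' →
      (∀ q, IsPath G s t q → tw (wt B) l ≤ tw (wt B) q) → (∀ q, IsPath G s t q → tw (wt B) l' ≤ tw (wt B) q) → l = l' := by
  have hB0 : 0 < B := lt_of_lt_of_le (by positivity) hB
  intro D
  induction D with
  | zero =>
    intro s t l l' hst hl hl' _ _
    have h1 : s = t := by
      apply Fin.ext
      simpa using hst
    subst h1
    have key : ∀ q, IsPath G s s q → q = [s] := by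
      intro q hq
      rcases path_cons hq with ⟨-, h⟩ | ⟨v, q', -, h2, h3⟩
      · exact h
      · exact absurd (hG _ _ h2) (not_lt.2 (path_mem hG q' v s h3).1)
    rw [key l hl, key l' hl']
  | succ D ih =>
    intro s t l l' hst hl hl' hm hm'
    by_cases hD : s.val / 2 ^ D = t.val / 2 ^ D
    · exact ih s t l l' hD hl hl' hm hm'
    · have hhalf : s.val / 2 ^ D / 2 = t.val / 2 ^ D / 2 := by
        rw [Nat.div_div_eq_div_mul, Nat.div_div_eq_div_mul, ← pow_succ]
        exact hst
      -- the structure of a path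
      have struct : ∀ q, IsPath G s t q → ∃ q₁ q₂ x y, q = q₁ ++ q₂ ∧ IsPath G s x q₁ ∧ IsPath G y t q₂ ∧ G x y ∧
          s.val / 2 ^ D = x.val / 2 ^ D ∧ y.val / 2 ^ D = t.val / 2 ^ D ∧
          tw (wt B) q = tw (wt B) q₁ + (x.val * (n + 1) + y.val) * B ^ (D + 1) + tw (wt B) q₂ ∧
          tw (wt B) q₁ + tw (wt B) q₂ < B ^ (D + 1) := by
        intro q hq
        obtain ⟨q₁, q₂, x, y, e1, e2, e3, e4, e5, e6⟩ :=
          path_split (fun x => x.val / 2 ^ D = s.val / 2 ^ D) q s t hq rfl (fun h => hD h.symm)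
        have f1 := (path_mem hG q₁ s x e2).1
        have f2 := (path_mem hG q₂ y t e3).1
        have f3 := hG _ _ e4
        have g1 : s.val / 2 ^ D ≤ x.val / 2 ^ D := Nat.div_le_div_right f1
        have g2 : x.val / 2 ^ D ≤ y.val / 2 ^ D := Nat.div_le_div_right (le_of_lt f3)
        have g3 : y.val / 2 ^ D ≤ t.val / 2 ^ D := Nat.div_le_div_right f2
        have g4 : y.val / 2 ^ D = t.val / 2 ^ D := by omega
        have g5 : lev x.val y.val = D + 1 := by
          apply lev_eq
          · omega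
          · rw [pow_succ, ← Nat.div_div_eq_div_mul, ← Nat.div_div_eq_div_mul]
            omega
        refine ⟨q₁, q₂, x, y, e1, e2, e3, e4, e5.symm, g4, ?_, ?_⟩
        · rw [e1, tw_append (wt B) q₁ q₂ x y e2.2.2 e3.2.1]
          congr 2
          rw [wt, g5]
        · have b1 := tw_small hG B D hB0 e2 e5.symm
          have b2 := tw_small hG B D hB0 e3 g4
          have b3 := path_length hG hq
          rw [e1, List.length_append] at b3
          have b4 : 1 ≤ q₁.length := by
            rcases q₁ with _ | ⟨c, q₁⟩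
            · exact absurd e2.2.1 (by simp)
            · simp
          have b5 : 1 ≤ q₂.length := by
            rcases q₂ with _ | ⟨c, q₂⟩
            · exact absurd e3.2.1 (by simp)
            · simp
          calc tw (wt B) q₁ + tw (wt B) q₂
              ≤ (q₁.length - 1) * ((n + 1) * (n + 1) * B ^ D) + (q₂.length - 1) * ((n + 1) * (n + 1) * B ^ D) := by omega
            _ = (q₁.length - 1 + (q₂.length - 1)) * ((n + 1) * (n + 1) * B ^ D) := by ring
            _ < (n + 1) * ((n + 1) * (n + 1) * B ^ D) := by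
                apply Nat.mul_lt_mul_of_pos_right _ (by positivity)
                omega
            _ = (n + 1) * ((n + 1) * (n + 1)) * B ^ D := by ring
            _ ≤ B * B ^ D := Nat.mul_le_mul_right _ hB
            _ = B ^ (D + 1) := by ring
      obtain ⟨l₁, l₂, x, y, e1, e2, e3, e4, e5, e6, e7, e8⟩ := struct l hl
      obtain ⟨l₁', l₂', x', y', e1', e2', e3', e4', e5', e6', e7', e8'⟩ := struct l' hl'
      have heq : tw (wt B) l = tw (wt B) l' := le_antisymm (hm l' hl') (hm' l hl)
      have hid : x.val * (n + 1) + y.val = x'.val * (n + 1) + y'.val := by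
        have c1 : (tw (wt B) l) / B ^ (D + 1) = x.val * (n + 1) + y.val := by
          rw [e7, show tw (wt B) l₁ + (x.val * (n + 1) + y.val) * B ^ (D + 1) + tw (wt B) l₂ =
            (tw (wt B) l₁ + tw (wt B) l₂) + (x.val * (n + 1) + y.val) * B ^ (D + 1) by ring,
            Nat.add_mul_div_right _ _ (by positivity), Nat.div_eq_of_lt e8, zero_add]
        have c2 : (tw (wt B) l') / B ^ (D + 1) = x'.val * (n + 1) + y'.val := by
          rw [e7', show tw (wt B) l₁' + (x'.val * (n + 1) + y'.val) * B ^ (D + 1) + tw (wt B) l₂' =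
            (tw (wt B) l₁' + tw (wt B) l₂') + (x'.val * (n + 1) + y'.val) * B ^ (D + 1) by ring,
            Nat.add_mul_div_right _ _ (by positivity), Nat.div_eq_of_lt e8', zero_add]
        rw [← c1, ← c2, heq]
      have hy : y = y' := by
        apply Fin.ext
        have c1 : (x.val * (n + 1) + y.val) % (n + 1) = y.val := by
          rw [add_comm, Nat.add_mul_mod_self_right, Nat.mod_eq_of_lt y.isLt]
        have c2 : (x'.val * (n + 1) + y'.val) % (n + 1) = y'.val := by
          rw [add_comm, Nat.add_mul_mod_self_right, Nat.mod_eq_of_lt y'.isLt]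
        rw [← c1, ← c2, hid]
      subst hy
      have hx : x = x' := by
        apply Fin.ext
        have : x.val * (n + 1) = x'.val * (n + 1) := by omega
        exact Nat.eq_of_mul_eq_mul_right (Nat.succ_pos n) this
      subst hx
      have hfe : ∀ q, IsPath G s x q → ∀ q', IsPath G y t q' →
          tw (wt B) (q ++ q') = tw (wt B) q + (x.val * (n + 1) + y.val) * B ^ (D + 1) + tw (wt B) q' := by
        intro q hq q' hq'
        rw [tw_append (wt B) q q' x y hq.2.2 hq'.2.1]
        congr 2
        rw [wt, lev_eq (d := D)]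
        · intro h
          exact hD (e5.trans (h.trans e6))
        · rw [pow_succ, ← Nat.div_div_eq_div_mul, ← Nat.div_div_eq_div_mul]
          omega
      have h1 : l₁ = l₁' := by
        apply ih s x l₁ l₁' e5 e2 e2'
        · intro q hq
          have := hm (q ++ l₂) (path_append hq e3 e4)
          rw [hfe q hq l₂ e3, e7] at this
          omega
        · intro q hq
          have := hm' (q ++ l₂') (path_append hq e3' e4)
          rw [hfe q hq l₂' e3', e7'] at this
          omega
      have h2 : l₂ = l₂' := by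
        apply ih y t l₂ l₂' e6 e3 e3'
        · intro q hq
          have := hm (l₁ ++ q) (path_append e2 hq e4)
          rw [hfe l₁ e2 q hq, e7] at this
          omega
        · intro q hq
          have := hm' (l₁' ++ q) (path_append e2' hq e4)
          rw [hfe l₁' e2' q hq, e7'] at this
          omega
      rw [e1, e1', h1, h2]

/-- The upper bound: `3 L (L + 1)` bits, `L = log n + 1`. -/
theorem upper (n : ℕ) : ∃ w : Fin (n + 1) → Fin (n + 1) → Multiplicative (ZMod (2 ^ (3 * (Nat.log 2 n + 1) * (Nat.log 2 n + 2)))),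
    ∀ G : Fin (n + 1) → Fin (n + 1) → Prop, (∀ u v, G u v → u < v) → ∀ s t : Fin (n + 1), (∃ l, IsPath G s t l) →
      ∃ x, {l | IsPath G s t l ∧ label w l = x}.ncard = 1 := by
  set L := Nat.log 2 n + 1 with hL
  have hn : n + 1 ≤ 2 ^ L := Nat.lt_pow_succ_log_self one_lt_two n
  set B := 2 ^ (3 * L) with hBdef
  have hB : (n + 1) * ((n + 1) * (n + 1)) ≤ B := by
    calc (n + 1) * ((n + 1) * (n + 1)) ≤ 2 ^ L * (2 ^ L * 2 ^ L) := by gcongr
      _ = B := by rw [hBdef, ← pow_add, ← pow_add]; congr 1; ring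
  have hB0 : 0 < B := by positivity
  have hN : 2 ^ (3 * (Nat.log 2 n + 1) * (Nat.log 2 n + 2)) = B ^ (L + 1) := by
    rw [hBdef, ← pow_mul]
  refine ⟨fun u v => Multiplicative.ofAdd ((wt B u v : ℕ) : ZMod _), ?_⟩
  intro G hG s t ⟨l₀, hl₀⟩
  have hdiv : ∀ u : Fin (n + 1), u.val / 2 ^ L = 0 := fun u => Nat.div_eq_of_lt (lt_of_lt_of_le u.isLt hn)
  have hbound : ∀ q, IsPath G s t q → tw (wt B) q < B ^ (L + 1) := by
    intro q hq
    have h1 := tw_small hG B L hB0 hq (by rw [hdiv, hdiv])
    have h2 := path_length hG hq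
    have h3 : 1 ≤ q.length := by
      rcases q with _ | ⟨c, q⟩
      · exact absurd hq.2.1 (by simp)
      · simp
    calc tw (wt B) q ≤ (q.length - 1) * ((n + 1) * (n + 1) * B ^ L) := h1
      _ < (n + 1) * ((n + 1) * (n + 1) * B ^ L) := by
          apply Nat.mul_lt_mul_of_pos_right _ (by positivity)
          omega
      _ = (n + 1) * ((n + 1) * (n + 1)) * B ^ L := by ring
      _ ≤ B * B ^ L := Nat.mul_le_mul_right _ hB
      _ = B ^ (L + 1) := by ring
  have hex : ∃ l, IsPath G s t l ∧ ∀ q, IsPath G s t q → tw (wt B) l ≤ tw (wt B) q := by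
    classical
    have hne : ∃ m, ∃ l, IsPath G s t l ∧ tw (wt B) l = m := ⟨_, l₀, hl₀, rfl⟩
    obtain ⟨l, hl, hlm⟩ := Nat.find_spec hne
    exact ⟨l, hl, fun q hq => hlm ▸ Nat.find_min' hne ⟨q, hq, rfl⟩⟩
  obtain ⟨l, hl, hmin⟩ := hex
  refine ⟨label (fun u v => Multiplicative.ofAdd ((wt B u v : ℕ) : ZMod _)) l, ?_⟩
  rw [Set.ncard_eq_one]
  refine ⟨l, ?_⟩
  ext q
  simp only [Set.mem_ofPred_eq, Set.mem_singleton_iff]
  constructor
  · rintro ⟨hq, hlab⟩
    rw [label_tw, label_tw] at hlab
    have h1 : ((tw (wt B) q : ℕ) : ZMod (2 ^ (3 * (Nat.log 2 n + 1) * (Nat.log 2 n + 2)))) = ((tw (wt B) l : ℕ) : ZMod _) :=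
      Multiplicative.ofAdd.injective hlab
    rw [ZMod.natCast_eq_natCast_iff', hN, Nat.mod_eq_of_lt (hbound q hq), Nat.mod_eq_of_lt (hbound l hl)] at h1
    apply unique_min hG B hB L s t q l (by rw [hdiv, hdiv]) hq hl ?_ hmin
    intro q' hq'
    rw [h1]
    exact hmin q' hq'
  · rintro rfl
    exact ⟨hl, rfl⟩

end

end Pool.Agent.Lib.MP_269084_lc
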