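import Mathlib

/-!
# MP_269084 / Words: sets of words without two words differing exactly on an interval

If `S` is a set of words in `[q]^L` and no two words of `S` differ exactly on a nonempty interval of coordinates, then `S` has density at most `(L/q)^m` for every `m` with `2^m - 1 ≤ L`. Proof: take a word of `S`; every other word of `S` agrees with it at some coordinate `t`; fix the letter there; one of the two intervals left of and right of `t` has at least half of the length.
-/

set_option autoImplicit false

open Finset

namespace Pool.Agent.Lib.MP_269084_lc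

variable {q L : ℕ}

/-- the coordinates in `[i, j)` -/
def seg (L i j : ℕ) : Finset (Fin L) := univ.filter fun t => i ≤ t.val ∧ t.val < j

theorem mem_seg {i j : ℕ} {t : Fin L} : t ∈ seg L i j ↔ i ≤ t.val ∧ t.val < j := by
  simp [seg]

theorem card_seg {i j : ℕ} (hj : j ≤ L) : (seg L i j).card = j - i := by
  have h : (seg L i j).map Fin.valEmbedding = Ico i j := by
    ext x
    simp only [mem_map, mem_seg, Fin.valEmbedding_apply, mem_Ico]
    constructor
    · rintro ⟨t, ht, rfl⟩
      exact ht
    · rintro ⟨h1, h2⟩
      exact ⟨⟨x, by omega⟩, ⟨h1, h2⟩, rfl⟩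
  rw [← card_map Fin.valEmbedding, h, Nat.card_Ico]

/-- the number of the words agreeing with `b` outside `R` -/
theorem card_free (R : Finset (Fin L)) (b : Fin L → Fin q) :
    (univ.filter fun a : Fin L → Fin q => ∀ t, t ∉ R → a t = b t).card = q ^ R.card := by
  have h : (univ.filter fun a : Fin L → Fin q => ∀ t, t ∉ R → a t = b t) =
      Fintype.piFinset (fun t => if t ∈ R then (univ : Finset (Fin q)) else {b t}) := by
    ext a
    simp only [mem_filter, mem_univ, true_and, Fintype.mem_piFinset]
    refine forall_congr' fun t => ?_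
    by_cases ht : t ∈ R <;> simp [ht]
  rw [h, Fintype.card_piFinset]
  have h2 : ∀ t : Fin L, (if t ∈ R then (univ : Finset (Fin q)) else {b t}).card = if t ∈ R then q else 1 := by
    intro t
    split_ifs <;> simp
  rw [prod_congr rfl fun t _ => h2 t, prod_ite_mem, univ_inter, prod_const]

open Classical in
/-- the words agreeing with `b` outside `[i, j)`, with value `x` -/
noncomputable def fib {X : Type*} (F : (Fin L → Fin q) → X) (i j : ℕ) (b : Fin L → Fin q) (x : X) : Finset (Fin L → Fin q) :=
  univ.filter fun a => (∀ t, t ∉ seg L i j → a t = b t) ∧ F a = x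

open Classical in
/-- splitting off a set `R` of coordinates and one coordinate `t` -/
theorem split_bound {X : Type*} (F : (Fin L → Fin q) → X) (i j i' j' : ℕ) (b : Fin L → Fin q) (x : X) (t : Fin L) (c : Fin q)
    (R : Finset (Fin L)) (hS : ∀ s, s ∈ seg L i j → s ∈ seg L i' j' ∨ s = t ∨ s ∈ R) (N : ℕ)
    (hN : ∀ b', (fib F i' j' b' x).card ≤ N) :
    ((fib F i j b x).filter fun a => a t = c).card ≤ N * q ^ R.card := by
  have h1 := card_le_mul_card_image (s := (fib F i j b x).filter fun a => a t = c)
    (f := fun a => fun s => if s ∈ R then a s else b s) N (by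
      intro d hd
      refine le_trans (card_le_card ?_) (hN fun s => if s = t then c else d s)
      intro a ha
      rw [mem_filter, mem_filter] at ha
      obtain ⟨⟨h2, h3⟩, h4⟩ := ha
      rw [fib, mem_filter] at h2
      rw [fib, mem_filter]
      refine ⟨mem_univ _, fun s hs => ?_, h2.2.2⟩
      by_cases hst : s = t
      · rw [if_pos hst, hst, h3]
      · rw [if_neg hst, ← h4]
        dsimp only
        split_ifs with hR
        · rfl
        · by_cases hs2 : s ∈ seg L i j
          · rcases hS s hs2 with h5 | h5 | h5
            · exact absurd h5 hs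
            · exact absurd h5 hst
            · exact absurd h5 hR
          · exact h2.2.1 s hs2)
  refine h1.trans (Nat.mul_le_mul_left _ ?_)
  rw [← card_free R b]
  refine card_le_card ?_
  intro d hd
  rw [mem_image] at hd
  obtain ⟨a, -, rfl⟩ := hd
  rw [mem_filter]
  exact ⟨mem_univ _, fun s hs => if_neg hs⟩

/-- main estimate -/
theorem fib_bound {X : Type*} (F : (Fin L → Fin q) → X)
    (hF : ∀ a a' : Fin L → Fin q, ∀ i j : ℕ, i < j → j ≤ L → (∀ t : Fin L, a t ≠ a' t ↔ i ≤ t.val ∧ t.val < j) → F a ≠ F a')
    (m i j : ℕ) (hij : i ≤ j) (hj : j ≤ L) (hm : 2 ^ m ≤ j - i + 1) (b : Fin L → Fin q) (x : X) :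
    (fib F i j b x).card * q ^ m ≤ L ^ m * q ^ (j - i) := by
  classical
  induction m generalizing i j b with
  | zero =>
    rw [pow_zero, mul_one, pow_zero, one_mul, ← card_seg hj, ← card_free (seg L i j) b]
    refine card_le_card fun a ha => ?_
    rw [fib, mem_filter] at ha
    rw [mem_filter]
    exact ⟨mem_univ _, ha.2.1⟩
  | succ m ih =>
    have h2m : 1 ≤ 2 ^ m := Nat.one_le_two_pow
    rw [pow_succ] at hm
    rcases (fib F i j b x).eq_empty_or_nonempty with he | ⟨a0, ha0⟩
    · rw [he, card_empty, zero_mul]
      exact Nat.zero_le _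
    · have ha0' := ha0
      rw [fib, mem_filter] at ha0'
      -- every word agrees with a0 somewhere
      have hagree : ∀ a ∈ fib F i j b x, ∃ t ∈ seg L i j, a t = a0 t := by
        intro a ha
        by_contra hcon
        push Not at hcon
        rw [fib, mem_filter] at ha
        refine hF a a0 i j (by omega) hj ?_ (ha.2.2.trans ha0'.2.2.symm)
        intro t
        rw [← mem_seg]
        constructor
        · intro hne
          by_contra hs
          exact hne ((ha.2.1 t hs).trans (ha0'.2.1 t hs).symm)
        · intro hs
          exact hcon t hs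
      have hcover : fib F i j b x ⊆ (seg L i j).biUnion fun t => (fib F i j b x).filter fun a => a t = a0 t := by
        intro a ha
        obtain ⟨t, ht, h⟩ := hagree a ha
        rw [mem_biUnion]
        exact ⟨t, ht, mem_filter.2 ⟨ha, h⟩⟩
      have hone : ∀ t ∈ seg L i j, ((fib F i j b x).filter fun a => a t = a0 t).card * q ^ m ≤ L ^ m * q ^ (j - i - 1) := by
        intro t ht
        rw [mem_seg] at ht
        by_cases hlong : 2 ^ m ≤ t.val - i + 1
        · -- left part long
          have hb := split_bound F i j i t.val b x t (a0 t) (seg L (t.val + 1) j) (by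
            intro s hs
            rw [mem_seg] at hs ⊢
            rw [mem_seg, Fin.ext_iff]
            omega) ((L ^ m * q ^ (t.val - i)) / q ^ m) (by
            intro b'
            rcases Nat.eq_zero_or_pos (q ^ m) with h0 | h0
            · have hq0 : q = 0 := by
                by_contra hne
                exact absurd h0 (pow_ne_zero _ hne)
              subst hq0
              exact absurd (a0 t).isLt (Nat.not_lt_zero _)
            · rw [Nat.le_div_iff_mul_le h0]
              exact ih i t.val ht.1 (by omega) hlong b')
          rw [card_seg hj] at hb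
          calc _ ≤ (L ^ m * q ^ (t.val - i)) / q ^ m * q ^ (j - (t.val + 1)) * q ^ m := Nat.mul_le_mul_right _ hb
            _ = (L ^ m * q ^ (t.val - i)) / q ^ m * q ^ m * q ^ (j - (t.val + 1)) := by ring
            _ ≤ (L ^ m * q ^ (t.val - i)) * q ^ (j - (t.val + 1)) := Nat.mul_le_mul_right _ (Nat.div_mul_le_self _ _)
            _ = L ^ m * q ^ (j - i - 1) := by
                rw [mul_assoc, ← pow_add]
                congr 2
                omega
        · -- right part long
          have hb := split_bound F i j (t.val + 1) j b x t (a0 t) (seg L i t.val) (by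
            intro s hs
            rw [mem_seg] at hs ⊢
            rw [mem_seg, Fin.ext_iff]
            omega) ((L ^ m * q ^ (j - (t.val + 1))) / q ^ m) (by
            intro b'
            rcases Nat.eq_zero_or_pos (q ^ m) with h0 | h0
            · have hq0 : q = 0 := by
                by_contra hne
                exact absurd h0 (pow_ne_zero _ hne)
              subst hq0
              exact absurd (a0 t).isLt (Nat.not_lt_zero _)
            · rw [Nat.le_div_iff_mul_le h0]
              exact ih (t.val + 1) j (by omega) hj (by omega) b')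
          rw [card_seg (by omega : t.val ≤ L)] at hb
          calc _ ≤ (L ^ m * q ^ (j - (t.val + 1))) / q ^ m * q ^ (t.val - i) * q ^ m := Nat.mul_le_mul_right _ hb
            _ = (L ^ m * q ^ (j - (t.val + 1))) / q ^ m * q ^ m * q ^ (t.val - i) := by ring
            _ ≤ (L ^ m * q ^ (j - (t.val + 1))) * q ^ (t.val - i) := Nat.mul_le_mul_right _ (Nat.div_mul_le_self _ _)
            _ = L ^ m * q ^ (j - i - 1) := by
                rw [mul_assoc, ← pow_add]
                congr 2
                omega
      have hji : 1 ≤ j - i := by omega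
      calc (fib F i j b x).card * q ^ (m + 1)
          ≤ (∑ t ∈ seg L i j, ((fib F i j b x).filter fun a => a t = a0 t).card) * q ^ (m + 1) :=
            Nat.mul_le_mul_right _ ((card_le_card hcover).trans card_biUnion_le)
        _ = (∑ t ∈ seg L i j, ((fib F i j b x).filter fun a => a t = a0 t).card * q ^ m) * q := by
            rw [pow_succ, ← mul_assoc, sum_mul]
        _ ≤ (∑ _t ∈ seg L i j, L ^ m * q ^ (j - i - 1)) * q := Nat.mul_le_mul_right _ (sum_le_sum hone)
        _ = (j - i) * (L ^ m * q ^ (j - i - 1)) * q := by rw [sum_const, card_seg hj, smul_eq_mul]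
        _ ≤ L * (L ^ m * q ^ (j - i - 1)) * q := Nat.mul_le_mul_right _ (Nat.mul_le_mul_right _ (by omega))
        _ = L ^ (m + 1) * q ^ (j - i - 1 + 1) := by ring
        _ = L ^ (m + 1) * q ^ (j - i) := by rw [Nat.sub_add_cancel hji]

/-- a function with few values identifies two words which differ exactly on a nonempty interval -/
theorem exists_pair {X : Type*} [Finite X] (F : (Fin L → Fin q) → X) (hq : 0 < q) (m : ℕ) (hm : 2 ^ m ≤ L + 1)
    (hX : Nat.card X * L ^ m < q ^ m) :
    ∃ a a' : Fin L → Fin q, ∃ i j : ℕ, i < j ∧ j ≤ L ∧ (∀ t : Fin L, a t ≠ a' t ↔ i ≤ t.val ∧ t.val < j) ∧ F a = F a' := by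
  classical
  by_contra hcon
  have hF : ∀ a a' : Fin L → Fin q, ∀ i j : ℕ, i < j → j ≤ L → (∀ t : Fin L, a t ≠ a' t ↔ i ≤ t.val ∧ t.val < j) → F a ≠ F a' := by
    intro a a' i j h1 h2 h3 h4
    exact hcon ⟨a, a', i, j, h1, h2, h3, h4⟩
  haveI := Fintype.ofFinite X
  let b : Fin L → Fin q := fun _ => ⟨0, hq⟩
  have h1 : ∀ x, (fib F 0 L b x).card * q ^ m ≤ L ^ m * q ^ L := fun x => by
    simpa using fib_bound F hF m 0 L (Nat.zero_le _) le_rfl (by simpa using hm) b x
  have h2 : q ^ L = ∑ x : X, (fib F 0 L b x).card := by
    have h3 : (univ : Finset (Fin L → Fin q)).card = ∑ x : X, (univ.filter fun a => F a = x).card :=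
      card_eq_sum_card_fiberwise (fun a _ => mem_univ _)
    rw [card_univ, Fintype.card_fun, Fintype.card_fin, Fintype.card_fin] at h3
    rw [h3]
    refine sum_congr rfl fun x _ => ?_
    congr 1
    ext a
    rw [fib, mem_filter, mem_filter]
    constructor
    · rintro ⟨-, h⟩
      refine ⟨mem_univ _, fun t ht => ?_, h⟩
      exact absurd (mem_seg.2 ⟨Nat.zero_le _, t.isLt⟩) ht
    · rintro ⟨-, -, h⟩
      exact ⟨mem_univ _, h⟩
  have h3 : q ^ L * q ^ m ≤ q ^ L * (Nat.card X * L ^ m) := by
    calc q ^ L * q ^ m = ∑ x : X, (fib F 0 L b x).card * q ^ m := by rw [← sum_mul, ← h2]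
      _ ≤ ∑ _x : X, L ^ m * q ^ L := sum_le_sum fun x _ => h1 x
      _ = q ^ L * (Nat.card X * L ^ m) := by
          rw [sum_const, card_univ, smul_eq_mul, Nat.card_eq_fintype_card]
          ring
  have h4 := Nat.le_of_mul_le_mul_left h3 (by positivity)
  omega

end Pool.Agent.Lib.MP_269084_lc
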